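import Pool.Agent.H660.SU.Dec
import Pool.Graph.R_pool_sql_team_seeded_620a6dc7.H637_NO.D1
import Pool.Graph.R_pool_sql_team_seeded_620a6dc7.H637_NO.D1a
import Pool.Graph.R_pool_sql_team_seeded_620a6dc7.H637_NO.D1b
import Pool.Graph.R_pool_sql_team_seeded_620a6dc7.H637_NO.RW

/-!
# The failure of projective uniformization
-/

set_option autoImplicit false
set_option linter.unreachableTactic false
set_option linter.unusedTactic false
set_option linter.unusedSectionVars false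

namespace Pool.Agent.H660.SU

open Pool.Agent.W868 Pool.Agent.W868.GM Pool.Agent.Y588 Pool.Agent.H637_NO
open ZFSet (pair)

theorem hct_up {V W : Set ZFSet.{0}} (h : V ⊆ W) {z : ZFSet.{0}} (hz : HCt V z) : HCt W z := by
  obtain ⟨T, hT, h1, h2, f, hf, h3⟩ := hz
  exact ⟨T, h hT, h1, h2, f, h hf, h3⟩

/-- The real `y` is constructible from `z` in a hereditarily countable way. -/
def Cn (N : Set ZFSet.{0}) (z y : ZFSet.{0}) : Prop := ∃ a, HCt N a ∧ Psi z y a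

/-- The formula defines constructibility from a real. -/
def IsCn (φ : Fm 2 0) : Prop := ∀ M, IsZFC M → ∀ x : Fin 2 → Reals M,
    (Cn M (rw' (x 0).1) (rw' (x 1).1) ↔ Tr (Reals M) φ x)

/-- Constructibility from a real is a `Σ^1_2` relation. -/
theorem exists_phi : ∃ φ : Fm 2 0, Cls true 2 φ ∧ IsCn φ := by
  have h3 : S_D1 := d1 (d1a hCg hC2 rW) d1b
  obtain ⟨φ, h1, h⟩ := h3 2 (fun a v => Psi (v 0) (v 1) a) (d0_Psi.comp ![1, 2, 0])
  exact ⟨φ, h1, fun M hM x => h M hM x⟩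

section

variable {N : Set ZFSet.{0}} {e : ZFSet.{0} → ZFSet.{0}} {κ D g : ZFSet.{0}}
  (R : RS N e κ D g)

include R

theorem RS.zfc : IsZFC N := isZFC_of_gc R.zf R.gc

omit R in
theorem pw_unc (hN : IsZF N) : ¬ Inj N (PW N) ZFSet.omega := by
  intro h
  have hoo := oo_mem hN
  have h1 : Inj N ZFSet.omega oo := by
    refine Inj.of_fun hN hN.infinity hoo (h := fun n => pair n ∅)
      (hN.base.pair' (DfnF.proj 0) (DfnF.const hN.empty_mem)) (fun a ha => ?_)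
      fun a _ b _ h => (ZFSet.pair_inj.1 h).1
    exact ZFSet.pair_mem_prod.2 ⟨ha, ZFSet.omega_zero⟩
  exact cantor hN hoo (PW_mem hN) (fun z => mem_PW) (Inj.trans hN (PW_mem hN) hoo h h1)

omit R in
theorem hct_pw (hN : IsZF N) {z : ZFSet.{0}} (hz : z ∈ PW N) : HCt N z :=
  HCt.sub hN (hCt_oo hN) (mem_PW.1 hz).1 (mem_PW.1 hz).2

/-- There are reals that are not constructible from a given real. -/
theorem RS.total {z : ZFSet.{0}} (hz : z ∈ PW N) : ∃ y ∈ PW N, ¬ Cn N z y := by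
  have hN := R.zf
  obtain ⟨S, hS, hSi, hS'⟩ := R.few z (hct_pw hN hz)
  obtain ⟨y, hy, hyS⟩ : ∃ y ∈ PW N, y ∉ S := by
    by_contra hcon
    push Not at hcon
    exact pw_unc hN (inj_omega_sub hN (PW_mem hN) hS hcon hSi)
  refine ⟨y, hy, ?_⟩
  rintro ⟨a, ha, hP⟩
  obtain ⟨ξ, X, h1, h2, h3⟩ := hP.spec
  exact hyS (hS' y hy ⟨ξ, (hN.of_pair_mem (hN.trans _ (HCt.mem_M hN ha) _ h1)).1, h2, h3⟩)

omit R in
/-- The reals of `L(z)` are constructible from `z` in a hereditarily countable way. -/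
theorem cn_of_mem (hN : IsZF N) {z y : ZFSet.{0}} (hz : z ∈ PW N) (hy : y ∈ LC N z)
    (hyo : y ⊆ oo) : Cn N z y := by
  have hl : Lcf N z := (cs_oo hN hz).lcf hN
  have hW := hl.zf
  have h1 : HCt (LC N z) z := HCt.sub hW (hCt_oo hW) hl.mem (mem_PW.1 hz).2
  have h2 : HCt (LC N z) y := HCt.sub hW (hCt_oo hW) hy hyo
  obtain ⟨T, hT, h3, h4, h5, h6⟩ := HCt.two hW h1 h2
  obtain ⟨X, hX, h7, h8, h9, h10⟩ := condensation hl.la hW.infinity isOrdinal_omega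
    (fun _ h => h) hT h3 h4 h6
  obtain ⟨f, hf, h11⟩ := h10 y (h8 h5)
  exact ⟨f, ⟨X, hl.sub hX, h7, hf, by
    obtain ⟨j, hj, hji⟩ := h9
    exact ⟨j, hl.sub hj, hji⟩⟩, h11⟩

/-- Countable families of conditions are hereditarily countable. -/
theorem RS.hct_c {c : ZFSet.{0}} (hc : c ∈ N) (hcs : c ⊆ ZFSet.prod oo (Pd (Pr N κ D)))
    (hci : Inj N c ZFSet.omega) : HCt N c := by
  have hN := R.zf
  have hZ := R.zfc
  have hfin : ∀ {W s : ZFSet.{0}}, W ∈ N → s ∈ FS W → (∀ x ∈ W, HCt N x) → HCt N s := by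
    intro W s hW hs hx
    have hsN : s ∈ N := hN.trans _ (FS_mem hN hW) _ hs
    refine HCt.of_ctb hZ hsN (fun y hy => hx y ((mem_FS.1 hs).1 hy)) ?_
    obtain ⟨m, hm, hi⟩ := Fi_of_mem_FS hN hW hs
    have hmN := hN.trans _ hN.infinity _ hm
    exact Inj.trans hN hsN hN.infinity hi (Inj.of_subset hN hmN hN.infinity
      (isOrdinal_omega.subset_of_mem hm))
  have hoo := oo_mem hN
  have hooe : ∀ x ∈ oo, HCt N x := fun x hx => HCt.elem (hCt_oo hN) hx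
  refine HCt.of_ctb hZ hc (fun u hu => ?_) hci
  obtain ⟨q, hq, p, hp, rfl⟩ := ZFSet.mem_prod.1 (hcs hu)
  obtain ⟨E, s, F, rfl, hE, hs, hF⟩ := mem_Pd.1 hp
  refine HCt.pair hN (hooe q hq) (HCt.pair hN (hfin hoo hE hooe) (HCt.pair hN
    (hfin hoo (FS_sub hE hs) hooe) (hfin R.Pr_mem hF fun x hx => ?_)))
  obtain ⟨r, hr, q', hq', rfl⟩ := ZFSet.mem_prod.1 (ZFSet.mem_sep.1 hx).1
  exact HCt.pair hN (hct_pw hN hr) (hooe q' hq')

/-- The failure of uniformization. -/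
theorem RS.no_unif {φ : Fm 2 0} (hφ : IsCn φ) :
    NoUnif N (Id N (Pd (Pr N κ D)) (Ld g) (Od g)) φ := by
  have hN := R.zf
  have hB := hN.base
  have T := R.tp
  have hPrj : ∀ x y, x ∈ PW N → y ∈ PW N →
      (Prj N (m := 0) (.neg φ) Fin.elim0 x y ↔ ¬ Cn N x y) := by
    intro x y hx hy
    constructor
    · rintro ⟨x', y', rfl, rfl, h⟩ hcn
      exact h ((hφ N R.zfc (Fin.cons x' (Fin.cons y' Fin.elim0))).1 hcn)
    · intro h
      obtain ⟨x', hx', rfl⟩ := (rW N hN).2 x hx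
      obtain ⟨y', hy', rfl⟩ := (rW N hN).2 y hy
      exact ⟨⟨x', hx'⟩, ⟨y', hy'⟩, rfl, rfl, fun h' =>
        h ((hφ N R.zfc (Fin.cons ⟨x', hx'⟩ (Fin.cons ⟨y', hy'⟩ Fin.elim0))).2 h')⟩
  refine ⟨fun z hz => ?_, fun B f hBB hBI hf => ?_⟩
  · obtain ⟨y, hy, hyn⟩ := R.total hz
    exact ⟨y, (hPrj z y hz hy).2 hyn⟩
  · by_contra hcon
    push Not at hcon
    have hfR : ∀ x y, pair x y ∈ f → Prj N (m := 0) (.neg φ) Fin.elim0 x y := hcon
    have hBP := (IsBorel.mem_sub hN hBB).2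
    have hBm : ¬ Mgr N (Pd (Pr N κ D)) (Ld g) (Od g) B := fun h => hBI (T.mem_Id.2 ⟨hBB, h⟩)
    obtain ⟨p, hp, E₃, hE₃, hE₃c, h3⟩ := (T.not_mgr_iff hBB).1 hBm
    obtain ⟨c, hc, hcs, hci, E₁, hE₁, hE₁c, h1⟩ := T.borel_fun hBB hf
    obtain ⟨C, hC, hCc⟩ := HCg.exists_code hN (R.hct_c hc hcs hci)
    obtain ⟨α₀, hα₀, hCα⟩ := R.all C hC
    obtain ⟨E₂, hE₂, hE₂c, h2⟩ := R.good hα₀
    obtain ⟨z, hz, hpz, hg⟩ := T.baire p hp (E₁ ∪ (E₂ ∪ E₃))
      (hN.union_mem hE₁ (hN.union_mem hE₂ hE₃))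
      (T.cf_union hE₁ (hN.union_mem hE₂ hE₃) hE₁c (T.cf_union hE₂ hE₃ hE₂c hE₃c))
    have hg1 : Gn (Od g) E₁ z := fun D hD => hg D (ZFSet.mem_union.2 (Or.inl hD))
    have hg2 : Gn (Od g) E₂ z := fun D hD => hg D (ZFSet.mem_union.2 (Or.inr
      (ZFSet.mem_union.2 (Or.inl hD))))
    have hg3 : Gn (Od g) E₃ z := fun D hD => hg D (ZFSet.mem_union.2 (Or.inr
      (ZFSet.mem_union.2 (Or.inr hD))))
    have hzB := h3 z hz hg3 hpz
    obtain ⟨y, hy, hzy⟩ := fun_exists hf.2.1 hzB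
    have hncn := (hPrj z y hz hy).1 (hfR z y hzy)
    have hyo := (mem_PW.1 hy).2
    refine hncn (cn_of_mem hN hz ?_ hyo)
    -- the value is constructible from `z`
    have hl : Lcf N z := (cs_oo hN hz).lcf hN
    have hWz := hl.zf
    have hdec := R.decode hz hα₀ (h2 z hz hg2)
    have hCW : C ∈ LC N z := hl.trans hN hdec hCα
    have hcW : c ∈ LC N z :=
      HCt.mem_M hWz (HCg.cod_hct hWz hCW (mem_PW.1 hC).2 hCc)
    have hgW : Gp (LC N z) g := ⟨LC_empty_sub hN hl R.g_mem, R.g_inj⟩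
    have hyeq : y = ZFSet.sep (fun q => ∃ u ∈ c, fs u = q ∧ Od g (sn u) z) oo := by
      ext q
      rw [ZFSet.mem_sep]
      constructor
      · intro hq
        have hqo := hyo hq
        obtain ⟨p', hp', hpz'⟩ := (h1 z y hzy hg1 q hqo).1 hq
        exact ⟨hqo, _, hp', by rw [fs_pair], by rwa [sn_pair]⟩
      · rintro ⟨hqo, u, hu, huq, huz⟩
        refine (h1 z y hzy hg1 q hqo).2 ⟨sn u, ?_, huz⟩
        obtain ⟨q', hq', p', hp', rfl⟩ := ZFSet.mem_prod.1 (hcs hu)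
        rw [fs_pair] at huq
        subst huq
        rwa [sn_pair]
    rw [hyeq]
    refine hWz.sep_mem (Q := fun q => ∃ u ∈ c, fs u = q ∧ Od g (sn u) z) ?_ (oo_mem hWz)
    apply hWz.base.bex (DfnF.const hcW)
    exact (Dfn.eq (hWz.fs' (DfnF.proj 0)) (DfnF.proj 1)).and
      (dfn_Od hWz hgW (hWz.sn' (DfnF.proj 0)) (DfnF.const hl.mem))

end

/-- The failure of projective uniformization. -/
theorem not_projUnif {N : Set ZFSet.{0}} (hN : IsZF N) {I : ZFSet.{0}} (hI : PW N ∉ I)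
    (hem : ∅ ∈ I) {φ : Fm 2 0} (h : NoUnif N I φ) : ¬ ProjUnif N I := by
  intro hU
  obtain ⟨B, hBB, hBI, -, hcase⟩ := hU 0 (.neg φ) Fin.elim0 (PW N) (IsBorel.univ hN) hI
  rcases hcase with hcase | ⟨-, f, hf, hfR⟩
  · obtain ⟨z, hz⟩ : ∃ z, z ∈ B := by
      by_contra hcon
      push Not at hcon
      rw [(ZFSet.eq_empty B).2 hcon] at hBI
      exact hBI hem
    obtain ⟨y, hy⟩ := h.1 z ((IsBorel.mem_sub hN hBB).2 hz)
    exact hcase z hz y hy
  · obtain ⟨x, y, hxy, hn⟩ := h.2 B f hBB hBI hf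
    exact hn (hfR x y hxy)

end Pool.Agent.H660.SU
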