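import Pool.Graph.R_pool_sql_team_seeded_620a6dc7.H637_NO.HC2
import Pool.Graph.R_pool_sql_team_seeded_620a6dc7.H637_NO.HCg
import Pool.Graph.R_pool_sql_team_seeded_620a6dc7.H637_NO.DF
import Pool.Graph.R_seed8.Y588.Gen

/-!
# The constructible hierarchy as a function of two variables, and the classes `L(A)`
-/

set_option autoImplicit false
set_option linter.unreachableTactic false
set_option linter.unusedTactic false
set_option linter.unusedSectionVars false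

namespace Pool.Agent.H660.SU

open Pool.Agent.W868 Pool.Agent.W868.GM Pool.Agent.Y588 Pool.Agent.H637_NO
open ZFSet (pair)

section

variable {M : Set ZFSet.{0}} (hM : IsZF M)

include hM

theorem dfn_stepN2 (k : ℕ) : DfnF M M fun w : Fin 2 → ZFSet.{0} => stepN (w 0) (w 1) k := by
  have hB := hM.base
  induction k with
  | zero => exact DfnF.proj 1
  | succ k ih =>
    refine hB.union' ih ?_
    have h1 : DfnF M M fun w : Fin 2 → ZFSet.{0} => (insert (w 1) (w 1) : ZFSet.{0}) :=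
      hB.insert' (DfnF.proj 1) (DfnF.proj 1)
    refine hM.im' (h := fun p w => ZFSet.sep (fun u => GR (w 0) k u (fs p) (sn p)) (w 1))
      (hM.prod' h1 h1) ?_
    refine hM.sep' (Q := fun u w => GR (w 1) k u (fs (w 0)) (sn (w 0))) (DfnF.proj 2) ?_
    exact Dfn.comp4 (Q := fun a b c d => GR a k b c d) ((d0_GR k).dfn hM.trans) (DfnF.proj 2)
      (DfnF.proj 0) (hM.fs' (DfnF.proj 1)) (hM.sn' (DfnF.proj 1))

theorem dfn_step2 : DfnF M M fun w : Fin 2 → ZFSet.{0} => step (w 0) (w 1) := dfn_stepN2 hM 11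

omit hM in
/-- The predecessors in the recursion for the hierarchy. -/
noncomputable def lpr (u : ZFSet.{0}) : ZFSet.{0} := im (fun ξ => pair (fs u) ξ) (sn u)

omit hM in
theorem mem_lpr {u v : ZFSet.{0}} : v ∈ lpr u ↔ ∃ ξ ∈ sn u, v = pair (fs u) ξ := mem_im

omit hM in
theorem lpr_wf : WellFounded fun v u : ZFSet.{0} => v ∈ lpr u := by
  refine Subrelation.wf (r := InvImage (fun a b : ZFSet.{0} => a ∈ b) sn) ?_
    (InvImage.wf sn ZFSet.mem_wf)
  intro v u h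
  obtain ⟨ξ, hξ, rfl⟩ := mem_lpr.1 h
  show sn (pair (fs u) ξ) ∈ sn u
  rwa [sn_pair]

theorem dfn_Lv2 : DfnF M M fun w : Fin 2 → ZFSet.{0} => Lv (w 0) (w 1) := by
  have hB := hM.base
  have h : DfnF M M fun w : Fin 1 → ZFSet.{0} => Lv (fs (w 0)) (sn (w 0)) := by
    refine hM.wfrec (F := fun u => Lv (fs u) (sn u)) (pr := lpr)
      (G := fun u g => ZFSet.sUnion (im (fun p => step (fs u) (sn p)) g)) lpr_wf ?_ ?_ ?_
    · exact hM.im' (h := fun ξ w => pair (fs (w 0)) ξ) (hM.sn' (DfnF.proj 0))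
        (hB.pair' (hM.fs' (DfnF.proj 1)) (DfnF.proj 0))
    · refine hB.sUnion' (hM.im' (h := fun p w => step (fs (w 0)) (sn p)) (DfnF.proj 1) ?_)
      exact DfnF.comp2 (f := step) (dfn_step2 hM) (hM.fs' (DfnF.proj 1)) (hM.sn' (DfnF.proj 0))
    · intro z
      ext y
      rw [mem_Lv, ZFSet.mem_sUnion]
      constructor
      · rintro ⟨u, hu, hy⟩
        exact ⟨_, mem_im.2 ⟨_, mem_gr.2 ⟨_, mem_lpr.2 ⟨u, hu, rfl⟩, rfl⟩, rfl⟩, by
          rwa [sn_pair, fs_pair, sn_pair]⟩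
      · rintro ⟨w, hw, hy⟩
        obtain ⟨p, hp, rfl⟩ := mem_im.1 hw
        obtain ⟨v, hv, rfl⟩ := mem_gr.1 hp
        obtain ⟨ξ, hξ, rfl⟩ := mem_lpr.1 hv
        rw [sn_pair, fs_pair, sn_pair] at hy
        exact ⟨ξ, hξ, hy⟩
  have h1 := DfnF.comp1 (f := fun u => Lv (fs u) (sn u)) h
    (hB.pair' (DfnF.proj (0 : Fin 2)) (DfnF.proj 1))
  simpa only [fs_pair, sn_pair] using h1

/-- Membership in `L(A)`, as a relation of two variables. -/
theorem dfn_memLC {n : ℕ} {F G : (Fin n → ZFSet.{0}) → ZFSet.{0}} (hF : DfnF M M F)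
    (hG : DfnF M M G) : Dfn M M fun v => F v ∈ LC M (G v) := by
  have hB := hM.base
  have h : Dfn M M fun w : Fin 2 → ZFSet.{0} => ∃ ξ ∈ M, ξ.IsOrdinal ∧ w 0 ∈ Lv (w 1) ξ := by
    apply Dfn.ex
    refine (hB.isOrdinal' (DfnF.proj 0)).and (Dfn.mem (DfnF.proj 1) ?_)
    exact DfnF.comp2 (f := Lv) (dfn_Lv2 hM) (DfnF.proj 2) (DfnF.proj 0)
  exact Dfn.comp2 (Q := fun x A => x ∈ LC M A) h hF hG

/-- A subclass with the same ordinals computes the same constructible classes. -/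
theorem LC_sub_of {W : Set ZFSet.{0}} (hW : IsZF W) (hord : ∀ x ∈ M, x.IsOrdinal → x ∈ W)
    {A : ZFSet.{0}} (hA : A ∈ W) : LC M A ⊆ W := by
  rintro x ⟨ξ, h1, h2, h3⟩
  exact hW.trans _ (Lv_mem_M hW hA (hord ξ h1 h2)) _ h3

omit hM in
theorem LC_congr {W M : Set ZFSet.{0}} (hWM : W ⊆ M) (hord : ∀ x ∈ M, x.IsOrdinal → x ∈ W)
    {A : ZFSet.{0}} : LC W A = LC M A := by
  ext x
  constructor
  · rintro ⟨ξ, h1, h2, h3⟩
    exact ⟨ξ, hWM h1, h2, h3⟩
  · rintro ⟨ξ, h1, h2, h3⟩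
    exact ⟨ξ, hord ξ h1 h2, h2, h3⟩

end

/-- `A` is a set of constructible sets. -/
def Cs (M : Set ZFSet.{0}) (A : ZFSet.{0}) : Prop :=
  A ∈ M ∧ ∃ δ ∈ M, δ.IsOrdinal ∧ A ⊆ Lv ∅ δ

/-- The bundle of facts about the class `L(A)` of `M`. -/
structure Lcf (M : Set ZFSet.{0}) (A : ZFSet.{0}) : Prop where
  la : IsLA A (LC M A)
  sub : LC M A ⊆ M
  ord : ∀ x ∈ M, x.IsOrdinal → x ∈ LC M A

theorem Lcf.zf {M : Set ZFSet.{0}} {A : ZFSet.{0}} (h : Lcf M A) : IsZF (LC M A) := h.la.zf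

theorem Lcf.zfc {M : Set ZFSet.{0}} {A : ZFSet.{0}} (h : Lcf M A) : IsZFC (LC M A) :=
  isZFC_of_gc h.la.zf h.la.gc

theorem Lcf.mem {M : Set ZFSet.{0}} {A : ZFSet.{0}} (h : Lcf M A) : A ∈ LC M A := h.la.mem

theorem Cs.lcf {M : Set ZFSet.{0}} (hM : IsZF M) {A : ZFSet.{0}} (h : Cs M A) : Lcf M A := by
  obtain ⟨hA, δ, hδ, hδo, h1⟩ := h
  have hZ := isZF_LC hM hA
  have hord : ∀ x ∈ M, x.IsOrdinal → x ∈ LC M A := fun x hx hxo => ord_LC hM hA hx hxo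
  have h2 : Lv ∅ δ ∈ LC M A := Lv_mem_M hZ hZ.empty_mem (hord δ hδ hδo)
  obtain ⟨η, hη, hηo, h3⟩ := h2
  have h4 : A ⊆ Lv A η := fun x hx => Lv_trans _ _ h3 _ (h1 hx)
  exact ⟨isLA_LC hM hA hη hηo h4, LC_subset hM hA, hord⟩

/-- The rule that the constructible class of an element is contained in the class. -/
theorem Lcf.trans {M : Set ZFSet.{0}} (hM : IsZF M) {A B : ZFSet.{0}} (h : Lcf M A)
    (hB : B ∈ LC M A) : LC M B ⊆ LC M A := LC_sub_of hM h.zf h.ord hB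

end Pool.Agent.H660.SU
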