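import Pool.Agent.H660.SU.Def
import Pool.Agent.H660.SU.LvA
import Pool.Graph.R_pool_sql_team_seeded_620a6dc7.H637_NO.Q0
import Pool.Graph.R_pool_sql_team_seeded_620a6dc7.H637_NO.C3b
import Pool.Graph.R_seed8.Y588.Pf

/-!
# Borel sets in a model
-/

set_option autoImplicit false
set_option linter.unreachableTactic false
set_option linter.unusedTactic false
set_option linter.unusedSectionVars false

namespace Pool.Agent.H660.SU

open Pool.Agent.W868 Pool.Agent.W868.GM Pool.Agent.Y588 Pool.Agent.H637_NO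
open ZFSet (pair)

section

variable {N : Set ZFSet.{0}} (hN : IsZF N)

include hN

theorem dfn_diff {n : ℕ} {F G : (Fin n → ZFSet.{0}) → ZFSet.{0}} (hF : DfnF N N F)
    (hG : DfnF N N G) : DfnF N N fun v => F v \ G v := by
  refine (hN.sep' (Q := fun x v => ¬ x ∈ G v) hF (Dfn.mem (DfnF.proj 0) hG.tail).not).congr
    fun v _ => ?_
  ext x
  rw [ZFSet.mem_sep, ZFSet.mem_sdiff]

theorem dfn_isSigmaAlg : Dfn N N fun w : Fin 1 → ZFSet.{0} => IsSigmaAlg N (w 0) := by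
  have hB := hN.base
  have hP := PW_mem hN
  have hω := hN.infinity
  have ho := oo_mem hN
  unfold IsSigmaAlg
  apply Dfn.and
  · apply hB.ball (DfnF.proj 0)
    exact hB.subset' (DfnF.proj 0) (DfnF.const hP)
  apply Dfn.and
  · apply hB.ball (DfnF.const ho)
    refine Dfn.mem ?_ (DfnF.proj 1)
    exact hN.sep' (Q := fun z w => w 0 ∈ z) (DfnF.const hP) (Dfn.mem (DfnF.proj 1) (DfnF.proj 0))
  apply Dfn.and
  · apply hB.ball (DfnF.proj 0)
    exact Dfn.mem (dfn_diff hN (DfnF.const hP) (DfnF.proj 0)) (DfnF.proj 1)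
  · apply Dfn.all
    apply Dfn.imp (hB.subset' (DfnF.proj 0) (DfnF.proj 1))
    apply Dfn.imp
    · exact dfn_Inj hN (DfnF.proj 0) (DfnF.const hω)
    · exact Dfn.mem (hB.sUnion' (DfnF.proj 0)) (DfnF.proj 1)

theorem dfn_isBorel {n : ℕ} {F : (Fin n → ZFSet.{0}) → ZFSet.{0}} (hF : DfnF N N F) :
    Dfn N N fun v => IsBorel N (F v) := by
  have h : Dfn N N fun w : Fin 1 → ZFSet.{0} => IsBorel N (w 0) := by
    unfold IsBorel
    apply Dfn.all
    apply Dfn.imp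
    · exact Dfn.comp1 (Q := fun S => IsSigmaAlg N S) (dfn_isSigmaAlg hN) (DfnF.proj 0)
    · exact Dfn.mem (DfnF.proj 1) (DfnF.proj 0)
  exact Dfn.comp1 (Q := fun B => IsBorel N B) h hF

/-- The power set of the Cantor space is a sigma-algebra. -/
theorem isSigmaAlg_pw : IsSigmaAlg N (pwM N (PW N)) := by
  have hP := PW_mem hN
  have hB := hN.base
  refine ⟨fun B hB => (mem_pwM.1 hB).2, fun q hq => ?_, fun B hB => ?_, fun W hW hs _ => ?_⟩
  · refine mem_pwM.2 ⟨hN.sep_mem (Q := fun z => q ∈ z) ?_ hP, fun z hz => (ZFSet.mem_sep.1 hz).1⟩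
    exact Dfn.mem (DfnF.const (hN.trans _ (oo_mem hN) _ hq)) (DfnF.proj 0)
  · refine mem_pwM.2 ⟨?_, fun z hz => (ZFSet.mem_sdiff.1 hz).1⟩
    exact (dfn_diff hN (DfnF.const hP) (DfnF.const (mem_pwM.1 hB).1)).1 Fin.elim0 fun i => i.elim0
  · refine mem_pwM.2 ⟨hN.union _ hW, fun z hz => ?_⟩
    obtain ⟨B, hB, hz⟩ := ZFSet.mem_sUnion.1 hz
    exact (mem_pwM.1 (hs hB)).2 hz

theorem IsBorel.mem_sub {B : ZFSet.{0}} (h : IsBorel N B) : B ∈ N ∧ B ⊆ PW N :=
  mem_pwM.1 (h _ (pwM_mem hN (PW_mem hN)) (isSigmaAlg_pw hN))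

theorem IsBorel.compl {B : ZFSet.{0}} (h : IsBorel N B) : IsBorel N (PW N \ B) :=
  fun S hS hA => hA.2.2.1 _ (h S hS hA)

theorem IsBorel.basic {q : ZFSet.{0}} (hq : q ∈ oo) :
    IsBorel N (ZFSet.sep (fun z => q ∈ z) (PW N)) := fun _ _ hA => hA.2.1 q hq

theorem IsBorel.sUnion {W : ZFSet.{0}} (hW : W ∈ N) (hc : Inj N W ZFSet.omega)
    (h : ∀ B ∈ W, IsBorel N B) : IsBorel N (ZFSet.sUnion W : ZFSet.{0}) :=
  fun S hS hA => hA.2.2.2 W hW (fun B hB => h B hB S hS hA) hc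

theorem IsBorel.empty : IsBorel N ∅ := by
  have h := IsBorel.sUnion hN (W := ∅) hN.empty_mem
    (Inj.of_subset hN hN.empty_mem hN.infinity (ZFSet.empty_subset _))
    fun B hB => absurd hB (ZFSet.notMem_empty _)
  rwa [ZFSet.sUnion_empty] at h

theorem IsBorel.univ : IsBorel N (PW N) := by
  have h := IsBorel.compl hN (IsBorel.empty hN)
  have h1 : PW N \ ∅ = PW N := by
    ext z
    rw [ZFSet.mem_sdiff]
    exact ⟨fun h => h.1, fun h => ⟨h, ZFSet.notMem_empty _⟩⟩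
  rwa [h1] at h

theorem IsBorel.union {B C : ZFSet.{0}} (h : IsBorel N B) (h' : IsBorel N C) :
    IsBorel N (B ∪ C) := by
  have h1 := IsBorel.sUnion hN (W := {B, C})
    (hN.pairing _ (IsBorel.mem_sub hN h).1 _ (IsBorel.mem_sub hN h').1)
    (upair_countable hN (IsBorel.mem_sub hN h).1 (IsBorel.mem_sub hN h').1) (by
      intro D hD
      rcases ZFSet.mem_pair.1 hD with rfl | rfl
      · exact h
      · exact h')
  rwa [ZFSet.sUnion_pair] at h1

theorem IsBorel.inter {B C : ZFSet.{0}} (h : IsBorel N B) (h' : IsBorel N C) :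
    IsBorel N (B ∩ C) := by
  have h1 := IsBorel.compl hN (IsBorel.union hN (IsBorel.compl hN h) (IsBorel.compl hN h'))
  have h2 : PW N \ (PW N \ B ∪ PW N \ C) = B ∩ C := by
    ext z
    rw [ZFSet.mem_sdiff, ZFSet.mem_union, ZFSet.mem_sdiff, ZFSet.mem_sdiff, ZFSet.mem_inter]
    constructor
    · rintro ⟨h3, h4⟩
      by_contra h5
      apply h4
      by_cases h6 : z ∈ B
      · exact Or.inr ⟨h3, fun h7 => h5 ⟨h6, h7⟩⟩
      · exact Or.inl ⟨h3, h6⟩
    · rintro ⟨h3, h4⟩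
      exact ⟨(IsBorel.mem_sub hN h).2 h3, fun h5 => h5.elim (fun h6 => h6.2 h3)
        fun h6 => h6.2 h4⟩
  rwa [h2] at h1

theorem IsBorel.diff {B C : ZFSet.{0}} (h : IsBorel N B) (h' : IsBorel N C) :
    IsBorel N (B \ C) := by
  have h1 := IsBorel.inter hN h (IsBorel.compl hN h')
  have h2 : B ∩ (PW N \ C) = B \ C := by
    ext z
    rw [ZFSet.mem_inter, ZFSet.mem_sdiff, ZFSet.mem_sdiff]
    exact ⟨fun h => ⟨h.1, h.2.2⟩, fun h3 => ⟨h3.1, (IsBorel.mem_sub hN h).2 h3.1, h3.2⟩⟩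
  rwa [h2] at h1

theorem oo_countable : Inj N oo ZFSet.omega := inj_omega_sq hN

theorem IsBorel.single {z : ZFSet.{0}} (hz : z ∈ PW N) : IsBorel N {z} := by
  have hP := PW_mem hN
  have ho := oo_mem hN
  have hzN := (mem_PW.1 hz).1
  set h : ZFSet.{0} → ZFSet.{0} := fun q => ZFSet.sep (fun y => ¬ (q ∈ y ↔ q ∈ z)) (PW N) with hh
  have hd : DfnF N N fun w : Fin 1 → ZFSet.{0} => h (w 0) := by
    refine hN.sep' (Q := fun y w => ¬ (w 0 ∈ y ↔ w 0 ∈ z)) (DfnF.const hP) ?_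
    exact ((Dfn.mem (DfnF.proj 1) (DfnF.proj 0)).iff
      (Dfn.mem (DfnF.proj 1) (DfnF.const hzN))).not
  have h1 : IsBorel N (ZFSet.sUnion (im h oo) : ZFSet.{0}) := by
    refine IsBorel.sUnion hN (hN.im_mem ho hd)
      (Inj.image hN ho hN.infinity isOrdinal_omega (oo_countable hN) hd) ?_
    intro B hB
    obtain ⟨q, hq, rfl⟩ := mem_im.1 hB
    by_cases hqz : q ∈ z
    · have h2 : h q = PW N \ ZFSet.sep (fun y => q ∈ y) (PW N) := by
        ext y
        rw [hh, ZFSet.mem_sep, ZFSet.mem_sdiff, ZFSet.mem_sep]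
        constructor
        · rintro ⟨h3, h4⟩
          exact ⟨h3, fun h5 => h4 ⟨fun _ => hqz, fun _ => h5.2⟩⟩
        · rintro ⟨h3, h4⟩
          exact ⟨h3, fun h5 => h4 ⟨h3, h5.2 hqz⟩⟩
      rw [h2]
      exact IsBorel.compl hN (IsBorel.basic hN hq)
    · have h2 : h q = ZFSet.sep (fun y => q ∈ y) (PW N) := by
        ext y
        rw [hh, ZFSet.mem_sep, ZFSet.mem_sep]
        constructor
        · rintro ⟨h3, h4⟩
          refine ⟨h3, ?_⟩
          by_contra h5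
          exact h4 ⟨fun h6 => absurd h6 h5, fun h6 => absurd h6 hqz⟩
        · rintro ⟨h3, h4⟩
          exact ⟨h3, fun h5 => hqz (h5.1 h4)⟩
      rw [h2]
      exact IsBorel.basic hN hq
  have h2 := IsBorel.compl hN h1
  have h3 : PW N \ (ZFSet.sUnion (im h oo) : ZFSet.{0}) = {z} := by
    ext y
    rw [ZFSet.mem_sdiff, ZFSet.mem_singleton, ZFSet.mem_sUnion]
    constructor
    · rintro ⟨h4, h5⟩
      ext q
      have hqo : ∀ {q : ZFSet.{0}}, q ∈ y ∨ q ∈ z → q ∈ oo := by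
        rintro q (h6 | h6)
        · exact (mem_PW.1 h4).2 h6
        · exact (mem_PW.1 hz).2 h6
      by_contra h6
      apply h5
      refine ⟨_, mem_im.2 ⟨q, hqo ?_, rfl⟩, ZFSet.mem_sep.2 ⟨h4, h6⟩⟩
      tauto
    · rintro rfl
      refine ⟨hz, ?_⟩
      rintro ⟨B, hB, h4⟩
      obtain ⟨q, hq, rfl⟩ := mem_im.1 hB
      exact (ZFSet.mem_sep.1 h4).2 Iff.rfl
  rwa [h3] at h2

end

end Pool.Agent.H660.SU
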