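import Pool.Agent.H660.SU.Nod

/-!
# The Levy collapse: basic facts
-/

set_option autoImplicit false
set_option linter.unreachableTactic false
set_option linter.unusedTactic false
set_option linter.unusedSectionVars false

namespace Pool.Agent.H660.SU

open Pool.Agent.W868 Pool.Agent.W868.GM Pool.Agent.Y588 Pool.Agent.H637_NO
open ZFSet (pair)

/-- The set of the possible elements of conditions. -/
noncomputable def Wk (κ : ZFSet.{0}) : ZFSet.{0} :=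
  ZFSet.sep (fun u => sn u ∈ fs (fs u)) (ZFSet.prod (ZFSet.prod κ ZFSet.omega) κ)

theorem mem_Wk {κ : ZFSet.{0}} (hκ : κ.IsOrdinal) {u : ZFSet.{0}} : u ∈ Wk κ ↔
    ∃ α ∈ κ, ∃ n ∈ ZFSet.omega, ∃ ξ ∈ α, u = pair (pair α n) ξ := by
  unfold Wk
  rw [ZFSet.mem_sep]
  constructor
  · rintro ⟨h1, h2⟩
    obtain ⟨v, hv, ξ, -, rfl⟩ := ZFSet.mem_prod.1 h1
    obtain ⟨α, hα, n, hn, rfl⟩ := ZFSet.mem_prod.1 hv
    rw [sn_pair, fs_pair, fs_pair] at h2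
    exact ⟨α, hα, n, hn, ξ, h2, rfl⟩
  · rintro ⟨α, hα, n, hn, ξ, hξ, rfl⟩
    rw [sn_pair, fs_pair, fs_pair]
    exact ⟨ZFSet.pair_mem_prod.2 ⟨ZFSet.pair_mem_prod.2 ⟨hα, hn⟩, hκ.mem_trans hξ hα⟩, hξ⟩

theorem mem_Col {κ : ZFSet.{0}} (hκ : κ.IsOrdinal) {p : ZFSet.{0}} : p ∈ Col κ ↔
    {u : ZFSet.{0} | u ∈ p}.Finite ∧ p ⊆ Wk κ ∧ Y588.Fu p := by
  unfold Col
  rw [ZFSet.mem_sep, ZFSet.mem_powerset]
  constructor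
  · rintro ⟨-, h1, h2, h3⟩
    exact ⟨h1, fun u hu => (mem_Wk hκ).2 (h2 u hu), h3⟩
  · rintro ⟨h1, h2, h3⟩
    exact ⟨fun u hu => (ZFSet.mem_sep.1 (h2 hu)).1, h1, fun u hu => (mem_Wk hκ).1 (h2 hu), h3⟩

theorem col_eq {κ : ZFSet.{0}} (hκ : κ.IsOrdinal) :
    Col κ = ZFSet.sep (fun p => Y588.Fu p) (FS (Wk κ)) := by
  ext p
  rw [mem_Col hκ, ZFSet.mem_sep, mem_FS]
  tauto

theorem mem_ColLe {κ p q : ZFSet.{0}} : pair p q ∈ ColLe κ ↔ p ∈ Col κ ∧ q ∈ Col κ ∧ q ⊆ p := by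
  unfold ColLe
  rw [ZFSet.mem_sep, ZFSet.pair_mem_prod]
  constructor
  · rintro ⟨⟨h1, h2⟩, p', q', h3, h4⟩
    obtain ⟨rfl, rfl⟩ := ZFSet.pair_inj.1 h3
    exact ⟨h1, h2, h4⟩
  · rintro ⟨h1, h2, h3⟩
    exact ⟨⟨h1, h2⟩, p, q, rfl, h3⟩

theorem empty_mem_Col {κ : ZFSet.{0}} (hκ : κ.IsOrdinal) : ∅ ∈ Col κ := by
  refine (mem_Col hκ).2 ⟨(mem_FS.1 (FS_empty (W := ∅))).2, ZFSet.empty_subset _, ?_⟩
  intro a b c h
  exact absurd h (ZFSet.notMem_empty _)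

section

variable {M : Set ZFSet.{0}} (hM : IsZF M)

include hM

theorem Wk_mem {κ : ZFSet.{0}} (hκ : κ ∈ M) : Wk κ ∈ M := by
  refine hM.sep_mem (Q := fun u => sn u ∈ fs (fs u)) ?_
    (hM.prod_mem (hM.prod_mem hκ hM.infinity) hκ)
  exact Dfn.mem (hM.sn' (DfnF.proj 0)) (hM.fs' (hM.fs' (DfnF.proj 0)))

theorem Col_mem {κ : ZFSet.{0}} (hκ : κ ∈ M) (hκo : κ.IsOrdinal) : Col κ ∈ M := by
  rw [col_eq hκo]
  exact hM.sep_mem (Q := fun p => Y588.Fu p) (dfn_fu hM (DfnF.proj 0)) (FS_mem hM (Wk_mem hM hκ))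

theorem ColLe_mem {κ : ZFSet.{0}} (hκ : κ ∈ M) (hκo : κ.IsOrdinal) : ColLe κ ∈ M := by
  have hC := Col_mem hM hκ hκo
  have h1 : ZFSet.sep (fun u => sn u ⊆ fs u) (ZFSet.prod (Col κ) (Col κ)) ∈ M :=
    hM.sep_mem (Q := fun u => sn u ⊆ fs u) (hM.base.subset' (hM.sn' (DfnF.proj 0))
      (hM.fs' (DfnF.proj 0))) (hM.prod_mem hC hC)
  have h2 : ZFSet.sep (fun u => sn u ⊆ fs u) (ZFSet.prod (Col κ) (Col κ)) = ColLe κ := by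
    ext u
    constructor
    · intro hu
      obtain ⟨h3, h4⟩ := ZFSet.mem_sep.1 hu
      obtain ⟨p, hp, q, hq, rfl⟩ := ZFSet.mem_prod.1 h3
      rw [fs_pair, sn_pair] at h4
      exact mem_ColLe.2 ⟨hp, hq, h4⟩
    · intro hu
      obtain ⟨h3, p, q, rfl, h4⟩ := ZFSet.mem_sep.1 hu
      refine ZFSet.mem_sep.2 ⟨h3, ?_⟩
      rwa [fs_pair, sn_pair]
  rwa [h2] at h1

theorem isForcing_Col {κ : ZFSet.{0}} (hκ : κ ∈ M) (hκo : κ.IsOrdinal) :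
    IsForcing M (Col κ) (ColLe κ) := by
  refine ⟨Col_mem hM hκ hκo, ColLe_mem hM hκ hκo, fun p hp => mem_ColLe.2 ⟨hp, hp, fun _ h => h⟩,
    fun p _ q _ r _ h1 h2 => ?_, ∅, empty_mem_Col hκo, fun p hp =>
      mem_ColLe.2 ⟨hp, empty_mem_Col hκo, ZFSet.empty_subset _⟩⟩
  obtain ⟨h3, h4, h5⟩ := mem_ColLe.1 h1
  obtain ⟨h6, h7, h8⟩ := mem_ColLe.1 h2
  exact mem_ColLe.2 ⟨h3, h7, fun x hx => h5 (h8 hx)⟩

end

/-! ### Restrictions -/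

/-- The restriction of a condition. -/
noncomputable def rst (β p : ZFSet.{0}) : ZFSet.{0} := ZFSet.sep (fun u => fs (fs u) ∈ β) p

/-- The conditions in `P` that are conditions for `β`. -/
noncomputable def Cb (P β : ZFSet.{0}) : ZFSet.{0} :=
  ZFSet.sep (fun p => ∀ u ∈ p, fs (fs u) ∈ β) P

theorem mem_Cb {P β p : ZFSet.{0}} : p ∈ Cb P β ↔ p ∈ P ∧ ∀ u ∈ p, fs (fs u) ∈ β := ZFSet.mem_sep

theorem mem_rst {β p u : ZFSet.{0}} : u ∈ rst β p ↔ u ∈ p ∧ fs (fs u) ∈ β := ZFSet.mem_sep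

theorem rst_sub {β p : ZFSet.{0}} : rst β p ⊆ p := fun _ h => (mem_rst.1 h).1

theorem Wk_mono {β κ : ZFSet.{0}} (hβ : β.IsOrdinal) (hκ : κ.IsOrdinal) (h : β ⊆ κ) :
    Wk β ⊆ Wk κ := by
  intro u hu
  obtain ⟨α, hα, n, hn, ξ, hξ, rfl⟩ := (mem_Wk hβ).1 hu
  exact (mem_Wk hκ).2 ⟨α, h hα, n, hn, ξ, hξ, rfl⟩

theorem mem_Wk' {β κ u : ZFSet.{0}} (hβ : β.IsOrdinal) (hκ : κ.IsOrdinal) (h : β ⊆ κ) :
    u ∈ Wk β ↔ u ∈ Wk κ ∧ fs (fs u) ∈ β := by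
  constructor
  · intro hu
    refine ⟨Wk_mono hβ hκ h hu, ?_⟩
    obtain ⟨α, hα, n, hn, ξ, hξ, rfl⟩ := (mem_Wk hβ).1 hu
    rwa [fs_pair, fs_pair]
  · rintro ⟨hu, h1⟩
    obtain ⟨α, hα, n, hn, ξ, hξ, rfl⟩ := (mem_Wk hκ).1 hu
    rw [fs_pair, fs_pair] at h1
    exact (mem_Wk hβ).2 ⟨α, h1, n, hn, ξ, hξ, rfl⟩

theorem col_eq_Cb {β κ : ZFSet.{0}} (hβ : β.IsOrdinal) (hκ : κ.IsOrdinal) (h : β ⊆ κ) :
    Col β = Cb (Col κ) β := by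
  ext p
  rw [mem_Cb, mem_Col hβ, mem_Col hκ]
  constructor
  · rintro ⟨h1, h2, h3⟩
    exact ⟨⟨h1, fun u hu => ((mem_Wk' hβ hκ h).1 (h2 hu)).1, h3⟩,
      fun u hu => ((mem_Wk' hβ hκ h).1 (h2 hu)).2⟩
  · rintro ⟨⟨h1, h2, h3⟩, h4⟩
    exact ⟨h1, fun u hu => (mem_Wk' hβ hκ h).2 ⟨h2 hu, h4 u hu⟩, h3⟩

theorem col_mono {β κ : ZFSet.{0}} (hβ : β.IsOrdinal) (hκ : κ.IsOrdinal) (h : β ⊆ κ) :
    Col β ⊆ Col κ := by
  rw [col_eq_Cb hβ hκ h]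
  exact fun p hp => (mem_Cb.1 hp).1

/-- Subsets of conditions are conditions. -/
theorem col_sub {κ p q : ZFSet.{0}} (hκ : κ.IsOrdinal) (hp : p ∈ Col κ) (h : q ⊆ p) :
    q ∈ Col κ := by
  obtain ⟨h1, h2, h3⟩ := (mem_Col hκ).1 hp
  exact (mem_Col hκ).2 ⟨h1.subset fun u hu => h hu, fun u hu => h2 (h hu),
    fun a b c hb hc => h3 a b c (h hb) (h hc)⟩

theorem rst_mem {β κ p : ZFSet.{0}} (hβ : β.IsOrdinal) (hκ : κ.IsOrdinal) (h : β ⊆ κ)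
    (hp : p ∈ Col κ) : rst β p ∈ Col β := by
  rw [col_eq_Cb hβ hκ h]
  exact mem_Cb.2 ⟨col_sub hκ hp rst_sub, fun u hu => (mem_rst.1 hu).2⟩

/-- Amalgamation. -/
theorem col_amalg {β κ p d : ZFSet.{0}} (hβ : β.IsOrdinal) (hκ : κ.IsOrdinal) (h : β ⊆ κ)
    (hp : p ∈ Col κ) (hd : d ∈ Col β) (hpd : rst β p ⊆ d) : d ∪ p ∈ Col κ := by
  have hd' := col_mono hβ hκ h hd
  rw [col_eq_Cb hβ hκ h] at hd
  obtain ⟨-, h1⟩ := mem_Cb.1 hd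
  obtain ⟨h2, h3, h4⟩ := (mem_Col hκ).1 hp
  obtain ⟨h5, h6, h7⟩ := (mem_Col hκ).1 hd'
  refine (mem_Col hκ).2 ⟨?_, fun u hu => ?_, fun a b c hb hc => ?_⟩
  · refine (h5.union h2).subset fun u hu => ?_
    rcases ZFSet.mem_union.1 hu with h8 | h8
    · exact Or.inl h8
    · exact Or.inr h8
  · rcases ZFSet.mem_union.1 hu with h8 | h8
    · exact h6 h8
    · exact h3 h8
  · have key : ∀ {x y : ZFSet.{0}}, pair a x ∈ d → pair a y ∈ p → pair a y ∈ d := by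
      intro x y hx hy
      refine hpd (mem_rst.2 ⟨hy, ?_⟩)
      have := h1 _ hx
      rw [fs_pair] at this ⊢
      exact this
    rcases ZFSet.mem_union.1 hb with h8 | h8 <;> rcases ZFSet.mem_union.1 hc with h9 | h9
    · exact h7 a b c h8 h9
    · exact h7 a b c h8 (key h8 h9)
    · exact h7 a b c (key h9 h8) h9
    · exact h4 a b c h8 h9

/-- The restriction of a generic filter is generic. -/
theorem gen_rst {M : Set ZFSet.{0}} (hM : IsZF M) {β κ G : ZFSet.{0}} (hκM : κ ∈ M)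
    (hκ : κ.IsOrdinal) (hβ : β ∈ κ) (hG : IsGeneric M (Col κ) (ColLe κ) G) :
    IsGeneric M (Col β) (ColLe β) (Cb G β) := by
  have hβo := hκ.mem hβ
  have hβM := hM.trans _ hκM _ hβ
  have hβs := hκ.subset_of_mem hβ
  have hB := hM.base
  have hmem : ∀ p, p ∈ Cb G β ↔ p ∈ G ∧ p ∈ Col β := by
    intro p
    rw [mem_Cb, col_eq_Cb hβo hκ hβs, mem_Cb]
    exact ⟨fun h => ⟨h.1, hG.sub h.1, h.2⟩, fun h => ⟨h.1, h.2.2⟩⟩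
  have hup : ∀ p ∈ G, ∀ q, q ⊆ p → q ∈ G := fun p hp q hq =>
    hG.up p hp q (col_sub hκ (hG.sub hp) hq) (mem_ColLe.2 ⟨hG.sub hp,
      col_sub hκ (hG.sub hp) hq, hq⟩)
  refine ⟨fun p hp => ((hmem p).1 hp).2, ?_, ?_, ?_, ?_⟩
  · obtain ⟨p, hp⟩ := hG.nonempty
    exact ⟨rst β p, (hmem _).2 ⟨hup p hp _ rst_sub, rst_mem hβo hκ hβs (hG.sub hp)⟩⟩
  · intro q hq p hp hqp
    exact (hmem p).2 ⟨hup q ((hmem q).1 hq).1 p (mem_ColLe.1 hqp).2.2, hp⟩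
  · intro p hp q hq
    obtain ⟨hpG, hpβ⟩ := (hmem p).1 hp
    obtain ⟨hqG, hqβ⟩ := (hmem q).1 hq
    obtain ⟨r, hr, h1, h2⟩ := hG.dir p hpG q hqG
    have hrβ := rst_mem hβo hκ hβs (hG.sub hr)
    have hc : ∀ {s : ZFSet.{0}}, s ∈ Col β → s ⊆ r → s ⊆ rst β r := by
      intro s hs hsr u hu
      rw [col_eq_Cb hβo hκ hβs] at hs
      exact mem_rst.2 ⟨hsr hu, (mem_Cb.1 hs).2 u hu⟩
    exact ⟨rst β r, (hmem _).2 ⟨hup r hr _ rst_sub, hrβ⟩,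
      mem_ColLe.2 ⟨hrβ, hpβ, hc hpβ (mem_ColLe.1 h1).2.2⟩,
      mem_ColLe.2 ⟨hrβ, hqβ, hc hqβ (mem_ColLe.1 h2).2.2⟩⟩
  · intro D hD hDs hDd
    have hC := Col_mem hM hκM hκ
    set D' := ZFSet.sep (fun p => ∃ d ∈ D, d ⊆ p) (Col κ) with hD'
    have hD'M : D' ∈ M := by
      refine hM.sep_mem (Q := fun p => ∃ d ∈ D, d ⊆ p) ?_ hC
      apply hB.bex (DfnF.const hD)
      exact hB.subset' (DfnF.proj 0) (DfnF.proj 1)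
    obtain ⟨p, hp, hpG⟩ := hG.meet D' hD'M (fun x hx => (ZFSet.mem_sep.1 hx).1) (by
      intro p hp
      obtain ⟨d, hd, h1⟩ := hDd (rst β p) (rst_mem hβo hκ hβs hp)
      have h2 := (mem_ColLe.1 h1).2.2
      have h3 := col_amalg hβo hκ hβs hp (hDs hd) h2
      exact ⟨d ∪ p, ZFSet.mem_sep.2 ⟨h3, d, hd, fun u hu => ZFSet.mem_union.2 (Or.inl hu)⟩,
        mem_ColLe.2 ⟨h3, hp, fun u hu => ZFSet.mem_union.2 (Or.inr hu)⟩⟩)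
    obtain ⟨-, d, hd, h1⟩ := ZFSet.mem_sep.1 hp
    exact ⟨d, hd, (hmem d).2 ⟨hup p hpG d h1, hDs hd⟩⟩

end Pool.Agent.H660.SU
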