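import Pool.Agent.H660.SU.Col1

/-!
# Small sets and the closure lemma
-/

set_option autoImplicit false
set_option linter.unreachableTactic false
set_option linter.unusedTactic false
set_option linter.unusedSectionVars false

namespace Pool.Agent.H660.SU

open Pool.Agent.W868 Pool.Agent.W868.GM Pool.Agent.Y588 Pool.Agent.H637_NO
open ZFSet (pair)

/-- `X` is of size less than `κ`. -/
def Sm (M : Set ZFSet.{0}) (κ X : ZFSet.{0}) : Prop := ∃ μ ∈ κ, Inj M X μ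

section

variable {M : Set ZFSet.{0}} (hM : IsZF M) {κ : ZFSet.{0}} (hK : Inaccessible M κ)

include hM hK

theorem Inaccessible.mem_M {α : ZFSet.{0}} (hα : α ∈ κ) : α ∈ M := hM.trans _ hK.mem _ hα

theorem Inaccessible.suc {α : ZFSet.{0}} (hα : α ∈ κ) : sc α ∈ κ := by
  have hαM := hK.mem_M hM hα
  have hαo := hK.ord.mem hα
  obtain ⟨β, hβ, p, hp, hpm, g, hg, hgi⟩ := hK.lim α hα
  have hs : sc α ⊆ κ := by
    intro x hx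
    rcases ZFSet.mem_insert_iff.1 hx with rfl | hx
    · exact hα
    · exact hK.ord.mem_trans hx hα
  rcases ((isOrdinal_sc hαo).subset_iff_eq_or_mem hK.ord).1 hs with h | h
  · exfalso
    rw [← h] at hβ
    have h1 : β ⊆ α := by
      rcases ZFSet.mem_insert_iff.1 hβ with rfl | hβ
      · exact fun _ h => h
      · exact hαo.subset_of_mem hβ
    have hβM : β ∈ M := by
      rcases ZFSet.mem_insert_iff.1 hβ with rfl | hβ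
      · exact hαM
      · exact hM.trans _ hαM _ hβ
    exact cantor hM hαM hp hpm (Inj.trans hM hp hαM ⟨g, hg, hgi⟩
      (Inj.of_subset hM hβM hαM h1))
  · exact h

theorem Inaccessible.empty : ∅ ∈ κ := hK.ord.mem_trans ZFSet.omega_zero hK.unc

/-- Two elements are bounded. -/
theorem Inaccessible.two {α β : ZFSet.{0}} (hα : α ∈ κ) (hβ : β ∈ κ) :
    ∃ γ ∈ κ, α ⊆ γ ∧ β ⊆ γ := by
  rcases (hK.ord.mem hα).subset_total (hK.ord.mem hβ) with h | h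
  · exact ⟨β, hβ, h, fun _ h => h⟩
  · exact ⟨α, hα, fun _ h => h, h⟩

theorem Sm.omega_sub {X : ZFSet.{0}} (hX : X ∈ M) (h : Sm M κ X) :
    ∃ μ ∈ κ, ZFSet.omega ⊆ μ ∧ Inj M X μ := by
  obtain ⟨μ, hμ, h1⟩ := h
  obtain ⟨γ, hγ, h2, h3⟩ := hK.two hM hμ hK.unc
  exact ⟨γ, hγ, h3, Inj.trans hM hX (hK.mem_M hM hγ) h1
    (Inj.of_subset hM (hK.mem_M hM hμ) (hK.mem_M hM hγ) h2)⟩

theorem Sm.sub {X Y : ZFSet.{0}} (hX : X ∈ M) (hY : Y ∈ M) (h : Sm M κ X) (hs : Y ⊆ X) :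
    Sm M κ Y := by
  obtain ⟨μ, hμ, h1⟩ := h
  exact ⟨μ, hμ, inj_mono hM hY hX (hK.mem_M hM hμ) hs h1⟩

theorem Sm.of_mem {α : ZFSet.{0}} (hα : α ∈ κ) : Sm M κ α :=
  ⟨α, hα, Inj.of_subset hM (hK.mem_M hM hα) (hK.mem_M hM hα) fun _ h => h⟩

theorem Sm.prod {X Y : ZFSet.{0}} (hX : X ∈ M) (hY : Y ∈ M) (h : Sm M κ X) (h' : Sm M κ Y) :
    Sm M κ (ZFSet.prod X Y) := by
  obtain ⟨μ, hμ, h1, h2⟩ := Sm.omega_sub hM hK hX h
  obtain ⟨ν, hν, h3, h4⟩ := Sm.omega_sub hM hK hY h'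
  obtain ⟨γ, hγ, h5, h6⟩ := hK.two hM hμ hν
  have hγM := hK.mem_M hM hγ
  refine ⟨γ, hγ, Inj.trans hM (hM.prod_mem hX hY) hγM (Inj.prod hM hX hY hγM hγM
    (Inj.trans hM hX hγM h2 (Inj.of_subset hM (hK.mem_M hM hμ) hγM h5))
    (Inj.trans hM hY hγM h4 (Inj.of_subset hM (hK.mem_M hM hν) hγM h6)))
    (sq_inj hM hγM (hK.ord.mem hγ) fun x hx => h5 (h1 hx))⟩

theorem Sm.img {X : ZFSet.{0}} (hX : X ∈ M) (h : Sm M κ X) {F : ZFSet.{0} → ZFSet.{0}}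
    (hF : DfnF M M fun w : Fin 1 → ZFSet.{0} => F (w 0)) : Sm M κ (im F X) := by
  obtain ⟨μ, hμ, h1⟩ := h
  exact ⟨μ, hμ, Inj.image hM hX (hK.mem_M hM hμ) (hK.ord.mem hμ) h1 hF⟩

theorem Sm.pw {X : ZFSet.{0}} (hX : X ∈ M) (h : Sm M κ X) : Sm M κ (pwM M X) := by
  have hB := hM.base
  obtain ⟨μ, hμ, f, hf, hfi⟩ := h
  have hμM := hK.mem_M hM hμ
  obtain ⟨β, hβ, p, hp, hpm, g, hg, hgi⟩ := hK.lim μ hμ
  refine ⟨β, hβ, Inj.trans hM (pwM_mem hM hX) (hK.mem_M hM hβ) (Inj.of_fun hM (pwM_mem hM hX) hp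
    (h := fun A => ZFSet.sep (fun j => ∃ x ∈ A, pair x j ∈ f) μ) ?_ ?_ ?_) ⟨g, hg, hgi⟩⟩
  · refine hM.sep' (Q := fun j w => ∃ x ∈ w 0, pair x j ∈ f) (DfnF.const hμM) ?_
    apply hB.bex (DfnF.proj 1)
    exact Dfn.mem (hB.pair' (DfnF.proj 0) (DfnF.proj 1)) (DfnF.const hf)
  · intro A hA
    refine (hpm _).2 ⟨hM.sep_mem (Q := fun j => ∃ x ∈ A, pair x j ∈ f) ?_ hμM,
      fun x hx => (ZFSet.mem_sep.1 hx).1⟩
    apply hB.bex (DfnF.const (mem_pwM.1 hA).1)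
    exact Dfn.mem (hB.pair' (DfnF.proj 0) (DfnF.proj 1)) (DfnF.const hf)
  · have key : ∀ A ⊆ X, ∀ B ⊆ X, ZFSet.sep (fun j => ∃ x ∈ A, pair x j ∈ f) μ =
        ZFSet.sep (fun j => ∃ x ∈ B, pair x j ∈ f) μ → A ⊆ B := by
      intro A hA B hB' he x hx
      obtain ⟨j, hj, hxj⟩ := fun_exists hfi.1 (hA hx)
      have h1 : j ∈ ZFSet.sep (fun j => ∃ x ∈ A, pair x j ∈ f) μ :=
        ZFSet.mem_sep.2 ⟨hj, x, hx, hxj⟩
      rw [he] at h1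
      obtain ⟨-, y, hy, hyj⟩ := ZFSet.mem_sep.1 h1
      rwa [hfi.2 _ _ _ hxj hyj]
    intro A hA B hB' he
    have hA' := (mem_pwM.1 hA).2
    have hB'' := (mem_pwM.1 hB').2
    ext x
    exact ⟨fun hx => key A hA' B hB'' he hx, fun hx => key B hB'' A hA' he.symm hx⟩

/-- Regularity. -/
theorem bdd {X : ZFSet.{0}} (hX : X ∈ M) (h : Sm M κ X) {F : ZFSet.{0} → ZFSet.{0}}
    (hF : DfnF M M fun w : Fin 1 → ZFSet.{0} => F (w 0)) (hFκ : ∀ x ∈ X, F x ∈ κ) :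
    ∃ β ∈ κ, ∀ x ∈ X, F x ∈ β := by
  have hB := hM.base
  obtain ⟨μ, hμ, j, hj, hji⟩ := h
  have hμM := hK.mem_M hM hμ
  have h0 := hM.empty_mem
  set f := ZFSet.sep (fun u => (∃ x ∈ X, pair x (fs u) ∈ j ∧ sn u = F x) ∨
    ((∀ x ∈ X, ¬ pair x (fs u) ∈ j) ∧ sn u = ∅)) (ZFSet.prod μ κ) with hf
  have hfM : f ∈ M := by
    refine hM.sep_mem (Q := fun u => (∃ x ∈ X, pair x (fs u) ∈ j ∧ sn u = F x) ∨
      ((∀ x ∈ X, ¬ pair x (fs u) ∈ j) ∧ sn u = ∅)) ?_ (hM.prod_mem hμM hK.mem)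
    apply Dfn.or
    · apply hB.bex (DfnF.const hX)
      exact (Dfn.mem (hB.pair' (DfnF.proj 0) (hM.fs' (DfnF.proj 1))) (DfnF.const hj)).and
        (Dfn.eq (hM.sn' (DfnF.proj 1)) (DfnF.comp1 (f := F) hF (DfnF.proj 0)))
    · apply Dfn.and
      · apply hB.ball (DfnF.const hX)
        exact (Dfn.mem (hB.pair' (DfnF.proj 0) (hM.fs' (DfnF.proj 1))) (DfnF.const hj)).not
      · exact Dfn.eq (hM.sn' (DfnF.proj 0)) (DfnF.const h0)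
  have hfm : ∀ a b, pair a b ∈ f ↔ (a ∈ μ ∧ b ∈ κ) ∧ ((∃ x ∈ X, pair x a ∈ j ∧ b = F x) ∨
      ((∀ x ∈ X, ¬ pair x a ∈ j) ∧ b = ∅)) := by
    intro a b
    rw [hf, ZFSet.mem_sep, ZFSet.pair_mem_prod, fs_pair, sn_pair]
  have hfun : ZFSet.IsFunc μ κ f := by
    refine ⟨fun u hu => (ZFSet.mem_sep.1 hu).1, fun a ha => ?_⟩
    by_cases h1 : ∃ x ∈ X, pair x a ∈ j
    · obtain ⟨x, hx, hxa⟩ := h1
      refine ⟨F x, (hfm _ _).2 ⟨⟨ha, hFκ x hx⟩, Or.inl ⟨x, hx, hxa, rfl⟩⟩, fun b hb => ?_⟩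
      obtain ⟨-, ⟨y, hy, hya, rfl⟩ | ⟨h2, -⟩⟩ := (hfm _ _).1 hb
      · rw [hji.2 _ _ _ hxa hya]
      · exact absurd hxa (h2 x hx)
    · refine ⟨∅, (hfm _ _).2 ⟨⟨ha, hK.empty hM⟩, Or.inr ⟨fun x hx hxa => h1 ⟨x, hx, hxa⟩, rfl⟩⟩,
        fun b hb => ?_⟩
      obtain ⟨-, ⟨y, hy, hya, rfl⟩ | ⟨-, h2⟩⟩ := (hfm _ _).1 hb
      · exact absurd ⟨y, hy, hya⟩ h1
      · exact h2
  obtain ⟨β, hβ, h1⟩ := hK.reg μ hμ f hfM hfun
  refine ⟨β, hβ, fun x hx => ?_⟩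
  obtain ⟨a, ha, hxa⟩ := fun_exists hji.1 hx
  exact h1 a (F x) ((hfm _ _).2 ⟨⟨ha, hFκ x hx⟩, Or.inl ⟨x, hx, hxa, rfl⟩⟩)

theorem Sm.wk {β : ZFSet.{0}} (hβ : β ∈ κ) : Sm M κ (Wk β) := by
  have hβM := hK.mem_M hM hβ
  have h1 := Sm.of_mem hM hK hβ
  have h2 := Sm.of_mem hM hK hK.unc
  have h3 := Sm.prod hM hK hβM hM.infinity h1 h2
  have h4 := Sm.prod hM hK (hM.prod_mem hβM hM.infinity) hβM h3 h1
  exact Sm.sub hM hK (hM.prod_mem (hM.prod_mem hβM hM.infinity) hβM) (Wk_mem hM hβM) h4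
    fun u hu => (ZFSet.mem_sep.1 hu).1

theorem Sm.col {β : ZFSet.{0}} (hβ : β ∈ κ) : Sm M κ (Col β) := by
  have hβM := hK.mem_M hM hβ
  have hβo := hK.ord.mem hβ
  have hC := Col_mem hM hβM hβo
  refine Sm.sub hM hK (pwM_mem hM (Wk_mem hM hβM)) hC (Sm.pw hM hK (Wk_mem hM hβM)
    (Sm.wk hM hK hβ)) fun p hp => ?_
  exact mem_pwM.2 ⟨hM.trans _ hC _ hp, ((mem_Col hβo).1 hp).2.1⟩

/-- Every condition is bounded. -/
theorem col_bdd {p : ZFSet.{0}} (hp : p ∈ Col κ) : ∃ β ∈ κ, ∀ u ∈ p, fs (fs u) ∈ β := by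
  obtain ⟨h1, h2, -⟩ := (mem_Col hK.ord).1 hp
  have key : ∀ S : Set ZFSet.{0}, S.Finite → (∀ u ∈ S, fs (fs u) ∈ κ) →
      ∃ β ∈ κ, ∀ u ∈ S, fs (fs u) ∈ β := by
    intro S hS
    induction S, hS using Set.Finite.induction_on with
    | empty => exact fun _ => ⟨∅, hK.empty hM, fun u hu => hu.elim⟩
    | insert _ _ ih =>
      intro h3
      obtain ⟨β, hβ, h4⟩ := ih fun u hu => h3 u (Or.inr hu)
      obtain ⟨γ, hγ, h5, h6⟩ := hK.two hM hβ (hK.suc hM (h3 _ (Or.inl rfl)))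
      refine ⟨γ, hγ, fun u hu => ?_⟩
      rcases hu with rfl | hu
      · exact h6 (ZFSet.mem_insert _ _)
      · exact h5 (h4 u hu)
  refine key _ h1 fun u hu => ?_
  obtain ⟨α, hα, n, hn, ξ, hξ, rfl⟩ := (mem_Wk hK.ord).1 (h2 hu)
  rwa [fs_pair, fs_pair]

/-- The closure lemma. -/
theorem closure {E : ZFSet.{0} → ZFSet.{0} → ZFSet.{0} → Prop}
    (hE : Dfn M M fun w : Fin 3 → ZFSet.{0} => E (w 0) (w 1) (w 2)) {X : ZFSet.{0}}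
    (hX : X ∈ M) (hXs : Sm M κ X) {γ : ZFSet.{0}} (hγ : γ ∈ κ) :
    ∃ β ∈ κ, γ ∈ β ∧ ∀ p ∈ Col β, ∀ x ∈ X, (∃ p' ∈ Col κ, p ⊆ p' ∧ ∃ ξ ∈ κ, E p' x ξ) →
      ∃ p' ∈ Col β, p ⊆ p' ∧ ∃ ξ ∈ β, E p' x ξ := by
  have hB := hM.base
  have hC := Col_mem hM hK.mem hK.ord
  have hκM := hK.mem
  have hcb : ∀ {n : ℕ} {F : (Fin n → ZFSet.{0}) → ZFSet.{0}}, DfnF M M F →
      DfnF M M fun v => Cb (Col κ) (F v) := by
    intro n F hF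
    unfold Cb
    refine hM.sep' (Q := fun p v => ∀ u ∈ p, fs (fs u) ∈ F v) (DfnF.const hC) ?_
    apply hB.ball (DfnF.proj 0)
    exact Dfn.mem (hM.fs' (hM.fs' (DfnF.proj 0))) hF.tail.tail
  have hCb : ∀ β ∈ κ, Cb (Col κ) β = Col β := fun β hβ =>
    (col_eq_Cb (hK.ord.mem hβ) hK.ord (hK.ord.subset_of_mem hβ)).symm
  -- the bound for one condition
  set L : ZFSet.{0} → ZFSet.{0} := fun u => lo M fun δ => δ ∈ κ ∧ ∃ p' ∈ Cb (Col κ) δ,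
    fs u ⊆ p' ∧ ∃ ξ ∈ δ, E p' (sn u) ξ with hL
  have hLd : DfnF M M fun w : Fin 1 → ZFSet.{0} => L (w 0) := by
    refine hM.lo' (Q := fun δ w => δ ∈ κ ∧ ∃ p' ∈ Cb (Col κ) δ,
      fs (w 0) ⊆ p' ∧ ∃ ξ ∈ δ, E p' (sn (w 0)) ξ) ?_
    refine (Dfn.mem (DfnF.proj 0) (DfnF.const hκM)).and ?_
    apply hB.bex (hcb (DfnF.proj 0))
    apply (hB.subset' (hM.fs' (DfnF.proj 2)) (DfnF.proj 0)).and
    apply hB.bex (DfnF.proj 1)
    exact Dfn.comp3 (Q := E) hE (DfnF.proj 1) (hM.sn' (DfnF.proj 3)) (DfnF.proj 0)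
  have hLspec : ∀ u, (∃ δ ∈ κ, ∃ p' ∈ Cb (Col κ) δ, fs u ⊆ p' ∧ ∃ ξ ∈ δ, E p' (sn u) ξ) →
      L u ∈ κ ∧ ∃ p' ∈ Cb (Col κ) (L u), fs u ⊆ p' ∧ ∃ ξ ∈ L u, E p' (sn u) ξ := by
    rintro u ⟨δ, hδ, h⟩
    exact (lo_spec (M := M) (P := fun δ => δ ∈ κ ∧ ∃ p' ∈ Cb (Col κ) δ,
      fs u ⊆ p' ∧ ∃ ξ ∈ δ, E p' (sn u) ξ) ⟨δ, hK.mem_M hM hδ, hK.ord.mem hδ, hδ, h⟩).2.2
  have hLκ : ∀ u, L u ∈ κ := by
    intro u
    by_cases h : ∃ δ ∈ κ, ∃ p' ∈ Cb (Col κ) δ, fs u ⊆ p' ∧ ∃ ξ ∈ δ, E p' (sn u) ξ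
    · exact (hLspec u h).1
    · have h1 : L u = ∅ := lo_none (M := M) (P := fun δ => δ ∈ κ ∧ ∃ p' ∈ Cb (Col κ) δ,
        fs u ⊆ p' ∧ ∃ ξ ∈ δ, E p' (sn u) ξ) fun ⟨δ, _, _, hδ, h2⟩ => h ⟨δ, hδ, h2⟩
      rw [h1]
      exact hK.empty hM
  -- one step
  set T : ZFSet.{0} → ZFSet.{0} := fun δ => lo M fun η => η ∈ κ ∧ δ ∈ η ∧
    ∀ p ∈ Cb (Col κ) δ, ∀ x ∈ X, L (pair p x) ⊆ η with hT
  have hTd : DfnF M M fun w : Fin 1 → ZFSet.{0} => T (w 0) := by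
    refine hM.lo' (Q := fun η w => η ∈ κ ∧ w 0 ∈ η ∧
      ∀ p ∈ Cb (Col κ) (w 0), ∀ x ∈ X, L (pair p x) ⊆ η) ?_
    refine (Dfn.mem (DfnF.proj 0) (DfnF.const hκM)).and
      ((Dfn.mem (DfnF.proj 1) (DfnF.proj 0)).and ?_)
    apply hB.ball (hcb (DfnF.proj 1))
    apply hB.ball (DfnF.const hX)
    exact hB.subset' (DfnF.comp1 (f := L) hLd (hB.pair' (DfnF.proj 1) (DfnF.proj 0)))
      (DfnF.proj 2)
  have hTs : ∀ δ ∈ κ, T δ ∈ κ ∧ δ ∈ T δ ∧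
      ∀ p ∈ Cb (Col κ) δ, ∀ x ∈ X, L (pair p x) ⊆ T δ := by
    intro δ hδ
    have hCδ : Cb (Col κ) δ ∈ M := by
      rw [hCb δ hδ]
      exact Col_mem hM (hK.mem_M hM hδ) (hK.ord.mem hδ)
    obtain ⟨η, hη, h1⟩ := bdd hM hK (X := ZFSet.prod (Cb (Col κ) δ) X) (hM.prod_mem hCδ hX)
      (Sm.prod hM hK hCδ hX (by rw [hCb δ hδ]; exact Sm.col hM hK hδ) hXs) hLd
      fun u _ => hLκ u
    obtain ⟨ζ, hζ, h2, h3⟩ := hK.two hM hη (hK.suc hM hδ)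
    refine (lo_spec (M := M) (P := fun η => η ∈ κ ∧ δ ∈ η ∧
      ∀ p ∈ Cb (Col κ) δ, ∀ x ∈ X, L (pair p x) ⊆ η) ⟨ζ, hK.mem_M hM hζ, hK.ord.mem hζ, hζ,
      h3 (ZFSet.mem_insert _ _), fun p hp x hx => ?_⟩).2.2
    exact (hK.ord.mem hζ).subset_of_mem (h2 (h1 _ (ZFSet.pair_mem_prod.2 ⟨hp, hx⟩)))
  -- the iteration
  have h0 := hM.empty_mem
  have hγM := hK.mem_M hM hγ
  set Gf : ZFSet.{0} → ZFSet.{0} → ZFSet.{0} := fun z f =>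
    open Classical in if z = ∅ then γ else T (ap f (ZFSet.sUnion z)) with hGf
  have hGd : DfnF M M fun w : Fin 2 → ZFSet.{0} => Gf (w 0) (w 1) := by
    refine DfnF.ite (Dfn.eq (DfnF.proj 0) (DfnF.const h0)) (DfnF.const hγM) ?_
    exact DfnF.comp1 (f := T) hTd (hM.ap' (DfnF.proj 1) (hB.sUnion' (DfnF.proj 0)))
  set a : ZFSet.{0} → ZFSet.{0} := wfF (fun z => z) ZFSet.mem_wf Gf with ha
  have haeq : ∀ z, a z = Gf z (gr a z) := fun z => wfF_eq _ _ _ z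
  have had : DfnF M M fun w : Fin 1 → ZFSet.{0} => a (w 0) := hM.memrec hGd haeq
  have ha0 : a (nat 0) = γ := by
    rw [haeq, hGf]
    exact if_pos rfl
  have has : ∀ m : ℕ, a (nat (m + 1)) = T (a (nat m)) := by
    intro m
    rw [haeq, hGf]
    have h1 : nat (m + 1) ≠ ∅ := fun h => by
      have : nat m ∈ nat (m + 1) := ZFSet.mem_insert _ _
      rw [h] at this
      exact ZFSet.notMem_empty _ this
    simp only [if_neg h1]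
    have h2 : nat m ∈ nat (m + 1) := ZFSet.mem_insert _ _
    rw [sUnion_nat_succ, ap_gr h2]
  have haκ : ∀ m : ℕ, a (nat m) ∈ κ := by
    intro m
    induction m with
    | zero => rw [ha0]; exact hγ
    | succ m ih => rw [has]; exact (hTs _ ih).1
  have hamem : ∀ m : ℕ, a (nat m) ∈ a (nat (m + 1)) := fun m => by
    rw [has]
    exact (hTs _ (haκ m)).2.1
  have hamono : ∀ m k : ℕ, m ≤ k → a (nat m) ⊆ a (nat k) := by
    intro m k h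
    induction k, h using Nat.le_induction with
    | base => exact fun _ h => h
    | succ k _ ih => exact fun x hx => (hK.ord.mem (haκ (k + 1))).subset_of_mem (hamem k) (ih hx)
  set β : ZFSet.{0} := ZFSet.sUnion (im a ZFSet.omega) with hβ
  have hβm : ∀ x, x ∈ β ↔ ∃ m : ℕ, x ∈ a (nat m) := by
    intro x
    rw [hβ, ZFSet.mem_sUnion]
    constructor
    · rintro ⟨y, hy, hx⟩
      obtain ⟨m, hm, rfl⟩ := mem_im.1 hy
      obtain ⟨m, rfl⟩ := mem_omega_iff.1 hm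
      exact ⟨m, hx⟩
    · rintro ⟨m, hx⟩
      exact ⟨_, mem_im.2 ⟨nat m, nat_mem_omega m, rfl⟩, hx⟩
  have hβo : β.IsOrdinal := by
    refine isOrdinal_sUnion fun y hy => ?_
    obtain ⟨m, hm, rfl⟩ := mem_im.1 hy
    obtain ⟨m, rfl⟩ := mem_omega_iff.1 hm
    exact hK.ord.mem (haκ m)
  have hβκ : β ∈ κ := by
    obtain ⟨η, hη, h1⟩ := bdd hM hK hM.infinity (Sm.of_mem hM hK hK.unc) had fun x hx => by
      obtain ⟨m, rfl⟩ := mem_omega_iff.1 hx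
      exact haκ m
    refine hβo.mem_of_subset_of_mem hK.ord (fun x hx => ?_) hη
    obtain ⟨m, hm⟩ := (hβm x).1 hx
    exact (hK.ord.mem hη).subset_of_mem (h1 _ (nat_mem_omega m)) hm
  have haβ : ∀ m : ℕ, a (nat m) ⊆ β := fun m x hx => (hβm x).2 ⟨m, hx⟩
  refine ⟨β, hβκ, (hβm γ).2 ⟨1, ?_⟩, fun p hp x hx hex => ?_⟩
  · have := hamem 0
    rwa [ha0] at this
  · -- the condition is in one of the stages
    obtain ⟨m, hm⟩ : ∃ m : ℕ, ∀ u ∈ p, fs (fs u) ∈ a (nat m) := by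
      have hpf := ((mem_Col hβo).1 hp).1
      have key : ∀ S : Set ZFSet.{0}, S.Finite → (∀ u ∈ S, fs (fs u) ∈ β) →
          ∃ m : ℕ, ∀ u ∈ S, fs (fs u) ∈ a (nat m) := by
        intro S hS
        induction S, hS using Set.Finite.induction_on with
        | empty => exact fun _ => ⟨0, fun u hu => hu.elim⟩
        | insert _ _ ih =>
          intro h3
          obtain ⟨m, h4⟩ := ih fun u hu => h3 u (Or.inr hu)
          obtain ⟨k, h5⟩ := (hβm _).1 (h3 _ (Or.inl rfl))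
          refine ⟨max m k, fun u hu => ?_⟩
          rcases hu with rfl | hu
          · exact hamono _ _ (le_max_right _ _) h5
          · exact hamono _ _ (le_max_left _ _) (h4 u hu)
      refine key _ hpf fun u hu => ?_
      rw [← hCb β hβκ] at hp
      exact (mem_Cb.1 hp).2 u hu
    have hpκ : p ∈ Col κ := col_mono hβo hK.ord (hK.ord.subset_of_mem hβκ) hp
    have hpm : p ∈ Cb (Col κ) (a (nat m)) := mem_Cb.2 ⟨hpκ, hm⟩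
    obtain ⟨p', hp', hpp', ξ, hξ, hE'⟩ := hex
    obtain ⟨δ, hδ, hδ'⟩ := col_bdd hM hK hp'
    obtain ⟨ε, hε, h1, h2⟩ := hK.two hM hδ (hK.suc hM hξ)
    obtain ⟨-, q, hq, h3, ζ, hζ, h4⟩ := hLspec (pair p x) ⟨ε, hε, p', mem_Cb.2 ⟨hp', fun u hu =>
      h1 (hδ' u hu)⟩, by rwa [fs_pair], ξ, h2 (ZFSet.mem_insert _ _), by rwa [sn_pair]⟩
    rw [fs_pair] at h3
    rw [sn_pair] at h4
    have h5 : L (pair p x) ⊆ β := by
      refine fun y hy => haβ (m + 1) ?_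
      rw [has]
      exact (hTs _ (haκ m)).2.2 p hpm x hx hy
    refine ⟨q, ?_, h3, ζ, h5 hζ, h4⟩
    rw [← hCb β hβκ]
    exact mem_Cb.2 ⟨(mem_Cb.1 hq).1, fun u hu => h5 ((mem_Cb.1 hq).2 u hu)⟩

end

end Pool.Agent.H660.SU
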