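import Pool.Agent.H660.SU.Col2

/-!
# The extension by the Levy collapse
-/

set_option autoImplicit false
set_option linter.unreachableTactic false
set_option linter.unusedTactic false
set_option linter.unusedSectionVars false

namespace Pool.Agent.H660.SU

open Pool.Agent.W868 Pool.Agent.W868.GM Pool.Agent.Y588 Pool.Agent.H637_NO
open ZFSet (pair)

theorem hct_ord {N : Set ZFSet.{0}} (hN : IsZF N) {α : ZFSet.{0}} (hα : α ∈ N)
    (hαo : α.IsOrdinal) (h : Inj N α ZFSet.omega) : HCt N α := by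
  refine ⟨insert α α, hN.insert_mem hα hα, fun x hx y hy => ?_, ZFSet.mem_insert _ _,
    inj_omega_insert hN hα hα h⟩
  rcases ZFSet.mem_insert_iff.1 hx with rfl | hx
  · exact ZFSet.mem_insert_of_mem _ hy
  · exact ZFSet.mem_insert_of_mem _ (hαo.mem_trans hy hx)

theorem inj_up {M N : Set ZFSet.{0}} (h : M ⊆ N) {x y : ZFSet.{0}} (hi : Inj M x y) :
    Inj N x y := by
  obtain ⟨f, hf, h1⟩ := hi
  exact ⟨f, h hf, h1⟩

theorem col_insert {κ p α n ξ : ZFSet.{0}} (hκ : κ.IsOrdinal) (hp : p ∈ Col κ) (hα : α ∈ κ)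
    (hn : n ∈ ZFSet.omega) (hξ : ξ ∈ α) (h : ∀ y, pair (pair α n) y ∉ p) :
    insert (pair (pair α n) ξ) p ∈ Col κ := by
  obtain ⟨h1, h2, h3⟩ := (mem_Col hκ).1 hp
  refine (mem_Col hκ).2 ⟨?_, fun u hu => ?_, fun a b c hb hc => ?_⟩
  · refine (h1.insert (pair (pair α n) ξ)).subset fun u hu => ?_
    rcases ZFSet.mem_insert_iff.1 hu with h4 | h4
    · exact Or.inl h4
    · exact Or.inr h4
  · rcases ZFSet.mem_insert_iff.1 hu with rfl | hu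
    · exact (mem_Wk hκ).2 ⟨α, hα, n, hn, ξ, hξ, rfl⟩
    · exact h2 hu
  · rcases ZFSet.mem_insert_iff.1 hb with h4 | h4 <;> rcases ZFSet.mem_insert_iff.1 hc with h5 | h5
    · rw [(ZFSet.pair_inj.1 h4).2, (ZFSet.pair_inj.1 h5).2]
    · rw [(ZFSet.pair_inj.1 h4).1] at h5
      exact absurd h5 (h _)
    · rw [(ZFSet.pair_inj.1 h5).1] at h4
      exact absurd h4 (h _)
    · exact h3 a b c h4 h5

section

variable {M : Set ZFSet.{0}} (hL : IsLA ∅ M) {κ : ZFSet.{0}} (hK : Inaccessible M κ)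
  {G : ZFSet.{0}} (hG : IsGeneric M (Col κ) (ColLe κ) G)

include hL hK hG

theorem zfN : IsZF (ext M G) := zf_ext hL (isForcing_Col hL.zf hK.mem hK.ord) hG

theorem subN : M ⊆ ext M G := sub_ext hL.zf (isForcing_Col hL.zf hK.mem hK.ord) hG

theorem genN : G ∈ ext M G := gen_mem_ext hL.zf (isForcing_Col hL.zf hK.mem hK.ord) hG

theorem gup {p q : ZFSet.{0}} (hp : p ∈ G) (hq : q ⊆ p) : q ∈ G :=
  hG.up p hp q (col_sub hK.ord (hG.sub hp) hq) (mem_ColLe.2 ⟨hG.sub hp,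
      col_sub hK.ord (hG.sub hp) hq, hq⟩)

theorem gempty : ∅ ∈ G := by
  obtain ⟨p, hp⟩ := hG.nonempty
  exact gup hL hK hG hp (ZFSet.empty_subset _)

/-- All elements of `κ` are countable in the extension. -/
theorem ctbN {α : ZFSet.{0}} (hα : α ∈ κ) : Inj (ext M G) α ZFSet.omega := by
  have hM := hL.zf
  have hP := isForcing_Col hM hK.mem hK.ord
  have hN := zfN hL hK hG
  have hB := hN.base
  have hsub := subN hL hK hG
  have hGN := genN hL hK hG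
  have hαM := hK.mem_M hM hα
  have hUN : (ZFSet.sUnion G : ZFSet.{0}) ∈ ext M G := hN.union _ hGN
  have hUs : (ZFSet.sUnion G : ZFSet.{0}) ⊆ ZFSet.prod (ZFSet.prod κ ZFSet.omega) κ := by
    intro u hu
    obtain ⟨p, hp, hu⟩ := ZFSet.mem_sUnion.1 hu
    exact (ZFSet.mem_sep.1 (((mem_Col hK.ord).1 (hG.sub hp)).2.1 hu)).1
  have hUf : Y588.Fu (ZFSet.sUnion G) := by
    intro a b c hb hc
    obtain ⟨p, hp, hb⟩ := ZFSet.mem_sUnion.1 hb
    obtain ⟨q, hq, hc⟩ := ZFSet.mem_sUnion.1 hc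
    obtain ⟨r, hr, h1, h2⟩ := hG.dir p hp q hq
    exact ((mem_Col hK.ord).1 (hG.sub hr)).2.2 a b c ((mem_ColLe.1 h1).2.2 hb)
      ((mem_ColLe.1 h2).2.2 hc)
  set S := ZFSet.sep (fun n => ∃ ξ ∈ α, pair (pair α n) ξ ∈ (ZFSet.sUnion G : ZFSet.{0}))
    ZFSet.omega with hS
  have hSN : S ∈ ext M G := by
    refine hN.sep_mem (Q := fun n => ∃ ξ ∈ α, pair (pair α n) ξ ∈
      (ZFSet.sUnion G : ZFSet.{0})) ?_ hN.infinity
    apply hB.bex (DfnF.const (hsub hαM))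
    exact Dfn.mem (hB.pair' (hB.pair' (DfnF.const (hsub hαM)) (DfnF.proj 1)) (DfnF.proj 0))
      (DfnF.const hUN)
  have hSi : Inj (ext M G) S ZFSet.omega :=
    Inj.of_subset hN hSN hN.infinity fun x hx => (ZFSet.mem_sep.1 hx).1
  have hd : DfnF (ext M G) (ext M G) fun w : Fin 1 → ZFSet.{0} =>
      ap (ZFSet.sUnion G) (pair α (w 0)) :=
    hN.ap' (DfnF.const hUN) (hB.pair' (DfnF.const (hsub hαM)) (DfnF.proj 0))
  have h1 := Inj.image hN hSN hN.infinity isOrdinal_omega hSi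
    (h := fun n => ap (ZFSet.sUnion G) (pair α n)) hd
  have h2 : im (fun n => ap (ZFSet.sUnion G) (pair α n)) S = α := by
    ext ξ
    rw [mem_im]
    constructor
    · rintro ⟨n, hn, rfl⟩
      obtain ⟨-, ξ, hξ, h3⟩ := ZFSet.mem_sep.1 hn
      rwa [ap_fu hUs hUf h3]
    · intro hξ
      have hξM := hM.trans _ hαM _ hξ
      obtain ⟨p, hp, n, hn, h3⟩ := gen_dense hM hP hG
        (Q := fun p => ∃ n ∈ ZFSet.omega, pair (pair α n) ξ ∈ p) (by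
        apply hM.base.bex (DfnF.const hM.infinity)
        exact Dfn.mem (hM.base.pair' (hM.base.pair' (DfnF.const hαM) (DfnF.proj 0))
          (DfnF.const hξM)) (DfnF.proj 1)) (by
        intro p hp
        have hfin := ((mem_Col hK.ord).1 hp).1
        obtain ⟨k, hk⟩ : ∃ k : ℕ, ∀ y, pair (pair α (nat k)) y ∉ p := by
          by_contra hcon
          push Not at hcon
          have h4 : (Set.univ : Set ℕ).Finite := by
            refine ((hfin.image fun u => sn (fs u)).preimage (f := nat)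
              (nat_injective.injOn)).subset fun k _ => ?_
            obtain ⟨y, hy⟩ := hcon k
            exact ⟨_, hy, by simp only [fs_pair, sn_pair]⟩
          exact Set.infinite_univ h4
        have h5 := col_insert hK.ord hp hα (nat_mem_omega k) hξ hk
        exact ⟨_, h5, mem_ColLe.2 ⟨h5, hp, fun u hu => ZFSet.mem_insert_of_mem _ hu⟩,
          nat k, nat_mem_omega k, ZFSet.mem_insert _ _⟩)
      have h4 : pair (pair α n) ξ ∈ (ZFSet.sUnion G : ZFSet.{0}) :=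
        ZFSet.mem_sUnion.2 ⟨p, hp, h3⟩
      exact ⟨n, ZFSet.mem_sep.2 ⟨hn, ξ, hξ, h4⟩, (ap_fu hUs hUf h4).symm⟩
  rwa [h2] at h1

/-- Every real of the extension is in the extension by a bounded part of the filter. -/
theorem realN {y : ZFSet.{0}} (hy : y ∈ PW (ext M G)) : ∃ β ∈ κ, y ∈ ext M (Cb G β) := by
  have hM := hL.zf
  have hB := hM.base
  have hP := isForcing_Col hM hK.mem hK.ord
  have hPM := hP.mem
  have hLM := hP.le_mem
  have h0 := hM.empty_mem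
  have h0G := gempty hL hK hG
  obtain ⟨⟨τ, hτ, rfl⟩, hyo⟩ := mem_PW.1 hy
  have hchk : ∀ {n : ℕ} {F : (Fin n → ZFSet.{0}) → ZFSet.{0}}, DfnF M M F →
      DfnF M M fun v => chk ∅ (F v) := fun hF => DfnF.comp1 (f := chk ∅) (dfn_chk hM h0) hF
  set E : ZFSet.{0} → ZFSet.{0} → ZFSet.{0} → Prop := fun p x _ =>
    Qmem (Col κ) (ColLe κ) (chk ∅ x) τ p ∨ ∀ q ∈ Col κ, pair q p ∈ ColLe κ →
      ¬ Qmem (Col κ) (ColLe κ) (chk ∅ x) τ q with hE
  have hEd : Dfn M M fun w : Fin 3 → ZFSet.{0} => E (w 0) (w 1) (w 2) := by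
    apply Dfn.or
    · exact dfn_qmem hM hPM hLM (hchk (DfnF.proj 1)) (DfnF.const hτ) (DfnF.proj 0)
    · apply hB.ball (DfnF.const hPM)
      apply Dfn.imp (Dfn.mem (hB.pair' (DfnF.proj 0) (DfnF.proj 1)) (DfnF.const hLM))
      exact (dfn_qmem hM hPM hLM (hchk (DfnF.proj 2)) (DfnF.const hτ) (DfnF.proj 0)).not
  have hoo := oo_mem hM
  obtain ⟨β, hβ, -, hcl⟩ := closure hM hK hEd hoo
    (Sm.prod hM hK hM.infinity hM.infinity (Sm.of_mem hM hK hK.unc) (Sm.of_mem hM hK hK.unc))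
    (hK.empty hM)
  have hβo := hK.ord.mem hβ
  have hβM := hK.mem_M hM hβ
  have hβs := hK.ord.subset_of_mem hβ
  have hGβ := gen_rst hM hK.mem hK.ord hβ hG
  have hPβ := isForcing_Col hM hβM hβo
  have hmem : ∀ p, p ∈ Cb G β → p ∈ G := fun p hp => (mem_Cb.1 hp).1
  refine ⟨β, hβ, ?_⟩
  have hNβ := zf_ext hL hPβ hGβ
  have hsubβ := sub_ext hM hPβ hGβ
  have hGβN := gen_mem_ext hM hPβ hGβ
  set A := ZFSet.sep (fun u => Qmem (Col κ) (ColLe κ) (chk ∅ (sn u)) τ (fs u))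
    (ZFSet.prod (Col β) oo) with hA
  have hAM : A ∈ M := by
    refine hM.sep_mem (Q := fun u => Qmem (Col κ) (ColLe κ) (chk ∅ (sn u)) τ (fs u)) ?_
      (hM.prod_mem hPβ.mem hoo)
    exact dfn_qmem hM hPM hLM (hchk (hM.sn' (DfnF.proj 0))) (DfnF.const hτ) (hM.fs' (DfnF.proj 0))
  have hyeq : ev G τ = ZFSet.sep (fun q => ∃ p ∈ Cb G β, pair p q ∈ A) oo := by
    ext q
    rw [ZFSet.mem_sep]
    constructor
    · intro hq
      have hqo := hyo hq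
      have hqM := hM.trans _ hoo _ hqo
      refine ⟨hqo, ?_⟩
      have h1 : ev G (chk ∅ q) ∈ ev G τ := by rwa [ev_chk h0G]
      obtain ⟨r, hr, h2⟩ := (ev_mem_iff hM hP hG (chk_mem hM h0 hqM) hτ).1 h1
      obtain ⟨p, hp, h3⟩ := gen_dense hM hPβ hGβ (Q := fun p => E p q ∅)
        (Dfn.comp3 (Q := E) hEd (DfnF.proj 0) (DfnF.const hqM) (DfnF.const h0)) (by
        intro p hp
        have hpκ := col_mono hβo hK.ord hβs hp
        obtain ⟨p', hp', hpp', ξ, -, h4⟩ := hcl p hp q hqo (by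
          by_cases hex : ∃ q' ∈ Col κ, pair q' p ∈ ColLe κ ∧
              Qmem (Col κ) (ColLe κ) (chk ∅ q) τ q'
          · obtain ⟨q', hq', h5, h6⟩ := hex
            exact ⟨q', hq', (mem_ColLe.1 h5).2.2, ∅, hK.empty hM, Or.inl h6⟩
          · exact ⟨p, hpκ, fun _ h => h, ∅, hK.empty hM, Or.inr fun q' hq' h5 h6 =>
              hex ⟨q', hq', h5, h6⟩⟩)
        exact ⟨p', hp', mem_ColLe.2 ⟨hp', hp, hpp'⟩, h4⟩)
      have hpG := hmem p hp
      have hpβ : p ∈ Col β := hGβ.sub hp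
      rcases h3 with h3 | h3
      · refine ⟨p, hp, ZFSet.mem_sep.2 ⟨ZFSet.pair_mem_prod.2 ⟨hpβ, hqo⟩, ?_⟩⟩
        rwa [fs_pair, sn_pair]
      · obtain ⟨s, hs, hsp, hsr⟩ := hG.dir p hpG r hr
        exact absurd (Qmem.mono hP (hG.sub hr) h2 (hG.sub hs) hsr) (h3 s (hG.sub hs) hsp)
    · rintro ⟨hqo, p, hp, h1⟩
      have hqM := hM.trans _ hoo _ hqo
      have h2 := (ZFSet.mem_sep.1 h1).2
      rw [fs_pair, sn_pair] at h2
      have h3 := (ev_mem_iff hM hP hG (chk_mem hM h0 hqM) hτ).2 ⟨p, hmem p hp, h2⟩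
      rwa [ev_chk h0G] at h3
  rw [hyeq]
  refine hNβ.sep_mem (Q := fun q => ∃ p ∈ Cb G β, pair p q ∈ A) ?_ (hsubβ hoo)
  apply hNβ.base.bex (DfnF.const hGβN)
  exact Dfn.mem (hNβ.base.pair' (DfnF.proj 0) (DfnF.proj 1)) (DfnF.const (hsubβ hAM))

/-- Functions from `ω` to `κ` in the extension are bounded. -/
theorem bddN {h : ZFSet.{0}} (hh : h ∈ ext M G)
    (hf : ∀ n ξ ξ', pair n ξ ∈ h → pair n ξ' ∈ h → ξ = ξ') :
    ∃ β ∈ κ, ∀ n ∈ ZFSet.omega, ∀ ξ ∈ κ, pair n ξ ∈ h → ξ ∈ β := by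
  have hM := hL.zf
  have hB := hM.base
  have hP := isForcing_Col hM hK.mem hK.ord
  have hPM := hP.mem
  have hLM := hP.le_mem
  have h0 := hM.empty_mem
  have h0G := gempty hL hK hG
  have hω := hM.infinity
  obtain ⟨τ, hτ, rfl⟩ := hh
  have hchk : ∀ {n : ℕ} {F : (Fin n → ZFSet.{0}) → ZFSet.{0}}, DfnF M M F →
      DfnF M M fun v => chk ∅ (F v) := fun hF => DfnF.comp1 (f := chk ∅) (dfn_chk hM h0) hF
  set E : ZFSet.{0} → ZFSet.{0} → ZFSet.{0} → Prop := fun p n ξ =>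
    Qmem (Col κ) (ColLe κ) (chk ∅ (pair n ξ)) τ p with hE
  have hEd : Dfn M M fun w : Fin 3 → ZFSet.{0} => E (w 0) (w 1) (w 2) :=
    dfn_qmem hM hPM hLM (hchk (hB.pair' (DfnF.proj 1) (DfnF.proj 2))) (DfnF.const hτ)
      (DfnF.proj 0)
  obtain ⟨β, hβ, -, hcl⟩ := closure hM hK hEd hω (Sm.of_mem hM hK hK.unc) (hK.empty hM)
  have hβo := hK.ord.mem hβ
  have hβM := hK.mem_M hM hβ
  have hβs := hK.ord.subset_of_mem hβ
  have hGβ := gen_rst hM hK.mem hK.ord hβ hG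
  have hPβ := isForcing_Col hM hβM hβo
  refine ⟨β, hβ, fun n hn ξ₀ hξ₀ hnξ => ?_⟩
  have hnM := hM.trans _ hω _ hn
  have hξ₀M := hK.mem_M hM hξ₀
  have h1 : ev G (chk ∅ (pair n ξ₀)) ∈ ev G τ := by rwa [ev_chk h0G]
  obtain ⟨r, hr, h2⟩ := (ev_mem_iff hM hP hG (chk_mem hM h0 (hM.pair_mem hnM hξ₀M)) hτ).1 h1
  obtain ⟨p, hp, h3⟩ := gen_dense hM hPβ hGβ (Q := fun p => (∃ ξ ∈ β, E p n ξ) ∨
      ∀ q ∈ Col κ, p ⊆ q → ∀ ξ ∈ κ, ¬ E q n ξ) (by
    apply Dfn.or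
    · apply hB.bex (DfnF.const hβM)
      exact Dfn.comp3 (Q := E) hEd (DfnF.proj 1) (DfnF.const hnM) (DfnF.proj 0)
    · apply hB.ball (DfnF.const hPM)
      apply Dfn.imp (hB.subset' (DfnF.proj 1) (DfnF.proj 0))
      apply hB.ball (DfnF.const hK.mem)
      exact (Dfn.comp3 (Q := E) hEd (DfnF.proj 1) (DfnF.const hnM) (DfnF.proj 0)).not) (by
    intro p hp
    have hpκ := col_mono hβo hK.ord hβs hp
    by_cases hex : ∃ p' ∈ Col κ, p ⊆ p' ∧ ∃ ξ ∈ κ, E p' n ξ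
    · obtain ⟨p', hp', hpp', h4⟩ := hcl p hp n hn hex
      exact ⟨p', hp', mem_ColLe.2 ⟨hp', hp, hpp'⟩, Or.inl h4⟩
    · exact ⟨p, hp, mem_ColLe.2 ⟨hp, hp, fun _ h => h⟩, Or.inr fun q hq hpq ξ hξ h4 =>
        hex ⟨q, hq, hpq, ξ, hξ, h4⟩⟩)
  have hpG : p ∈ G := (mem_Cb.1 hp).1
  rcases h3 with ⟨ξ, hξ, h3⟩ | h3
  · have hξM := hM.trans _ hβM _ hξ
    have h4 := (ev_mem_iff hM hP hG (chk_mem hM h0 (hM.pair_mem hnM hξM)) hτ).2 ⟨p, hpG, h3⟩
    rw [ev_chk h0G] at h4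
    rwa [hf n ξ₀ ξ hnξ h4]
  · obtain ⟨s, hs, hsp, hsr⟩ := hG.dir p hpG r hr
    exact absurd (Qmem.mono hP (hG.sub hr) h2 (hG.sub hs) hsr)
      (h3 s (hG.sub hs) (mem_ColLe.1 hsp).2.2 ξ₀ hξ₀)

/-- In the extension `κ` is uncountable. -/
theorem uncN : ¬ Inj (ext M G) κ ZFSet.omega := by
  rintro ⟨f, hf, hfi⟩
  have hN := zfN hL hK hG
  have hB := hN.base
  have hsub := subN hL hK hG
  have hκN := hsub hK.mem
  set h := ZFSet.sep (fun u => pair (sn u) (fs u) ∈ f) (ZFSet.prod ZFSet.omega κ) with hh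
  have hhN : h ∈ ext M G := by
    refine hN.sep_mem (Q := fun u => pair (sn u) (fs u) ∈ f) ?_ (hN.prod_mem hN.infinity hκN)
    exact Dfn.mem (hB.pair' (hN.sn' (DfnF.proj 0)) (hN.fs' (DfnF.proj 0))) (DfnF.const hf)
  have hhm : ∀ n ξ, pair n ξ ∈ h ↔ (n ∈ ZFSet.omega ∧ ξ ∈ κ) ∧ pair ξ n ∈ f := by
    intro n ξ
    rw [hh, ZFSet.mem_sep, ZFSet.pair_mem_prod, fs_pair, sn_pair]
  obtain ⟨β, hβ, h1⟩ := bddN hL hK hG hhN fun n ξ ξ' h1 h2 =>
    hfi.2 _ _ _ ((hhm _ _).1 h1).2 ((hhm _ _).1 h2).2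
  obtain ⟨n, hn, h2⟩ := fun_exists hfi.1 hβ
  exact ZFSet.mem_irrefl _ (h1 n hn β hβ ((hhm _ _).2 ⟨⟨hn, hβ⟩, h2⟩))

/-- The extension by a bounded part of the filter has countably many reals. -/
theorem fewN {β : ZFSet.{0}} (hβ : β ∈ κ) : ∃ S ∈ ext M G, Inj (ext M G) S ZFSet.omega ∧
    ∀ y ∈ PW (ext M G), y ∈ ext M (Cb G β) → y ∈ S := by
  have hM := hL.zf
  have hB := hM.base
  have hN := zfN hL hK hG
  have hsub := subN hL hK hG
  have hGN := genN hL hK hG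
  have hβo := hK.ord.mem hβ
  have hβM := hK.mem_M hM hβ
  have hGβ := gen_rst hM hK.mem hK.ord hβ hG
  have hPβ := isForcing_Col hM hβM hβo
  have hPM := hPβ.mem
  have hLM := hPβ.le_mem
  have hoo := oo_mem hM
  have h0 := hM.empty_mem
  have hPw : pwM M (ZFSet.prod (Col β) oo) ∈ M := pwM_mem hM (hM.prod_mem hPM hoo)
  have hsm : Sm M κ (pwM M (ZFSet.prod (Col β) oo)) := by
    refine Sm.pw hM hK (hM.prod_mem hPM hoo) (Sm.prod hM hK hPM hoo (Sm.col hM hK hβ) ?_)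
    exact Sm.prod hM hK hM.infinity hM.infinity (Sm.of_mem hM hK hK.unc)
      (Sm.of_mem hM hK hK.unc)
  obtain ⟨γ, hγ, hγi⟩ := hsm
  have hPwi : Inj (ext M G) (pwM M (ZFSet.prod (Col β) oo)) ZFSet.omega :=
    Inj.trans hN (hsub hPw) hN.infinity (inj_up hsub hγi) (ctbN hL hK hG hγ)
  have hGβN : Cb G β ∈ ext M G := by
    refine hN.sep_mem (Q := fun p => ∀ u ∈ p, fs (fs u) ∈ β) ?_ hGN
    apply hN.base.ball (DfnF.proj 0)
    exact Dfn.mem (hN.fs' (hN.fs' (DfnF.proj 0))) (DfnF.const (hsub hβM))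
  have hd : DfnF (ext M G) (ext M G) fun w : Fin 1 → ZFSet.{0} =>
      ZFSet.sep (fun q => ∃ p ∈ Cb G β, pair p q ∈ w 0) oo := by
    refine hN.sep' (Q := fun q w => ∃ p ∈ Cb G β, pair p q ∈ w 0) (DfnF.const (hsub hoo)) ?_
    apply hN.base.bex (DfnF.const hGβN)
    exact Dfn.mem (hN.base.pair' (DfnF.proj 0) (DfnF.proj 1)) (DfnF.proj 2)
  refine ⟨im (fun A => ZFSet.sep (fun q => ∃ p ∈ Cb G β, pair p q ∈ A) oo)
    (pwM M (ZFSet.prod (Col β) oo)), hN.im_mem (hsub hPw) hd,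
    Inj.image hN (hsub hPw) hN.infinity isOrdinal_omega hPwi hd, fun y hy hyβ => ?_⟩
  obtain ⟨τ, hτ, rfl⟩ := hyβ
  have hyo := (mem_PW.1 hy).2
  have h0G : ∅ ∈ Cb G β := mem_Cb.2 ⟨gempty hL hK hG, fun u hu => absurd hu
    (ZFSet.notMem_empty _)⟩
  have hchk : ∀ {n : ℕ} {F : (Fin n → ZFSet.{0}) → ZFSet.{0}}, DfnF M M F →
      DfnF M M fun v => chk ∅ (F v) := fun hF => DfnF.comp1 (f := chk ∅) (dfn_chk hM h0) hF
  have hAM : ZFSet.sep (fun u => Qmem (Col β) (ColLe β) (chk ∅ (sn u)) τ (fs u))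
      (ZFSet.prod (Col β) oo) ∈ M := by
    refine hM.sep_mem (Q := fun u => Qmem (Col β) (ColLe β) (chk ∅ (sn u)) τ (fs u)) ?_
      (hM.prod_mem hPM hoo)
    exact dfn_qmem hM hPM hLM (hchk (hM.sn' (DfnF.proj 0))) (DfnF.const hτ) (hM.fs' (DfnF.proj 0))
  refine mem_im.2 ⟨_, mem_pwM.2 ⟨hAM, fun u hu => (ZFSet.mem_sep.1 hu).1⟩, ?_⟩
  ext q
  rw [ZFSet.mem_sep]
  constructor
  · intro hq
    have hqo := hyo hq
    have hqM := hM.trans _ hoo _ hqo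
    refine ⟨hqo, ?_⟩
    have h1 : ev (Cb G β) (chk ∅ q) ∈ ev (Cb G β) τ := by rwa [ev_chk h0G]
    obtain ⟨r, hr, h2⟩ := (ev_mem_iff hM hPβ hGβ (chk_mem hM h0 hqM) hτ).1 h1
    refine ⟨r, hr, ZFSet.mem_sep.2 ⟨ZFSet.pair_mem_prod.2 ⟨hGβ.sub hr, hqo⟩, ?_⟩⟩
    rwa [fs_pair, sn_pair]
  · rintro ⟨hqo, p, hp, h1⟩
    have hqM := hM.trans _ hoo _ hqo
    have h2 := (ZFSet.mem_sep.1 h1).2
    rw [fs_pair, sn_pair] at h2
    have h3 := (ev_mem_iff hM hPβ hGβ (chk_mem hM h0 hqM) hτ).2 ⟨p, hp, h2⟩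
    rwa [ev_chk h0G] at h3

end

end Pool.Agent.H660.SU
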