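import Pool.Agent.H660.SU.Sol
import Pool.Graph.R_seed8.W868.Gch

/-!
# Constructible models and cardinals that are not Mahlo
-/

set_option autoImplicit false
set_option linter.unreachableTactic false
set_option linter.unusedTactic false
set_option linter.unusedSectionVars false

namespace Pool.Agent.H660.SU

open Pool.Agent.W868 Pool.Agent.W868.GM Pool.Agent.Y588 Pool.Agent.H637_NO
open ZFSet (pair)

theorem isLA_of_constructible {M : Set ZFSet.{0}} (hM : IsZF M) (h : Constructible M) :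
    IsLA ∅ M := by
  have h1 := lcf_empty hM
  have h2 := h (LC M ∅) h1.sub h1.zf h1.ord
  have h3 := h1.la
  rwa [h2] at h3

theorem constructible_LC {V : Set ZFSet.{0}} (hV : IsZF V) : Constructible (LC V ∅) := by
  intro W hW hWZ hord
  apply Set.Subset.antisymm hW
  rintro x ⟨ξ, h1, h2, h3⟩
  have h4 := hord ξ ((lcf_empty hV).ord ξ h1 h2) h2
  exact hWZ.trans _ (Lv_mem_M hWZ hWZ.empty_mem h4) _ h3

/-- The function given by a closed unbounded set. -/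
theorem nu_of_notMahlo {M : Set ZFSet.{0}} (hM : IsZF M) {κ : ZFSet.{0}}
    (hK : Inaccessible M κ) (h : NotMahlo M κ) : ∃ ν, Nu M κ ν := by
  obtain ⟨E, hE, hs, hu, hc, hr⟩ := h
  have key : ∀ ξ ∈ κ, (lo M fun η => η ∈ E ∧ ξ ∈ η) ∈ E ∧
      ξ ∈ (lo M fun η => η ∈ E ∧ ξ ∈ η) := by
    intro ξ hξ
    obtain ⟨β, hβ, h1⟩ := hu ξ hξ
    exact (lo_spec (M := M) (P := fun η => η ∈ E ∧ ξ ∈ η)
      ⟨β, hK.mem_M hM (hs hβ), hK.ord.mem (hs hβ), hβ, h1⟩).2.2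
  refine ⟨fun ξ => lo M fun η => η ∈ E ∧ ξ ∈ η, ?_, fun ξ hξ => hs (key ξ hξ).1,
    fun ξ hξ => lo_isOrdinal.subset_of_mem (key ξ hξ).2, fun α hα hω h1 => ?_⟩
  · exact hM.lo' (Q := fun η w => η ∈ E ∧ w 0 ∈ η) ((Dfn.mem (DfnF.proj 0) (DfnF.const hE)).and
      (Dfn.mem (DfnF.proj 1) (DfnF.proj 0)))
  · apply hr
    refine hc α hα (fun h2 => ?_) fun β hβ => ?_
    · rw [h2] at hω
      exact ZFSet.notMem_empty _ hω
    · have h2 := key β (hK.ord.mem_trans hβ hα)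
      exact ⟨_, h2.1, h1 β hβ, h2.2⟩

/-- The next cardinal. -/
noncomputable def nxt (M : Set ZFSet.{0}) (ξ : ZFSet.{0}) : ZFSet.{0} :=
  lo M fun η => ¬ Inj M η ξ

section

variable {M : Set ZFSet.{0}} (hM : IsZF M)

include hM

theorem dfn_nxt {n : ℕ} {F : (Fin n → ZFSet.{0}) → ZFSet.{0}} (hF : DfnF M M F) :
    DfnF M M fun v => nxt M (F v) := by
  refine DfnF.comp1 (f := nxt M) ?_ hF
  exact hM.lo' (Q := fun η w => ¬ Inj M η (w 0)) (dfn_Inj hM (DfnF.proj 0) (DfnF.proj 1)).not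

theorem nxt_spec {ξ : ZFSet.{0}} (hξ : ξ ∈ M) : nxt M ξ ∈ M ∧ (nxt M ξ).IsOrdinal ∧
    ¬ Inj M (nxt M ξ) ξ := by
  obtain ⟨S, hS, hSo, hSn⟩ := hartogs hM hξ
  exact lo_spec (M := M) (P := fun ν => ¬ Inj M ν ξ) ⟨S, hS, hSo, hSn⟩

theorem nxt_sub {ξ η : ZFSet.{0}} (hη : η ∈ M) (hηo : η.IsOrdinal) (h : ¬ Inj M η ξ) :
    nxt M ξ ⊆ η := lo_subset hη hηo h

theorem sub_nxt {ξ : ZFSet.{0}} (hξ : ξ ∈ M) (hξo : ξ.IsOrdinal) : ξ ∈ nxt M ξ := by
  obtain ⟨h1, h2, h3⟩ := nxt_spec hM hξ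
  rcases hξo.mem_or_subset h2 with h4 | h4
  · exact h4
  · exact absurd (Inj.of_subset hM h1 hξ h4) h3

end

/-- In a constructible model the power set of `ξ` is not larger than the next cardinal. -/
theorem pw_small {M : Set ZFSet.{0}} (hL : IsLA ∅ M) {ξ : ZFSet.{0}} (hξ : ξ ∈ M)
    (hξo : ξ.IsOrdinal) (hω : ZFSet.omega ⊆ ξ) : Inj M (pwM M ξ) (nxt M ξ) := by
  have hM := hL.zf
  have h0 := hM.empty_mem
  obtain ⟨h1, h2, h3⟩ := nxt_spec hM hξ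
  have h4 := sub_nxt hM hξ hξo
  have hωn : ZFSet.omega ⊆ nxt M ξ := fun x hx => h2.subset_of_mem h4 (hω hx)
  have h5 : pwM M ξ ⊆ Lv ∅ (nxt M ξ) := by
    intro y hy
    obtain ⟨hyM, hyξ⟩ := mem_pwM.1 hy
    obtain ⟨η, hη, hηo, h6, h7⟩ := sub_level hL hξ hξo hω (hM.single_mem h0) (by
      intro x hx y hy
      rw [ZFSet.mem_singleton.1 hx] at hy
      exact absurd hy (ZFSet.notMem_empty _)) (ZFSet.mem_singleton.2 rfl)
      (inj_omega_single hM h0) hyM hyξ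
    refine Lv_mono ?_ h7
    rcases hηo.mem_or_subset h2 with h8 | h8
    · exact h2.subset_of_mem h8
    · exact absurd (inj_mono hM h1 hη hξ h8 h6) h3
  exact inj_mono hM (pwM_mem hM hξ) (Lv_mem_M hM h0 h1) h1 h5 (Lv_small hL h1 h2 hωn h1 h2
    (Inj.of_subset hM h1 h1 fun _ h => h))

/-- The constructible model satisfies that an inaccessible cardinal is inaccessible. -/
theorem inaccessible_L {V : Set ZFSet.{0}} (hV : IsZF V) {κ : ZFSet.{0}}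
    (hK : Inaccessible V κ) : Inaccessible (LC V ∅) κ := by
  have hl := lcf_empty hV
  have hM := hl.zf
  have hL := hl.la
  have hsub := hl.sub
  refine ⟨hl.ord κ hK.mem hK.ord, hK.ord, hK.unc, fun α hα f hf hfun =>
    hK.reg α hα f (hsub hf) hfun, fun α hα => ?_⟩
  obtain ⟨μ, hμ, h1, h2⟩ := hK.two hV hα hK.unc
  have hμV := hK.mem_M hV hμ
  have hμo := hK.ord.mem hμ
  have hμM := hl.ord μ hμV hμo
  have hαM := hl.ord α (hK.mem_M hV hα) (hK.ord.mem hα)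
  have h3 := pw_small hL hμM hμo h2
  have h4 := nxt_spec hM hμM
  refine ⟨nxt (LC V ∅) μ, ?_, pwM (LC V ∅) α, pwM_mem hM hαM, fun z => mem_pwM, ?_⟩
  · obtain ⟨β, hβ, p, hp, hpm, g, hg, hgi⟩ := hK.lim μ hμ
    have hβV := hK.mem_M hV hβ
    have hβo := hK.ord.mem hβ
    refine h4.2.1.mem_of_subset_of_mem hK.ord (nxt_sub hM (hl.ord β hβV hβo) hβo fun h5 => ?_) hβ
    exact cantor hV hμV hp hpm (Inj.trans hV hp hμV ⟨g, hg, hgi⟩ (inj_up hsub h5))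
  · exact inj_mono hM (pwM_mem hM hαM) (pwM_mem hM hμM) h4.1 (fun z hz =>
      mem_pwM.2 ⟨(mem_pwM.1 hz).1, fun x hx => h1 ((mem_pwM.1 hz).2 hx)⟩) h3

/-- The least inaccessible cardinal of a constructible model is not Mahlo. -/
theorem notMahlo_least {M : Set ZFSet.{0}} (hL : IsLA ∅ M) {κ : ZFSet.{0}}
    (hK : Inaccessible M κ) (hmin : ∀ α ∈ κ, ¬ Inaccessible M α) : NotMahlo M κ := by
  have hM := hL.zf
  have hB := hM.base
  have hω := hM.infinity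
  set ν : ZFSet.{0} → ZFSet.{0} := fun ξ => nxt M (ξ ∪ ZFSet.omega) with hν
  have hνd : ∀ {n : ℕ} {F : (Fin n → ZFSet.{0}) → ZFSet.{0}}, DfnF M M F →
      DfnF M M fun v => ν (F v) := fun hF => dfn_nxt hM (hB.union' hF (DfnF.const hω))
  -- unions with omega
  have hun : ∀ {ξ α : ZFSet.{0}}, α.IsOrdinal → ξ ∈ α → ZFSet.omega ∈ α →
      ξ ∪ ZFSet.omega ∈ α := by
    intro ξ α hα hξ h1
    rcases (hα.mem hξ).subset_total isOrdinal_omega with h2 | h2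
    · have h3 : ξ ∪ ZFSet.omega = ZFSet.omega := by
        ext x
        rw [ZFSet.mem_union]
        exact ⟨fun h => h.elim (fun h => h2 h) id, Or.inr⟩
      rwa [h3]
    · have h3 : ξ ∪ ZFSet.omega = ξ := by
        ext x
        rw [ZFSet.mem_union]
        exact ⟨fun h => h.elim id fun h => h2 h, Or.inl⟩
      rwa [h3]
  have hνκ : ∀ ξ ∈ κ, ν ξ ∈ κ := by
    intro ξ hξ
    have h1 := hun hK.ord hξ hK.unc
    obtain ⟨β, hβ, p, hp, hpm, g, hg, hgi⟩ := hK.lim _ h1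
    have hβM := hK.mem_M hM hβ
    have hβo := hK.ord.mem hβ
    have hξM := hK.mem_M hM h1
    refine (nxt_spec hM hξM).2.1.mem_of_subset_of_mem hK.ord (nxt_sub hM hβM hβo fun h5 => ?_) hβ
    exact cantor hM hξM hp hpm (Inj.trans hM hp hξM ⟨g, hg, hgi⟩ h5)
  set E := ZFSet.sep (fun α => ZFSet.omega ∈ α ∧ ∀ ξ ∈ α, ν ξ ∈ α) κ with hE
  have hEM : E ∈ M := by
    refine hM.sep_mem (Q := fun α => ZFSet.omega ∈ α ∧ ∀ ξ ∈ α, ν ξ ∈ α) ?_ hK.mem
    refine (Dfn.mem (DfnF.const hω) (DfnF.proj 0)).and ?_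
    apply hB.ball (DfnF.proj 0)
    exact Dfn.mem (hνd (DfnF.proj 0)) (DfnF.proj 1)
  refine ⟨E, hEM, fun x hx => (ZFSet.mem_sep.1 hx).1, fun α hα => ?_, fun α hα hne h1 => ?_,
    fun α hα hreg => ?_⟩
  · -- unbounded
    obtain ⟨μ, hμ, h1, h2⟩ := hK.two hM (hK.suc hM hα) (hK.suc hM hK.unc)
    obtain ⟨β, hβ, hμβ, hcl⟩ := closure hM hK (E := fun p _ ξ => ∀ u ∈ p, ν (fs (fs u)) ∈ ξ) (by
      apply hB.ball (DfnF.proj 0)
      exact Dfn.mem (hνd (hM.fs' (hM.fs' (DfnF.proj 0)))) (DfnF.proj 3)) (X := {∅})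
      (hM.single_mem hM.empty_mem) ⟨ZFSet.omega, hK.unc, inj_omega_single hM hM.empty_mem⟩ hμ
    have hβo := hK.ord.mem hβ
    have hμs : μ ⊆ β := hβo.subset_of_mem hμβ
    have hωβ : ZFSet.omega ∈ β := hμs (h2 (ZFSet.mem_insert _ _))
    refine ⟨β, ZFSet.mem_sep.2 ⟨hβ, hωβ, fun ξ hξ => ?_⟩, hμs (h1 (ZFSet.mem_insert _ _))⟩
    -- a condition that contains the ordinal
    obtain ⟨ζ, hζ, hξζ, hζ0⟩ : ∃ ζ ∈ β, ξ ⊆ ζ ∧ ∅ ∈ ζ := by
      rcases (hβo.mem hξ).subset_total isOrdinal_omega with h3 | h3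
      · exact ⟨ZFSet.omega, hωβ, h3, ZFSet.omega_zero⟩
      · exact ⟨ξ, hξ, fun _ h => h, h3 ZFSet.omega_zero⟩
    have hp : insert (pair (pair ζ ∅) ∅) ∅ ∈ Col β :=
      col_insert hβo (empty_mem_Col hβo) hζ ZFSet.omega_zero hζ0 fun y =>
        ZFSet.notMem_empty _
    have hζκ := hK.ord.mem_trans hζ hβ
    obtain ⟨p', hp', hpp', η, hη, h3⟩ := hcl _ hp ∅ (ZFSet.mem_singleton.2 rfl)
      ⟨_, col_mono hβo hK.ord (hK.ord.subset_of_mem hβ) hp, fun _ h => h, sc (ν ζ),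
        hK.suc hM (hνκ ζ hζκ), fun u hu => by
          rcases ZFSet.mem_insert_iff.1 hu with rfl | hu
          · rw [fs_pair, fs_pair]
            exact ZFSet.mem_insert _ _
          · exact absurd hu (ZFSet.notMem_empty _)⟩
    have h4 := h3 _ (hpp' (ZFSet.mem_insert _ _))
    rw [fs_pair, fs_pair] at h4
    have h5 : ν ζ ∈ β := hβo.mem_trans h4 hη
    -- monotonicity
    have hξκ := hK.ord.mem_trans hξ hβ
    have h6 := hun hK.ord hξκ hK.unc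
    have h7 := hun hK.ord hζκ hK.unc
    have h8 := nxt_spec hM (hK.mem_M hM h7)
    have h9 : ν ξ ⊆ ν ζ := by
      refine nxt_sub hM h8.1 h8.2.1 fun h10 => h8.2.2 ?_
      refine Inj.trans hM h8.1 (hK.mem_M hM h7) h10 (Inj.of_subset hM (hK.mem_M hM h6)
        (hK.mem_M hM h7) fun x hx => ?_)
      rcases ZFSet.mem_union.1 hx with h11 | h11
      · exact ZFSet.mem_union.2 (Or.inl (hξζ h11))
      · exact ZFSet.mem_union.2 (Or.inr h11)
    exact (nxt_spec hM (hK.mem_M hM h6)).2.1.mem_of_subset_of_mem hβo h9 h5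
  · -- closed
    have hαo := hK.ord.mem hα
    refine ZFSet.mem_sep.2 ⟨hα, ?_, fun ξ hξ => ?_⟩
    · obtain ⟨β, hβ⟩ : ∃ β, β ∈ α := by
        by_contra hcon
        push Not at hcon
        exact hne ((ZFSet.eq_empty α).2 hcon)
      obtain ⟨γ, hγ, hγα, -⟩ := h1 β hβ
      exact hαo.mem_trans (ZFSet.mem_sep.1 hγ).2.1 hγα
    · obtain ⟨γ, hγ, hγα, h2⟩ := h1 ξ hξ
      exact hαo.mem_trans ((ZFSet.mem_sep.1 hγ).2.2 ξ h2) hγα
  · -- no regular element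
    obtain ⟨hακ, hωα, h1⟩ := ZFSet.mem_sep.1 hα
    have hαM := hK.mem_M hM hακ
    have hαo := hK.ord.mem hακ
    refine hmin α hακ ⟨hαM, hαo, hωα, hreg, fun ξ hξ => ?_⟩
    have hξM := hM.trans _ hαM _ hξ
    have h2 := hun hαo hξ hωα
    have h2M := hM.trans _ hαM _ h2
    refine ⟨ν ξ, h1 ξ hξ, pwM M ξ, pwM_mem hM hξM, fun z => mem_pwM, ?_⟩
    exact inj_mono hM (pwM_mem hM hξM) (pwM_mem hM h2M) (nxt_spec hM h2M).1 (fun z hz =>
      mem_pwM.2 ⟨(mem_pwM.1 hz).1, fun x hx => ZFSet.mem_union.2 (Or.inl ((mem_pwM.1 hz).2 hx))⟩)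
      (pw_small hL h2M (hαo.mem h2) fun x hx => ZFSet.mem_union.2 (Or.inr hx))

/-- There is a constructible model with an inaccessible cardinal that is not Mahlo. -/
theorem exists_model {V : Set ZFSet.{0}} (hV : IsZFC V) {κ : ZFSet.{0}}
    (hK : Inaccessible V κ) : ∃ M ⊆ V, (∀ α ∈ V, α.IsOrdinal → α ∈ M) ∧ IsZFC M ∧
      Constructible M ∧ ∃ l, Inaccessible M l ∧ NotMahlo M l := by
  have hZ := hV.toIsZF
  have hl := lcf_empty hZ
  refine ⟨LC V ∅, hl.sub, hl.ord, hl.zfc, constructible_LC hZ, ?_⟩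
  have hne : {α : ZFSet.{0} | Inaccessible (LC V ∅) α}.Nonempty := ⟨κ, inaccessible_L hZ hK⟩
  refine ⟨ZFSet.mem_wf.min _ hne, ZFSet.mem_wf.min_mem _ hne, notMahlo_least hl.la
    (ZFSet.mem_wf.min_mem _ hne) fun α hα h => ZFSet.mem_wf.not_lt_min _ h hα⟩

end Pool.Agent.H660.SU
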