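import Pool.Agent.H660.SU.Nod

/-!
# Decoding
-/

set_option autoImplicit false
set_option linter.unreachableTactic false
set_option linter.unusedTactic false
set_option linter.unusedSectionVars false

namespace Pool.Agent.H660.SU

open Pool.Agent.W868 Pool.Agent.W868.GM Pool.Agent.Y588 Pool.Agent.H637_NO
open ZFSet (pair)

theorem mem_rs {c ξ p : ZFSet.{0}} : p ∈ rs c ξ ↔ p ∈ c ∧ fs p ∈ ξ := ZFSet.mem_sep

/-- A reshaped sequence of reals of length `ω₁` that captures all reals. -/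
structure RS (N : Set ZFSet.{0}) (e : ZFSet.{0} → ZFSet.{0}) (κ D g : ZFSet.{0}) : Prop where
  zf : IsZF N
  gc : GC N e
  κ_mem : κ ∈ N
  κ_ord : κ.IsOrdinal
  κ_ctb : ∀ α ∈ κ, Inj N α ZFSet.omega
  κ_unc : ¬ Inj N κ ZFSet.omega
  D_mem : D ∈ N
  D_sub : D ⊆ ZFSet.prod κ oo
  cod : ∀ α ∈ κ, ∃ r ∈ PW N, r ∈ LC N (rs D α) ∧ Cod r α
  all : ∀ y ∈ PW N, ∃ α ∈ κ, y ∈ LC N (rs D α)
  few : ∀ x, HCt N x → ∃ S ∈ N, Inj N S ZFSet.omega ∧ ∀ y ∈ PW N, y ∈ LC N x → y ∈ S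
  g_mem : g ∈ LC N ∅
  g_inj : ∃ Q, (∀ u, u ∈ Q ↔ IsQ u) ∧ IsInj Q ZFSet.omega g

section

variable {N : Set ZFSet.{0}} (hN : IsZF N)

include hN

theorem lcf_empty : Lcf N ∅ :=
  Cs.lcf hN ⟨hN.empty_mem, ∅, hN.empty_mem, ZFSet.isOrdinal_empty, ZFSet.empty_subset _⟩

theorem cs_of_sub {A B : ZFSet.{0}} (hA : A ∈ N) (hB : B ∈ LC N ∅) (h : A ⊆ B) : Cs N A := by
  obtain ⟨δ, h1, h2, h3⟩ := hB
  exact ⟨hA, δ, h1, h2, fun x hx => Lv_trans _ _ h3 _ (h hx)⟩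

theorem cs_oo {z : ZFSet.{0}} (hz : z ∈ PW N) : Cs N z :=
  cs_of_sub hN (mem_PW.1 hz).1 (oo_mem (lcf_empty hN).zf) (mem_PW.1 hz).2

theorem LC_empty_sub {A : ZFSet.{0}} (h : Lcf N A) : LC N ∅ ⊆ LC N A :=
  h.trans hN h.zf.empty_mem

end

section

variable {N : Set ZFSet.{0}} {e : ZFSet.{0} → ZFSet.{0}} {κ D g : ZFSet.{0}}
  (R : RS N e κ D g)

include R

theorem RS.gp : Gp N g := ⟨(lcf_empty R.zf).sub R.g_mem, R.g_inj⟩

theorem RS.rs_mem (α : ZFSet.{0}) (hα : α ∈ N) : rs D α ∈ N :=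
  rs_mem_M R.zf R.D_mem hα

theorem RS.mem_of {α : ZFSet.{0}} (hα : α ∈ κ) : α ∈ N := R.zf.trans _ R.κ_mem _ hα

theorem RS.cs (α : ZFSet.{0}) (hα : α ∈ N) : Cs N (rs D α) := by
  have h := lcf_empty R.zf
  refine cs_of_sub R.zf (R.rs_mem α hα) (h.zf.prod_mem (h.ord κ R.κ_mem R.κ_ord)
    (oo_mem h.zf)) fun x hx => R.D_sub (mem_rs.1 hx).1

theorem RS.lcf (α : ZFSet.{0}) (hα : α ∈ N) : Lcf N (rs D α) := (R.cs α hα).lcf R.zf

theorem RS.mono {α β : ZFSet.{0}} (hα : α ∈ N) (hβ : β ∈ N) (hαo : α.IsOrdinal)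
    (h : α ⊆ β) : LC N (rs D α) ⊆ LC N (rs D β) := by
  have hl := R.lcf β hβ
  refine hl.trans R.zf ?_
  have h1 : rs D α = rs (rs D β) α := by
    ext x
    rw [mem_rs, mem_rs, mem_rs]
    exact ⟨fun h2 => ⟨⟨h2.1, h h2.2⟩, h2.2⟩, fun h2 => ⟨h2.1.1, h2.2⟩⟩
  rw [h1]
  exact rs_mem_M hl.zf hl.mem (hl.ord α hα hαo)

theorem RS.hct_rs {α : ZFSet.{0}} (hα : α ∈ κ) : HCt N (rs D α) := by
  have hN := R.zf
  have hαM := R.mem_of hα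
  have hαo := R.κ_ord.mem hα
  have h1 : HCt N α := by
    refine ⟨insert α α, hN.insert_mem hαM hαM, fun x hx y hy => ?_, ZFSet.mem_insert _ _,
      inj_omega_insert hN hαM hαM (R.κ_ctb α hα)⟩
    rcases ZFSet.mem_insert_iff.1 hx with rfl | hx
    · exact ZFSet.mem_insert_of_mem _ hy
    · exact ZFSet.mem_insert_of_mem _ (hαo.mem_trans hy hx)
  refine HCt.sub hN (HCg.HCt.prod hN h1 (hCt_oo hN)) (R.rs_mem α hαM) fun x hx => ?_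
  obtain ⟨h2, h3⟩ := mem_rs.1 hx
  obtain ⟨a, ha, b, hb, rfl⟩ := ZFSet.mem_prod.1 (R.D_sub h2)
  rw [fs_pair] at h3
  exact ZFSet.pair_mem_prod.2 ⟨h3, hb⟩

/-- The set of the promises. -/
noncomputable def Pr (N : Set ZFSet.{0}) (κ D : ZFSet.{0}) : ZFSet.{0} :=
  ZFSet.sep (fun v => ∃ α ∈ κ, fs v ∈ LC N (rs D α) ∧ (fs v ∈ PW N ∧ Cod (fs v) α) ∧
    pair α (sn v) ∉ D) (ZFSet.prod (PW N) oo)

omit R in
theorem mem_Pr {r q : ZFSet.{0}} : pair r q ∈ Pr N κ D ↔ r ∈ PW N ∧ q ∈ oo ∧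
    ∃ α ∈ κ, r ∈ LC N (rs D α) ∧ Cod r α ∧ pair α q ∉ D := by
  unfold Pr
  rw [ZFSet.mem_sep, ZFSet.pair_mem_prod, fs_pair, sn_pair]
  constructor
  · rintro ⟨⟨h1, h2⟩, α, hα, h3, h4, h5⟩
    exact ⟨h1, h2, α, hα, h3, h4.2, h5⟩
  · rintro ⟨h1, h2, α, hα, h3, h4, h5⟩
    exact ⟨⟨h1, h2⟩, α, hα, h3, ⟨h1, h4⟩, h5⟩

theorem RS.Pr_mem : Pr N κ D ∈ N := by
  have hN := R.zf
  have hB := hN.base
  refine hN.sep_mem (Q := fun v => ∃ α ∈ κ, fs v ∈ LC N (rs D α) ∧ (fs v ∈ PW N ∧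
    Cod (fs v) α) ∧ pair α (sn v) ∉ D) ?_ (hN.prod_mem (PW_mem hN) (oo_mem hN))
  apply hB.bex (DfnF.const R.κ_mem)
  refine (dfn_memLC hN (hN.fs' (DfnF.proj 1)) (dfn_rs hN (DfnF.const R.D_mem)
    (DfnF.proj 0))).and ((dfn_Cod hN hCg (hN.fs' (DfnF.proj 1)) (DfnF.proj 0)).and ?_)
  exact (Dfn.mem (hB.pair' (DfnF.proj 0) (hN.sn' (DfnF.proj 1))) (DfnF.const R.D_mem)).not

/-- The point `z` codes the sequence up to `α₀`. -/
def Good (N : Set ZFSet.{0}) (D g z α₀ : ZFSet.{0}) : Prop :=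
  ∀ α ∈ α₀, ∀ r ∈ PW N, r ∈ LC N (rs D α) → Cod r α → ∀ q ∈ oo,
    (pair α q ∈ D ↔ ∀ m ∈ ZFSet.omega, ∃ k ∈ ZFSet.omega, m ∈ k ∧ el g r q k ∈ z)

/-- The next real of the sequence, as decoded in `W`. -/
noncomputable def Nx (W : Set ZFSet.{0}) (g z ξ d : ZFSet.{0}) : ZFSet.{0} :=
  ZFSet.sep (fun q => ∃ r ∈ PW W, r ∈ LC W d ∧ (r ∈ PW W ∧ Cod r ξ) ∧
    ∀ m ∈ ZFSet.omega, ∃ k ∈ ZFSet.omega, m ∈ k ∧ el g r q k ∈ z) oo

theorem RS.decode {z α₀ : ZFSet.{0}} (hz : z ∈ PW N) (hα₀ : α₀ ∈ κ) (h : Good N D g z α₀) :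
    rs D α₀ ∈ LC N z := by
  have hN := R.zf
  have hl : Lcf N z := (cs_oo hN hz).lcf hN
  set W := LC N z with hW
  have hWz := hl.zf
  have hB := hWz.base
  have hzW : z ∈ W := hl.mem
  have hgW : Gp W g := ⟨LC_empty_sub hN hl R.g_mem, R.g_inj⟩
  have hPWW := PW_mem hWz
  have hNx : DfnF W W fun w : Fin 2 → ZFSet.{0} => Nx W g z (w 0) (w 1) := by
    refine hWz.sep' (Q := fun q w => ∃ r ∈ PW W, r ∈ LC W (w 1) ∧ (r ∈ PW W ∧ Cod r (w 0)) ∧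
      ∀ m ∈ ZFSet.omega, ∃ k ∈ ZFSet.omega, m ∈ k ∧ el g r q k ∈ z) (DfnF.const (oo_mem hWz)) ?_
    apply hB.bex (DfnF.const hPWW)
    refine (dfn_memLC hWz (DfnF.proj 0) (DfnF.proj 3)).and
      ((dfn_Cod hWz hCg (DfnF.proj 0) (DfnF.proj 2)).and ?_)
    apply hB.ball (DfnF.const hWz.infinity)
    apply hB.bex (DfnF.const hWz.infinity)
    refine (Dfn.mem (DfnF.proj 1) (DfnF.proj 0)).and (Dfn.mem ?_ (DfnF.const hzW))
    exact dfn_el hWz hgW (DfnF.proj 2) (DfnF.proj 3) (DfnF.proj 0)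
  set G : ZFSet.{0} → ZFSet.{0} → ZFSet.{0} := fun _ f => ZFSet.sUnion (im (fun u =>
    im (fun q => pair (fs u) q) (Nx W g z (fs u) (sn u))) f) with hG
  have hGd : DfnF W W fun w : Fin 2 → ZFSet.{0} => G (w 0) (w 1) := by
    refine hB.sUnion' (hWz.im' (h := fun u _ => im (fun q => pair (fs u) q)
      (Nx W g z (fs u) (sn u))) (DfnF.proj 1) ?_)
    refine hWz.im' (h := fun q w => pair (fs (w 0)) q) (DfnF.comp2 (f := Nx W g z) hNx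
      (hWz.fs' (DfnF.proj 0)) (hWz.sn' (DfnF.proj 0))) ?_
    exact hB.pair' (hWz.fs' (DfnF.proj 1)) (DfnF.proj 0)
  set Φ : ZFSet.{0} → ZFSet.{0} := wfF (fun z => z) ZFSet.mem_wf G with hΦ
  have hΦeq : ∀ z, Φ z = G z (gr Φ z) := fun z => wfF_eq _ _ _ z
  have hΦd : DfnF W W fun w : Fin 1 → ZFSet.{0} => Φ (w 0) := hWz.memrec hGd hΦeq
  have hmem : ∀ α x, x ∈ Φ α ↔ ∃ ξ ∈ α, ∃ q ∈ Nx W g z ξ (Φ ξ), x = pair ξ q := by
    intro α x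
    rw [hΦeq, hG, ZFSet.mem_sUnion]
    constructor
    · rintro ⟨y, hy, hx⟩
      obtain ⟨u, hu, rfl⟩ := mem_im.1 hy
      obtain ⟨ξ, hξ, rfl⟩ := mem_gr.1 hu
      obtain ⟨q, hq, rfl⟩ := mem_im.1 hx
      rw [fs_pair, sn_pair] at hq
      rw [fs_pair]
      exact ⟨ξ, hξ, q, hq, rfl⟩
    · rintro ⟨ξ, hξ, q, hq, rfl⟩
      refine ⟨_, mem_im.2 ⟨_, mem_gr.2 ⟨ξ, hξ, rfl⟩, rfl⟩, mem_im.2 ⟨q, ?_, ?_⟩⟩
      · rwa [fs_pair, sn_pair]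
      · rw [fs_pair]
  have hα₀o := R.κ_ord.mem hα₀
  have hWN : W ⊆ N := hl.sub
  have hcon : ∀ A, LC W A = LC N A := fun A => LC_congr hWN hl.ord
  have key : ∀ α : ZFSet.{0}, α ⊆ α₀ → α ∈ N → α.IsOrdinal → Φ α = rs D α := by
    intro α
    induction α using ZFSet.inductionOn with
    | _ α ih =>
    intro hα hαN hαo
    have hξ : ∀ ξ ∈ α, ξ ∈ α₀ ∧ Φ ξ = rs D ξ ∧ ξ ∈ N := by
      intro ξ hξ
      have h1 := hα hξ
      have h2 := hN.trans _ hαN _ hξ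
      exact ⟨h1, ih ξ hξ (hα₀o.subset_of_mem h1) h2 (hαo.mem hξ), h2⟩
    ext x
    rw [hmem, mem_rs]
    constructor
    · rintro ⟨ξ, hξα, q, hq, rfl⟩
      obtain ⟨h1, h2, h3⟩ := hξ ξ hξα
      rw [h2] at hq
      obtain ⟨hqo, r, hr, h4, h5, h6⟩ := ZFSet.mem_sep.1 hq
      rw [hcon] at h4
      have hrN : r ∈ PW N := mem_PW.2 ⟨hWN (mem_PW.1 hr).1, (mem_PW.1 hr).2⟩
      refine ⟨(h ξ h1 r hrN h4 h5.2 q hqo).2 h6, ?_⟩
      rwa [fs_pair]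
    · rintro ⟨hx, hxα⟩
      obtain ⟨ξ, hξκ, q, hq, rfl⟩ := ZFSet.mem_prod.1 (R.D_sub hx)
      rw [fs_pair] at hxα
      obtain ⟨h1, h2, h3⟩ := hξ ξ hxα
      obtain ⟨r, hr, h4, h5⟩ := R.cod ξ hξκ
      have h6 : rs D ξ ∈ W := by
        rw [← h2]
        exact hΦd.1 (fun _ => ξ) fun _ => hl.ord ξ h3 (hαo.mem hxα)
      have h7 : r ∈ W := hl.trans hN h6 h4
      refine ⟨ξ, hxα, q, ZFSet.mem_sep.2 ⟨hq, r, mem_PW.2 ⟨h7, (mem_PW.1 hr).2⟩, ?_,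
        ⟨mem_PW.2 ⟨h7, (mem_PW.1 hr).2⟩, h5⟩, (h ξ h1 r hr h4 h5 q hq).1 hx⟩, rfl⟩
      rw [hcon, h2]
      exact h4
  have h1 := key α₀ (fun _ h => h) (R.mem_of hα₀) hα₀o
  rw [← h1]
  exact hΦd.1 (fun _ => α₀) fun _ => hl.ord α₀ (R.mem_of hα₀) hα₀o

/-- The topology. -/
theorem RS.tp : Tp N e (Pd (Pr N κ D)) (Ld g) (Od g) cd' (ZFSet.prod (FS oo) (FS oo)) :=
  SU.tp R.zf R.gc R.gp R.Pr_mem

theorem RS.good {α₀ : ZFSet.{0}} (hα₀ : α₀ ∈ κ) :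
    ∃ E ∈ N, Cf N (Pd (Pr N κ D)) (Ld g) E ∧ ∀ z ∈ PW N, Gn (Od g) E z → Good N D g z α₀ := by
  have hN := R.zf
  have hB := hN.base
  have hg := R.gp
  have hPr := R.Pr_mem
  have hPM := Pd_mem hN hPr
  have hoo := oo_mem hN
  have hω := hN.infinity
  have hα₀N := R.mem_of hα₀
  have hα₀o := R.κ_ord.mem hα₀
  obtain ⟨S', hS', hS'i, hS'a⟩ := R.few _ (R.hct_rs hα₀)
  set S := ZFSet.sep (fun r => r ∈ PW N) S' with hS
  have hSM : S ∈ N := hN.sep_mem (Q := fun r => r ∈ PW N)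
    (Dfn.mem (DfnF.proj 0) (DfnF.const (PW_mem hN))) hS'
  have hSi : Inj N S ZFSet.omega :=
    inj_omega_sub hN hSM hS' (fun x hx => (ZFSet.mem_sep.1 hx).1) hS'i
  have hSa : ∀ α ∈ α₀, ∀ r ∈ PW N, r ∈ LC N (rs D α) → r ∈ S := by
    intro α hα r hr h1
    refine ZFSet.mem_sep.2 ⟨hS'a r hr ?_, hr⟩
    exact R.mono (hN.trans _ hα₀N _ hα) hα₀N (hα₀o.mem hα) (hα₀o.subset_of_mem hα) h1
  have hSo : ZFSet.prod S oo ∈ N := hN.prod_mem hSM hoo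
  have hSoi : Inj N (ZFSet.prod S oo) ZFSet.omega := by
    exact Inj.trans hN hSo hω (Inj.prod hN hSM hoo hω hω hSi (oo_countable hN)) (inj_omega_sq hN)
  have hSoo : ZFSet.prod (ZFSet.prod S oo) ZFSet.omega ∈ N := hN.prod_mem hSo hω
  have hSooi : Inj N (ZFSet.prod (ZFSet.prod S oo) ZFSet.omega) ZFSet.omega := by
    exact Inj.trans hN hSoo hω (Inj.prod hN hSo hω hω hω hSoi
      (Inj.of_subset hN hω hω fun _ h => h)) (inj_omega_sq hN)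
  -- the dense sets
  set D1 : ZFSet.{0} → ZFSet.{0} := fun v => ZFSet.sep (fun p => v ∈ Pr N κ D →
    v ∈ sn (sn p)) (Pd (Pr N κ D)) with hD1
  have hD1d : DfnF N N fun w : Fin 1 → ZFSet.{0} => D1 (w 0) := by
    refine hN.sep' (Q := fun p w => w 0 ∈ Pr N κ D → w 0 ∈ sn (sn p)) (DfnF.const hPM) ?_
    exact (Dfn.mem (DfnF.proj 1) (DfnF.const hPr)).imp
      (Dfn.mem (DfnF.proj 1) (hN.sn' (hN.sn' (DfnF.proj 0))))
  set D2 : ZFSet.{0} → ZFSet.{0} := fun u => ZFSet.sep (fun p => fs u ∈ Pr N κ D ∨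
    ∃ k ∈ ZFSet.omega, sn u ∈ k ∧ el g (fs (fs u)) (sn (fs u)) k ∈ fs (sn p))
    (Pd (Pr N κ D)) with hD2
  have hD2d : DfnF N N fun w : Fin 1 → ZFSet.{0} => D2 (w 0) := by
    refine hN.sep' (Q := fun p w => fs (w 0) ∈ Pr N κ D ∨ ∃ k ∈ ZFSet.omega, sn (w 0) ∈ k ∧
      el g (fs (fs (w 0))) (sn (fs (w 0))) k ∈ fs (sn p)) (DfnF.const hPM) ?_
    apply Dfn.or (Dfn.mem (hN.fs' (DfnF.proj 1)) (DfnF.const hPr))
    apply hB.bex (DfnF.const hω)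
    refine (Dfn.mem (hN.sn' (DfnF.proj 2)) (DfnF.proj 0)).and (Dfn.mem ?_
      (hN.fs' (hN.sn' (DfnF.proj 1))))
    exact dfn_el hN hg (hN.fs' (hN.fs' (DfnF.proj 2))) (hN.sn' (hN.fs' (DfnF.proj 2)))
      (DfnF.proj 0)
  have hF1 : ∀ v, Dns (Pd (Pr N κ D)) (Ld g) (D1 v) := by
    intro v
    refine ⟨fun x hx => (ZFSet.mem_sep.1 hx).1, fun p hp => ?_⟩
    obtain ⟨E, s, F, rfl, hE, hs, hF⟩ := mem_Pd.1 hp
    by_cases hv : v ∈ Pr N κ D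
    · refine ⟨pair E (pair s (insert v F)), ZFSet.mem_sep.2 ⟨mem_Pd.2 ⟨_, _, _, rfl, hE, hs,
        FS_insert hv hF⟩, fun _ => ?_⟩, ?_⟩
      · rw [sn_pair, sn_pair]
        exact ZFSet.mem_insert _ _
      · unfold Ld
        simp only [fs_pair, sn_pair]
        exact ⟨fun _ h => h, fun _ _ => trivial, fun x hx => ZFSet.mem_insert_of_mem _ hx,
          fun x hx _ _ _ => hs hx⟩
    · exact ⟨_, ZFSet.mem_sep.2 ⟨hp, fun h => absurd h hv⟩, Ld.refl (by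
        rwa [sn_pair, fs_pair, fs_pair])⟩
  have hF2 : ∀ u ∈ ZFSet.prod (ZFSet.prod S oo) ZFSet.omega,
      Dns (Pd (Pr N κ D)) (Ld g) (D2 u) := by
    intro u hu
    refine ⟨fun x hx => (ZFSet.mem_sep.1 hx).1, fun p hp => ?_⟩
    obtain ⟨v, hv, m, hm, rfl⟩ := ZFSet.mem_prod.1 hu
    obtain ⟨r, hr, q, hq, rfl⟩ := ZFSet.mem_prod.1 hv
    obtain ⟨m, rfl⟩ := mem_omega_iff.1 hm
    have hrP : r ∈ PW N := (ZFSet.mem_sep.1 hr).2
    obtain ⟨E, s, F, rfl, hE, hs, hF⟩ := mem_Pd.1 hp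
    by_cases hvP : pair r q ∈ Pr N κ D
    · refine ⟨_, ZFSet.mem_sep.2 ⟨hp, Or.inl ?_⟩, Ld.refl (by rwa [sn_pair, fs_pair, fs_pair])⟩
      rwa [fs_pair]
    · -- a new node
      have hfin1 : {k : ℕ | el g r q (nat k) ∈ E}.Finite := hg.finite_hit hq (mem_FS.1 hE).2
      have hfin2 : (⋃ v ∈ {v : ZFSet.{0} | v ∈ F}, {k : ℕ | Av g v (el g r q (nat k))}).Finite := by
        refine (mem_FS.1 hF).2.biUnion fun v hv => ?_
        have hvP' : v ∈ Pr N κ D := (mem_FS.1 hF).1 hv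
        obtain ⟨r', hr', q', hq', rfl⟩ := ZFSet.mem_prod.1 (ZFSet.mem_sep.1 hvP').1
        refine hg.ad (mem_PW.1 hrP).2 hq ⟨r', q', (mem_PW.1 hr').2, hq', rfl⟩ fun h => ?_
        rw [h] at hvP'
        exact hvP hvP'
      obtain ⟨k, hk1, hk2⟩ : ∃ k : ℕ, m < k ∧ k ∉ {k : ℕ | el g r q (nat k) ∈ E} ∪
          ⋃ v ∈ {v : ZFSet.{0} | v ∈ F}, {k : ℕ | Av g v (el g r q (nat k))} := by
        obtain ⟨b, hb⟩ := (hfin1.union hfin2).bddAbove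
        refine ⟨max b m + 1, by omega, fun h => ?_⟩
        have := hb h
        omega
      have hk3 : el g r q (nat k) ∉ E := fun h => hk2 (Or.inl h)
      have hk4 : ∀ v ∈ F, ¬ Av g v (el g r q (nat k)) := fun v hv h =>
        hk2 (Or.inr (Set.mem_biUnion (x := v) hv h))
      have hx : el g r q (nat k) ∈ oo := hg.el_mem hq (nat_mem_omega k)
      refine ⟨pair (insert (el g r q (nat k)) E) (pair (insert (el g r q (nat k)) s) F),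
        ZFSet.mem_sep.2 ⟨mem_Pd.2 ⟨_, _, _, rfl, FS_insert hx hE, fun y hy => ?_, hF⟩,
          Or.inr ⟨nat k, nat_mem_omega k, ?_, ?_⟩⟩, ?_⟩
      · rcases ZFSet.mem_insert_iff.1 hy with rfl | hy
        · exact ZFSet.mem_insert _ _
        · exact ZFSet.mem_insert_of_mem _ (hs hy)
      · rw [sn_pair]
        exact Pool.Agent.R597.nat_mem_nat.2 hk1
      · simp only [fs_pair, sn_pair]
        exact ZFSet.mem_insert _ _
      · unfold Ld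
        simp only [fs_pair, sn_pair]
        refine ⟨fun y hy => ZFSet.mem_insert_of_mem _ hy, fun y hy => ?_, fun _ h => h,
          fun y hy v hv hA => ?_⟩
        · rw [ZFSet.mem_insert_iff]
          refine ⟨?_, Or.inr⟩
          rintro (rfl | h)
          · exact absurd hy hk3
          · exact h
        · rcases ZFSet.mem_insert_iff.1 hy with rfl | hy
          · exact absurd hA (hk4 v hv)
          · exact hs hy
  have hE1 : im D1 (ZFSet.prod S oo) ∈ N := hN.im_mem hSo hD1d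
  have hE2 : im D2 (ZFSet.prod (ZFSet.prod S oo) ZFSet.omega) ∈ N := hN.im_mem hSoo hD2d
  refine ⟨im D1 (ZFSet.prod S oo) ∪ im D2 (ZFSet.prod (ZFSet.prod S oo) ZFSet.omega),
    hN.union_mem hE1 hE2, R.tp.cf_union hE1 hE2 ⟨Inj.image hN hSo hω isOrdinal_omega hSoi hD1d,
      fun X hX => ?_⟩ ⟨Inj.image hN hSoo hω isOrdinal_omega hSooi hD2d, fun X hX => ?_⟩,
    fun z hz hgn α hα r hr h1 h2 q hq => ?_⟩
  · obtain ⟨v, -, rfl⟩ := mem_im.1 hX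
    exact hF1 v
  · obtain ⟨v, hv, rfl⟩ := mem_im.1 hX
    exact hF2 v hv
  · have hrS := hSa α hα r hr h1
    have hv : pair r q ∈ ZFSet.prod S oo := ZFSet.pair_mem_prod.2 ⟨hrS, hq⟩
    constructor
    · intro hD m hm
      have hvP : pair r q ∉ Pr N κ D := by
        intro h3
        obtain ⟨-, -, α', hα', -, h4, h5⟩ := mem_Pr.1 h3
        rw [HCg.cod_unique h4 h2] at h5
        exact h5 hD
      obtain ⟨p, hp, hpz⟩ := hgn (D2 (pair (pair r q) m)) (ZFSet.mem_union.2 (Or.inr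
        (mem_im.2 ⟨_, ZFSet.pair_mem_prod.2 ⟨hv, hm⟩, rfl⟩)))
      obtain ⟨hpP, h3⟩ := ZFSet.mem_sep.1 hp
      simp only [fs_pair, sn_pair] at h3
      rcases h3 with h3 | ⟨k, hk, h4, h5⟩
      · exact absurd h3 hvP
      · refine ⟨k, hk, h4, ?_⟩
        obtain ⟨E, s, F, rfl, hE, hs, hF⟩ := mem_Pd.1 hpP
        unfold Od at hpz
        simp only [fs_pair, sn_pair] at hpz h5
        exact (hpz.1 _ (hs h5)).2 h5
    · intro hinf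
      by_contra hD
      have hvP : pair r q ∈ Pr N κ D := mem_Pr.2 ⟨hr, hq, α, by
        exact R.κ_ord.mem_trans hα hα₀, h1, h2, hD⟩
      obtain ⟨p, hp, hpz⟩ := hgn (D1 (pair r q)) (ZFSet.mem_union.2 (Or.inl
        (mem_im.2 ⟨_, hv, rfl⟩)))
      obtain ⟨hpP, h3⟩ := ZFSet.mem_sep.1 hp
      have h4 := h3 hvP
      obtain ⟨E, s, F, rfl, hE, hs, hF⟩ := mem_Pd.1 hpP
      unfold Od at hpz
      simp only [fs_pair, sn_pair] at hpz h4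
      obtain ⟨b, hb⟩ := (hg.finite_hit (r := r) hq (mem_FS.1 hE).2).bddAbove
      obtain ⟨k, hk, h5, h6⟩ := hinf (nat b) (nat_mem_omega b)
      obtain ⟨k, rfl⟩ := mem_omega_iff.1 hk
      have h7 := hpz.2 _ h4 _ h6 ⟨nat k, hk, by rw [fs_pair, sn_pair]⟩
      have h8 := hb h7
      have h9 := Pool.Agent.R597.nat_mem_nat.1 h5
      omega

end

end Pool.Agent.H660.SU
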