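import Pool.Graph.R_pool_sql_team_seeded_620a6dc7.H637_NO.Defs

/-!
# Projective uniformization up to proper ideals in Solovay's model: the definitions

The library files `Pool.Agent.W868.Defs`, `Pool.Agent.W868.GM.Dfs` and `Pool.Agent.H637_NO.St`
contain: transitive models of ZFC (`IsZFC`), notions of forcing (`IsForcing`), generic filters
(`IsGeneric`) and generic extensions (`ext`) of countable transitive models, formulas of second
order arithmetic (`Fm`) and their truth for the reals of a model (`Tr (Reals N)`), and proper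
notions of forcing (`Proper`).

The Polish space in the counterexample is the Cantor space of all subsets of `ω × ω`. Inside a
model `N` it is the set `PW N` of all subsets of `oo = ω × ω` in `N`. A real `x : ℕ → ℕ`
represents the point `rw' x = {(m, n) | x ⟨m, n⟩ = 0}`, where `⟨m, n⟩` is the pairing function.
-/

set_option autoImplicit false

namespace Pool.Agent.H660.SU

open Pool.Agent.W868 Pool.Agent.W868.GM Pool.Agent.H637_NO
open ZFSet (pair)

/-! ### Inaccessible cardinals and the Levy collapse -/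

/-- In the transitive model `M`, the set `κ` is an inaccessible cardinal: it is an ordinal larger
than `ω`, it is regular (each function of `M` from an element of `κ` to `κ` is bounded in `κ`),
and it is a strong limit (for `α < κ`, the power set of `α` injects into some `β < κ`). -/
structure Inaccessible (M : Set ZFSet.{0}) (κ : ZFSet.{0}) : Prop where
  mem : κ ∈ M
  ord : κ.IsOrdinal
  unc : ZFSet.omega ∈ κ
  reg : ∀ α ∈ κ, ∀ f ∈ M, ZFSet.IsFunc α κ f → ∃ β ∈ κ, ∀ x y, pair x y ∈ f → y ∈ β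
  lim : ∀ α ∈ κ, ∃ β ∈ κ, ∃ p ∈ M, (∀ z, z ∈ p ↔ z ∈ M ∧ z ⊆ α) ∧ ∃ g ∈ M, IsInj p β g

/-- In the transitive model `M`, the ordinal `α` is regular: each function of `M` from an element
of `α` to `α` is bounded in `α`. -/
def Reg (M : Set ZFSet.{0}) (α : ZFSet.{0}) : Prop :=
  ∀ δ ∈ α, ∀ f ∈ M, ZFSet.IsFunc δ α f → ∃ β ∈ α, ∀ x y, pair x y ∈ f → y ∈ β

/-- In the transitive model `M`, the cardinal `κ` is not a Mahlo cardinal: some closed unbounded
subset `E` of `κ` in `M` has no regular element. -/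
def NotMahlo (M : Set ZFSet.{0}) (κ : ZFSet.{0}) : Prop :=
  ∃ E ∈ M, E ⊆ κ ∧ (∀ α ∈ κ, ∃ β ∈ E, α ∈ β) ∧
    (∀ α ∈ κ, α ≠ ∅ → (∀ β ∈ α, ∃ γ ∈ E, γ ∈ α ∧ β ∈ γ) → α ∈ E) ∧ ∀ α ∈ E, ¬ Reg M α

/-- The transitive model `M` of ZF satisfies `V = L`: it is minimal among the transitive models
of ZF with the same ordinals. -/
def Constructible (M : Set ZFSet.{0}) : Prop :=
  ∀ W ⊆ M, IsZF W → (∀ α ∈ M, α.IsOrdinal → α ∈ W) → W = M

/-- The Levy collapse `Col(ω, <κ)`: the set of all finite functions `p` with domain contained in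
`κ × ω` and with `p (α, n) ∈ α` for all `(α, n)` in the domain. -/
noncomputable def Col (κ : ZFSet.{0}) : ZFSet.{0} :=
  ZFSet.sep (fun p => {u : ZFSet.{0} | u ∈ p}.Finite ∧
    (∀ u ∈ p, ∃ α ∈ κ, ∃ n ∈ ZFSet.omega, ∃ ξ ∈ α, u = pair (pair α n) ξ) ∧
    ∀ a b c, pair a b ∈ p → pair a c ∈ p → b = c)
    (ZFSet.powerset (ZFSet.prod (ZFSet.prod κ ZFSet.omega) κ))

/-- The order of the Levy collapse: `pair p q` is in it if `p` is stronger than `q`, that is, if
`p` extends `q`. -/
noncomputable def ColLe (κ : ZFSet.{0}) : ZFSet.{0} :=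
  ZFSet.sep (fun u => ∃ p q, u = pair p q ∧ q ⊆ p) (ZFSet.prod (Col κ) (Col κ))

/-! ### Borel sets and ideals in a model -/

/-- In the model `N`, the set `S` is a sigma-algebra on the Cantor space `PW N` that contains the
subbasic clopen sets `{z | q ∈ z}`, for `q ∈ ω × ω`. -/
def IsSigmaAlg (N : Set ZFSet.{0}) (S : ZFSet.{0}) : Prop :=
  (∀ B ∈ S, B ⊆ PW N) ∧ (∀ q ∈ oo, ZFSet.sep (fun z => q ∈ z) (PW N) ∈ S) ∧
    (∀ B ∈ S, PW N \ B ∈ S) ∧
    ∀ W ∈ N, W ⊆ S → (∃ f ∈ N, IsInj W ZFSet.omega f) → (ZFSet.sUnion W : ZFSet.{0}) ∈ S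

/-- In the model `N`, the set `B` is a Borel subset of the Cantor space `PW N`: it belongs to all
sigma-algebras that contain the subbasic clopen sets. -/
def IsBorel (N : Set ZFSet.{0}) (B : ZFSet.{0}) : Prop := ∀ S ∈ N, IsSigmaAlg N S → B ∈ S

/-- In the model `N`, the set `I` is a sigma-ideal on the Borel subsets of the Cantor space that
contains all singletons. -/
structure IsSigmaIdeal (N : Set ZFSet.{0}) (I : ZFSet.{0}) : Prop where
  mem : I ∈ N
  bor : ∀ B ∈ I, IsBorel N B
  down : ∀ B ∈ I, ∀ C, IsBorel N C → C ⊆ B → C ∈ I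
  union : ∀ W ∈ N, W ⊆ I → (∃ f ∈ N, IsInj W ZFSet.omega f) → (ZFSet.sUnion W : ZFSet.{0}) ∈ I
  single : ∀ z ∈ PW N, ({z} : ZFSet.{0}) ∈ I

/-- The notion of forcing `P_I` of the model `N`: the set of the Borel sets that are not in `I`. -/
noncomputable def PI (N : Set ZFSet.{0}) (I : ZFSet.{0}) : ZFSet.{0} :=
  ZFSet.sep (fun B => IsBorel N B ∧ B ∉ I) (ZFSet.powerset (PW N))

/-- The order of `P_I`: `pair B C` is in it (`B` is stronger than `C`) if `B ⊆ C`. -/
noncomputable def PILe (N : Set ZFSet.{0}) (I : ZFSet.{0}) : ZFSet.{0} :=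
  ZFSet.sep (fun u => ∃ B C, u = pair B C ∧ B ⊆ C) (ZFSet.prod (PI N I) (PI N I))

/-- In the model `N`, the notion of forcing `P_I` satisfies the countable chain condition: all
sets `A` of conditions such that no condition is stronger than two elements of `A` are
countable. -/
def CCC (N : Set ZFSet.{0}) (I : ZFSet.{0}) : Prop :=
  ∀ A ∈ N, A ⊆ PI N I →
    (∀ B ∈ A, ∀ C ∈ A, B ≠ C → ¬ ∃ D ∈ PI N I, D ⊆ B ∧ D ⊆ C) → ∃ f ∈ N, IsInj A ZFSet.omega f

/-! ### Projective uniformization up to an ideal -/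

/-- The projective relation on the Cantor space of the model `N` that is given by the formula `φ`
of second order arithmetic and by the parameters `p`. -/
def Prj (N : Set ZFSet.{0}) {m : ℕ} (φ : Fm (m + 2) 0) (p : Fin m → Reals N)
    (x y : ZFSet.{0}) : Prop :=
  ∃ x' y' : Reals N, rw' x'.1 = x ∧ rw' y'.1 = y ∧
    Tr (Reals N) φ (Fin.cons x' (Fin.cons y' p))

/-- In the model `N`, `f` is a Borel measurable function from `B` to the Cantor space: the
preimages of the subbasic clopen sets are Borel sets. -/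
def IsBorelFun (N : Set ZFSet.{0}) (B f : ZFSet.{0}) : Prop :=
  f ∈ N ∧ ZFSet.IsFunc B (PW N) f ∧
    ∀ q ∈ oo, IsBorel N (ZFSet.sep (fun z => ∃ y, pair z y ∈ f ∧ q ∈ y) B)

/-- In the model `N`, projective uniformization up to the ideal `I` holds. -/
def ProjUnif (N : Set ZFSet.{0}) (I : ZFSet.{0}) : Prop :=
  ∀ (m : ℕ) (φ : Fm (m + 2) 0) (p : Fin m → Reals N), ∀ A, IsBorel N A → A ∉ I →
    ∃ B, IsBorel N B ∧ B ∉ I ∧ B ⊆ A ∧
      ((∀ x ∈ B, ∀ y, ¬ Prj N φ p x y) ∨
        ((∀ x ∈ B, ∃ y, Prj N φ p x y) ∧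
          ∃ f, IsBorelFun N B f ∧ ∀ x y, pair x y ∈ f → Prj N φ p x y))

/-- In the model `N`, let `R` be the relation on the Cantor space that is given by the negation of
the formula `φ` without parameters. The relation `R` has full projection, but no Borel measurable
function that is defined on a Borel set not in `I` has its graph contained in `R`. -/
def NoUnif (N : Set ZFSet.{0}) (I : ZFSet.{0}) (φ : Fm 2 0) : Prop :=
  (∀ x ∈ PW N, ∃ y, Prj N (m := 0) (.neg φ) Fin.elim0 x y) ∧
    ∀ B f, IsBorel N B → B ∉ I → IsBorelFun N B f →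
      ∃ x y, pair x y ∈ f ∧ ¬ Prj N (m := 0) (.neg φ) Fin.elim0 x y

end Pool.Agent.H660.SU
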