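import Pool.Agent.H660.SU.Top2
import Pool.Graph.R_seed8.R597.Univ
import Pool.Graph.R_seed8.R597.LS

/-!
# Almost disjoint coding
-/

set_option autoImplicit false
set_option linter.unreachableTactic false
set_option linter.unusedTactic false
set_option linter.unusedSectionVars false

namespace Pool.Agent.H660.SU

open Pool.Agent.W868 Pool.Agent.W868.GM Pool.Agent.Y588 Pool.Agent.H637_NO
open ZFSet (pair)

/-! ### Finite subsets -/

theorem finite_of_mem_FS {W s : ZFSet.{0}} (hs : s ∈ FS W) : {y : ZFSet.{0} | y ∈ s}.Finite := by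
  obtain ⟨m, hm, f, -, hf⟩ := Fi_of_mem_FS Pool.Agent.R597.isZFC_univ.toIsZF (Set.mem_univ W) hs
  obtain ⟨n, rfl⟩ := mem_omega_iff.1 hm
  exact finite_of_isInj hf

theorem mem_FS {W s : ZFSet.{0}} : s ∈ FS W ↔ s ⊆ W ∧ {y : ZFSet.{0} | y ∈ s}.Finite :=
  ⟨fun h => ⟨subset_of_mem_FS h, finite_of_mem_FS h⟩, fun h => mem_FS_of_finite h.1 h.2⟩

theorem FS_union {W s t : ZFSet.{0}} (hs : s ∈ FS W) (ht : t ∈ FS W) : s ∪ t ∈ FS W := by
  rw [mem_FS] at hs ht ⊢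
  refine ⟨fun x hx => ?_, ?_⟩
  · rcases ZFSet.mem_union.1 hx with h | h
    · exact hs.1 h
    · exact ht.1 h
  · refine (hs.2.union ht.2).subset fun x hx => ?_
    rcases ZFSet.mem_union.1 hx with h | h
    · exact Or.inl h
    · exact Or.inr h

theorem FS_insert {W a s : ZFSet.{0}} (ha : a ∈ W) (hs : s ∈ FS W) : insert a s ∈ FS W := by
  rw [mem_FS] at hs ⊢
  refine ⟨fun x hx => ?_, ?_⟩
  · rcases ZFSet.mem_insert_iff.1 hx with rfl | h
    · exact ha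
    · exact hs.1 h
  · refine (hs.2.insert a).subset fun x hx => ?_
    rcases ZFSet.mem_insert_iff.1 hx with h | h
    · exact Or.inl h
    · exact Or.inr h

theorem FS_sub {W s t : ZFSet.{0}} (hs : s ∈ FS W) (ht : t ⊆ s) : t ∈ FS W := by
  rw [mem_FS] at hs ⊢
  exact ⟨fun x hx => hs.1 (ht hx), hs.2.subset fun x hx => ht hx⟩

theorem FS_empty {W : ZFSet.{0}} : ∅ ∈ FS W := by
  rw [mem_FS]
  refine ⟨ZFSet.empty_subset _, ?_⟩
  have : {y : ZFSet.{0} | y ∈ (∅ : ZFSet.{0})} = ∅ := by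
    ext x
    exact ⟨fun h => absurd h (ZFSet.notMem_empty _), fun h => h.elim⟩
  rw [this]
  exact Set.finite_empty

/-! ### The nodes -/

/-- The code of the node number `k` of the branch of `r`, for the point `q`. -/
noncomputable def el (g r q k : ZFSet.{0}) : ZFSet.{0} :=
  pair (ap g (pair q (pair k (r ∩ ZFSet.prod k k)))) ∅

/-- `x` is in the almost disjoint set given by `v = (r, q)`. -/
def Av (g v x : ZFSet.{0}) : Prop := ∃ k ∈ ZFSet.omega, x = el g (fs v) (sn v) k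

/-- The parameter of the coding. -/
structure Gp (N : Set ZFSet.{0}) (g : ZFSet.{0}) : Prop where
  mem : g ∈ N
  inj : ∃ Q, (∀ u, u ∈ Q ↔ IsQ u) ∧ IsInj Q ZFSet.omega g

theorem ap_inj {x y f a b : ZFSet.{0}} (h : IsInj x y f) (ha : a ∈ x) (hb : b ∈ x)
    (hab : ap f a = ap f b) : a = b := by
  obtain ⟨c, -, hc⟩ := fun_exists h.1 ha
  obtain ⟨d, -, hd⟩ := fun_exists h.1 hb
  rw [ap_func h.1 hc, ap_func h.1 hd] at hab
  subst hab
  exact h.2 _ _ _ hc hd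

theorem ap_mem' {x y f a : ZFSet.{0}} (h : ZFSet.IsFunc x y f) (ha : a ∈ x) : ap f a ∈ y := by
  obtain ⟨c, hc, hac⟩ := fun_exists h ha
  rwa [ap_func h hac]

theorem isQ_node {r q k : ZFSet.{0}} (hq : q ∈ oo) (hk : k ∈ ZFSet.omega) :
    IsQ (pair q (pair k (r ∩ ZFSet.prod k k))) :=
  ⟨q, hq, k, hk, _, fun _ h => (ZFSet.mem_inter.1 h).2, rfl⟩

section

variable {N : Set ZFSet.{0}} {g : ZFSet.{0}} (hg : Gp N g)

include hg

theorem Gp.el_mem {r q k : ZFSet.{0}} (hq : q ∈ oo) (hk : k ∈ ZFSet.omega) : el g r q k ∈ oo := by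
  obtain ⟨Q, h1, h2⟩ := hg.inj
  exact ZFSet.pair_mem_prod.2 ⟨ap_mem' h2.1 ((h1 _).2 (isQ_node hq hk)), ZFSet.omega_zero⟩

theorem Gp.el_inj {r q k r' q' k' : ZFSet.{0}} (hq : q ∈ oo) (hk : k ∈ ZFSet.omega)
    (hq' : q' ∈ oo) (hk' : k' ∈ ZFSet.omega) (h : el g r q k = el g r' q' k') :
    q = q' ∧ k = k' ∧ r ∩ ZFSet.prod k k = r' ∩ ZFSet.prod k' k' := by
  obtain ⟨Q, h1, h2⟩ := hg.inj
  have h3 := ap_inj h2 ((h1 _).2 (isQ_node hq hk)) ((h1 _).2 (isQ_node hq' hk'))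
    (ZFSet.pair_inj.1 h).1
  obtain ⟨h4, h5⟩ := ZFSet.pair_inj.1 h3
  obtain ⟨h6, h7⟩ := ZFSet.pair_inj.1 h5
  exact ⟨h4, h6, h7⟩

/-- The sets are almost disjoint. -/
theorem Gp.ad {r q v : ZFSet.{0}} (hr : r ⊆ oo) (hq : q ∈ oo)
    (hv : ∃ r' q', r' ⊆ oo ∧ q' ∈ oo ∧ v = pair r' q') (hne : v ≠ pair r q) :
    {k : ℕ | Av g v (el g r q (nat k))}.Finite := by
  obtain ⟨r', q', hr', hq', rfl⟩ := hv
  by_cases hqq : q' = q
  · subst hqq
    have hrr : r' ≠ r := fun h => hne (by rw [h])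
    have h1 : ∃ x ∈ oo, ¬ (x ∈ r' ↔ x ∈ r) := by
      by_contra hcon
      push Not at hcon
      apply hrr
      ext x
      constructor
      · exact fun hx => (hcon x (hr' hx)).1 hx
      · exact fun hx => (hcon x (hr hx)).2 hx
    obtain ⟨x, hx, h2⟩ := h1
    obtain ⟨a, ha, b, hb, rfl⟩ := ZFSet.mem_prod.1 hx
    obtain ⟨m, rfl⟩ := mem_omega_iff.1 ha
    obtain ⟨n, rfl⟩ := mem_omega_iff.1 hb
    refine (Set.finite_le_nat (max m n)).subset fun k hk => ?_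
    obtain ⟨k', hk', h3⟩ := hk
    rw [fs_pair, sn_pair] at h3
    obtain ⟨-, h4, h5⟩ := hg.el_inj hq (nat_mem_omega k) hq hk' h3
    subst h4
    by_contra hlt
    simp only [Set.mem_ofPred_eq, not_le] at hlt
    apply h2
    have h6 : pair (nat m) (nat n) ∈ ZFSet.prod (nat k) (nat k) :=
      ZFSet.pair_mem_prod.2 ⟨Pool.Agent.R597.nat_mem_nat.2 (lt_of_le_of_lt (le_max_left _ _) hlt),
        Pool.Agent.R597.nat_mem_nat.2 (lt_of_le_of_lt (le_max_right _ _) hlt)⟩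
    constructor
    · intro h7
      have h8 : pair (nat m) (nat n) ∈ r' ∩ ZFSet.prod (nat k) (nat k) :=
        ZFSet.mem_inter.2 ⟨h7, h6⟩
      rw [← h5] at h8
      exact (ZFSet.mem_inter.1 h8).1
    · intro h7
      have h8 : pair (nat m) (nat n) ∈ r ∩ ZFSet.prod (nat k) (nat k) :=
        ZFSet.mem_inter.2 ⟨h7, h6⟩
      rw [h5] at h8
      exact (ZFSet.mem_inter.1 h8).1
  · refine Set.finite_empty.subset fun k hk => ?_
    obtain ⟨k', hk', h3⟩ := hk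
    rw [fs_pair, sn_pair] at h3
    exact absurd (hg.el_inj hq (nat_mem_omega k) hq' hk' h3).1.symm hqq

theorem Gp.finite_hit {r q E : ZFSet.{0}} (hq : q ∈ oo) (hE : {y : ZFSet.{0} | y ∈ E}.Finite) :
    {k : ℕ | el g r q (nat k) ∈ E}.Finite := by
  refine hE.preimage (f := fun k : ℕ => el g r q (nat k)) ?_
  intro k _ k' _ h
  exact nat_injective (hg.el_inj hq (nat_mem_omega k) hq (nat_mem_omega k') h).2.1

end

section

variable {N : Set ZFSet.{0}} (hN : IsZF N) {g : ZFSet.{0}} (hg : Gp N g) {n : ℕ}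
  {F G H K : (Fin n → ZFSet.{0}) → ZFSet.{0}}

include hN

theorem dfn_inter (hF : DfnF N N F) (hG : DfnF N N G) : DfnF N N fun v => F v ∩ G v := by
  refine (hN.sep' (Q := fun x v => x ∈ G v) hF (Dfn.mem (DfnF.proj 0) hG.tail)).congr
    fun v _ => ?_
  ext x
  rw [ZFSet.mem_sep, ZFSet.mem_inter]

include hg

theorem dfn_el (hF : DfnF N N F) (hG : DfnF N N G) (hH : DfnF N N H) :
    DfnF N N fun v => el g (F v) (G v) (H v) := by
  have hB := hN.base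
  unfold el
  refine hB.pair' (hN.ap' (DfnF.const hg.mem) (hB.pair' hG (hB.pair' hH
    (dfn_inter hN hF (hN.prod' hH hH))))) (DfnF.const hN.empty_mem)

theorem dfn_Av (hF : DfnF N N F) (hG : DfnF N N G) : Dfn N N fun v => Av g (F v) (G v) := by
  have hB := hN.base
  unfold Av
  apply hB.bex (DfnF.const hN.infinity)
  exact Dfn.eq hG.tail (dfn_el hN hg (hN.fs' hF.tail) (hN.sn' hF.tail) (DfnF.proj 0))

end

/-! ### The conditions -/

/-- The set of the conditions `(E, (s, F))`, where `F` is a finite subset of `R`. -/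
noncomputable def Pd (R : ZFSet.{0}) : ZFSet.{0} :=
  ZFSet.sep (fun p => fs (sn p) ⊆ fs p) (ZFSet.prod (FS oo) (ZFSet.prod (FS oo) (FS R)))

theorem mem_Pd {R p : ZFSet.{0}} : p ∈ Pd R ↔ ∃ E s F, p = pair E (pair s F) ∧ E ∈ FS oo ∧
    s ⊆ E ∧ F ∈ FS R := by
  unfold Pd
  rw [ZFSet.mem_sep, ZFSet.mem_prod]
  constructor
  · rintro ⟨⟨E, hE, t, ht, rfl⟩, h⟩
    obtain ⟨s, hs, F, hF, rfl⟩ := ZFSet.mem_prod.1 ht
    rw [sn_pair, fs_pair, fs_pair] at h
    exact ⟨E, s, F, rfl, hE, h, hF⟩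
  · rintro ⟨E, s, F, rfl, hE, hs, hF⟩
    refine ⟨⟨E, hE, _, ZFSet.pair_mem_prod.2 ⟨FS_sub hE hs, hF⟩, rfl⟩, ?_⟩
    rwa [sn_pair, fs_pair, fs_pair]

/-- `q` is stronger than `p`. -/
def Ld (g q p : ZFSet.{0}) : Prop :=
  fs p ⊆ fs q ∧ (∀ x ∈ fs p, x ∈ fs (sn q) ↔ x ∈ fs (sn p)) ∧ sn (sn p) ⊆ sn (sn q) ∧
    ∀ x ∈ fs (sn q), ∀ v ∈ sn (sn p), Av g v x → x ∈ fs p

/-- `z` is in the basic open set given by `p`. -/
def Od (g p z : ZFSet.{0}) : Prop :=
  (∀ x ∈ fs p, x ∈ z ↔ x ∈ fs (sn p)) ∧ ∀ v ∈ sn (sn p), ∀ x ∈ z, Av g v x → x ∈ fs p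

/-- The centered piece of a condition. -/
noncomputable def cd' (p : ZFSet.{0}) : ZFSet.{0} := pair (fs p) (fs (sn p))

theorem Ld.refl {g p : ZFSet.{0}} (hp : fs (sn p) ⊆ fs p) : Ld g p p :=
  ⟨fun _ h => h, fun _ _ => Iff.rfl, fun _ h => h, fun _ hx _ _ _ => hp hx⟩

theorem Ld.trans {g p q r : ZFSet.{0}} (h : Ld g r q) (h' : Ld g q p) : Ld g r p := by
  refine ⟨fun x hx => h.1 (h'.1 hx), fun x hx => (h.2.1 x (h'.1 hx)).trans (h'.2.1 x hx),
    fun x hx => h.2.2.1 (h'.2.2.1 hx), fun x hx v hv hA => ?_⟩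
  have h1 := h.2.2.2 x hx v (h'.2.2.1 hv) hA
  exact h'.2.2.2 x ((h.2.1 x h1).1 hx) v hv hA

theorem Ld.down {g p q z : ZFSet.{0}} (h : Ld g q p) (hz : Od g q z) : Od g p z := by
  refine ⟨fun x hx => (hz.1 x (h.1 hx)).trans (h.2.1 x hx), fun v hv x hx hA => ?_⟩
  have h1 := hz.2 v (h.2.2.1 hv) x hx hA
  exact h.2.2.2 x ((hz.1 x h1).1 hx) v hv hA

section

variable {N : Set ZFSet.{0}} (hN : IsZF N) {g : ZFSet.{0}} (hg : Gp N g) {n : ℕ}
  {F G H K : (Fin n → ZFSet.{0}) → ZFSet.{0}}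

include hN

theorem Pd_mem {R : ZFSet.{0}} (hR : R ∈ N) : Pd R ∈ N := by
  have hB := hN.base
  refine hN.sep_mem (Q := fun p => fs (sn p) ⊆ fs p) ?_ (hN.prod_mem (FS_mem hN (oo_mem hN))
    (hN.prod_mem (FS_mem hN (oo_mem hN)) (FS_mem hN hR)))
  exact hB.subset' (hN.fs' (hN.sn' (DfnF.proj 0))) (hN.fs' (DfnF.proj 0))

include hg

theorem dfn_Ld (hF : DfnF N N F) (hG : DfnF N N G) : Dfn N N fun v => Ld g (F v) (G v) := by
  have hB := hN.base
  have h : Dfn N N fun w : Fin 2 → ZFSet.{0} => Ld g (w 0) (w 1) := by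
    unfold Ld
    refine (hB.subset' (hN.fs' (DfnF.proj 1)) (hN.fs' (DfnF.proj 0))).and (Dfn.and ?_
      ((hB.subset' (hN.sn' (hN.sn' (DfnF.proj 1))) (hN.sn' (hN.sn' (DfnF.proj 0)))).and ?_))
    · apply hB.ball (hN.fs' (DfnF.proj 1))
      exact (Dfn.mem (DfnF.proj 0) (hN.fs' (hN.sn' (DfnF.proj 1)))).iff
        (Dfn.mem (DfnF.proj 0) (hN.fs' (hN.sn' (DfnF.proj 2))))
    · apply hB.ball (hN.fs' (hN.sn' (DfnF.proj 0)))
      apply hB.ball (hN.sn' (hN.sn' (DfnF.proj 2)))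
      exact (dfn_Av hN hg (DfnF.proj 0) (DfnF.proj 1)).imp
        (Dfn.mem (DfnF.proj 1) (hN.fs' (DfnF.proj 3)))
  exact Dfn.comp2 (Q := fun a b => Ld g a b) h hF hG

theorem dfn_Od (hF : DfnF N N F) (hG : DfnF N N G) : Dfn N N fun v => Od g (F v) (G v) := by
  have hB := hN.base
  have h : Dfn N N fun w : Fin 2 → ZFSet.{0} => Od g (w 0) (w 1) := by
    unfold Od
    apply Dfn.and
    · apply hB.ball (hN.fs' (DfnF.proj 0))
      exact (Dfn.mem (DfnF.proj 0) (DfnF.proj 2)).iff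
        (Dfn.mem (DfnF.proj 0) (hN.fs' (hN.sn' (DfnF.proj 1))))
    · apply hB.ball (hN.sn' (hN.sn' (DfnF.proj 0)))
      apply hB.ball (DfnF.proj 2)
      exact (dfn_Av hN hg (DfnF.proj 1) (DfnF.proj 0)).imp
        (Dfn.mem (DfnF.proj 0) (hN.fs' (DfnF.proj 2)))
  exact Dfn.comp2 (Q := fun a b => Od g a b) h hF hG

end

/-! ### The theorem of Baire -/

theorem sUnion_nat_succ (n : ℕ) : (ZFSet.sUnion (nat (n + 1)) : ZFSet.{0}) = nat n := by
  ext x
  rw [ZFSet.mem_sUnion]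
  constructor
  · rintro ⟨y, hy, hx⟩
    rcases ZFSet.mem_insert_iff.1 hy with rfl | hy
    · exact hx
    · exact (isOrdinal_omega.mem (nat_mem_omega n)).mem_trans hx hy
  · exact fun hx => ⟨nat n, ZFSet.mem_insert _ _, hx⟩

section

variable {N : Set ZFSet.{0}} {e : ZFSet.{0} → ZFSet.{0}} (hN : IsZF N) (hc : GC N e)
  {g : ZFSet.{0}} (hg : Gp N g) {R : ZFSet.{0}} (hR : R ∈ N)

include hN hc hg hR

theorem baire {p₀ : ZFSet.{0}} (hp₀ : p₀ ∈ Pd R) {E : ZFSet.{0}} (hE : E ∈ N)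
    (hEc : Cf N (Pd R) (Ld g) E) : ∃ z ∈ PW N, Od g p₀ z ∧ Gn (Od g) E z := by
  have hB := hN.base
  have hPM := Pd_mem hN hR
  have hp₀M := hN.trans _ hPM _ hp₀
  have h0 := hN.empty_mem
  obtain ⟨⟨j, hj, hji⟩, hEd⟩ := hEc
  -- one step
  set T : ZFSet.{0} → ZFSet.{0} → ZFSet.{0} := fun m p => chs N e fun d =>
    d ∈ Pd R ∧ Ld g d p ∧ ∀ D ∈ E, pair D m ∈ j → d ∈ D with hT
  have hTd : DfnF N N fun w : Fin 2 → ZFSet.{0} => T (w 0) (w 1) := by
    refine hN.chs' hc (Q := fun d w => d ∈ Pd R ∧ Ld g d (w 1) ∧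
      ∀ D ∈ E, pair D (w 0) ∈ j → d ∈ D) ?_
    refine (Dfn.mem (DfnF.proj 0) (DfnF.const hPM)).and
      ((dfn_Ld hN hg (DfnF.proj 0) (DfnF.proj 2)).and ?_)
    apply hB.ball (DfnF.const hE)
    exact (Dfn.mem (hB.pair' (DfnF.proj 0) (DfnF.proj 2)) (DfnF.const hj)).imp
      (Dfn.mem (DfnF.proj 1) (DfnF.proj 0))
  have hTs : ∀ m, ∀ p ∈ Pd R, T m p ∈ Pd R ∧ Ld g (T m p) p ∧
      ∀ D ∈ E, pair D m ∈ j → T m p ∈ D := by
    intro m p hp
    have hex : ∃ d ∈ N, d ∈ Pd R ∧ Ld g d p ∧ ∀ D ∈ E, pair D m ∈ j → d ∈ D := by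
      by_cases h : ∃ D ∈ E, pair D m ∈ j
      · obtain ⟨D, hD, hDm⟩ := h
        obtain ⟨d, hd, hdp⟩ := (hEd D hD).2 p hp
        have hdP := (hEd D hD).1 hd
        refine ⟨d, hN.trans _ hPM _ hdP, hdP, hdp, fun D' _ hD' => ?_⟩
        rwa [hji.2 _ _ _ hD' hDm]
      · obtain ⟨E', s', F', rfl, -, h2, -⟩ := mem_Pd.1 hp
        refine ⟨_, hN.trans _ hPM _ hp, hp, Ld.refl ?_, fun D hD h' => absurd ⟨D, hD, h'⟩ h⟩
        rwa [sn_pair, fs_pair, fs_pair]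
    exact (chs_spec (C := N) (e := e) (P := fun d => d ∈ Pd R ∧ Ld g d p ∧
      ∀ D ∈ E, pair D m ∈ j → d ∈ D) hex).2
  -- the sequence
  set G : ZFSet.{0} → ZFSet.{0} → ZFSet.{0} := fun z f =>
    open Classical in if z = ∅ then p₀ else T (ZFSet.sUnion z) (ap f (ZFSet.sUnion z)) with hG
  have hGd : DfnF N N fun w : Fin 2 → ZFSet.{0} => G (w 0) (w 1) := by
    refine DfnF.ite (Dfn.eq (DfnF.proj 0) (DfnF.const h0)) (DfnF.const hp₀M) ?_
    exact DfnF.comp2 (f := T) hTd (hB.sUnion' (DfnF.proj 0))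
      (hN.ap' (DfnF.proj 1) (hB.sUnion' (DfnF.proj 0)))
  set a : ZFSet.{0} → ZFSet.{0} := wfF (fun z => z) ZFSet.mem_wf G with ha
  have haeq : ∀ z, a z = G z (gr a z) := fun z => wfF_eq _ _ _ z
  have had : DfnF N N fun w : Fin 1 → ZFSet.{0} => a (w 0) := hN.memrec hGd haeq
  have ha0 : a (nat 0) = p₀ := by
    rw [haeq, hG]
    exact if_pos rfl
  have has : ∀ m : ℕ, a (nat (m + 1)) = T (nat m) (a (nat m)) := by
    intro m
    rw [haeq, hG]
    have h1 : nat (m + 1) ≠ ∅ := fun h => by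
      have : nat m ∈ nat (m + 1) := ZFSet.mem_insert _ _
      rw [h] at this
      exact ZFSet.notMem_empty _ this
    simp only [if_neg h1]
    have h2 : nat m ∈ nat (m + 1) := ZFSet.mem_insert _ _
    rw [sUnion_nat_succ, ap_gr h2]
  have haP : ∀ m : ℕ, a (nat m) ∈ Pd R := by
    intro m
    induction m with
    | zero => rw [ha0]; exact hp₀
    | succ m ih => rw [has]; exact (hTs _ _ ih).1
  have hale : ∀ m k : ℕ, m ≤ k → Ld g (a (nat k)) (a (nat m)) := by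
    intro m k h
    induction k, h using Nat.le_induction with
    | base =>
      obtain ⟨E', s', F', h1, -, h2, -⟩ := mem_Pd.1 (haP m)
      refine Ld.refl ?_
      rw [h1, sn_pair, fs_pair, fs_pair]
      exact h2
    | succ k _ ih =>
      have h1 := (hTs (nat k) _ (haP k)).2.1
      rw [← has] at h1
      exact h1.trans ih
  have hsE : ∀ m : ℕ, fs (sn (a (nat m))) ⊆ fs (a (nat m)) := by
    intro m
    obtain ⟨E', s', F', h1, -, h2, -⟩ := mem_Pd.1 (haP m)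
    rw [h1, sn_pair, fs_pair, fs_pair]
    exact h2
  have hEo : ∀ m : ℕ, fs (a (nat m)) ⊆ oo := by
    intro m
    obtain ⟨E', s', F', h1, h2, -⟩ := mem_Pd.1 (haP m)
    rw [h1, fs_pair]
    exact (mem_FS.1 h2).1
  -- the point
  have hsd : DfnF N N fun w : Fin 1 → ZFSet.{0} => fs (sn (a (w 0))) := hN.fs' (hN.sn' had)
  set z : ZFSet.{0} := ZFSet.sUnion (im (fun m => fs (sn (a m))) ZFSet.omega) with hz
  have hzN : z ∈ N := hN.union _ (hN.im_mem hN.infinity hsd)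
  have hzm : ∀ x, x ∈ z ↔ ∃ m : ℕ, x ∈ fs (sn (a (nat m))) := by
    intro x
    rw [hz, ZFSet.mem_sUnion]
    constructor
    · rintro ⟨y, hy, hx⟩
      obtain ⟨m, hm, rfl⟩ := mem_im.1 hy
      obtain ⟨m, rfl⟩ := mem_omega_iff.1 hm
      exact ⟨m, hx⟩
    · rintro ⟨m, hx⟩
      exact ⟨_, mem_im.2 ⟨nat m, nat_mem_omega m, rfl⟩, hx⟩
  have hzo : z ∈ PW N := by
    refine mem_PW.2 ⟨hzN, fun x hx => ?_⟩
    obtain ⟨m, hx⟩ := (hzm x).1 hx
    exact hEo m (hsE m hx)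
  have key : ∀ m : ℕ, Od g (a (nat m)) z := by
    intro m
    refine ⟨fun x hx => ⟨fun hxz => ?_, fun hxs => (hzm x).2 ⟨m, hxs⟩⟩, fun v hv x hxz hA => ?_⟩
    · obtain ⟨k, hk⟩ := (hzm x).1 hxz
      rcases le_total m k with h | h
      · exact ((hale m k h).2.1 x hx).1 hk
      · exact ((hale k m h).2.1 x (hsE k hk)).2 hk
    · obtain ⟨k, hk⟩ := (hzm x).1 hxz
      rcases le_total m k with h | h
      · exact (hale m k h).2.2.2 x hk v hv hA
      · exact hsE m (((hale k m h).2.1 x (hsE k hk)).2 hk)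
  refine ⟨z, hzo, ?_, fun D hD => ?_⟩
  · have := key 0
    rwa [ha0] at this
  · obtain ⟨b, hb, hDb⟩ := fun_exists hji.1 hD
    obtain ⟨m, rfl⟩ := mem_omega_iff.1 hb
    refine ⟨a (nat (m + 1)), ?_, key (m + 1)⟩
    rw [has]
    exact (hTs (nat m) _ (haP m)).2.2 D hD hDb

/-- The topology given by the conditions. -/
theorem tp : Tp N e (Pd R) (Ld g) (Od g) cd' (ZFSet.prod (FS oo) (FS oo)) := by
  have hB := hN.base
  have hPM := Pd_mem hN hR
  have hoo := oo_mem hN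
  have hFo := FS_mem hN hoo
  have hFi : Inj N (FS oo) ZFSet.omega := FS_inj hN hoo (oo_countable hN)
  have h1 : nat 1 ∈ ZFSet.omega := nat_mem_omega 1
  refine ⟨hN, hc, hPM, hN.prod_mem hFo hFo, ?_, dfn_Ld hN hg (DfnF.proj 0) (DfnF.proj 1),
    dfn_Od hN hg (DfnF.proj 0) (DfnF.proj 1), ?_, ?_, ?_, ?_, ?_, ?_, ?_, ?_, ?_, ?_, ?_⟩
  · exact Inj.trans hN (hN.prod_mem hFo hFo) hN.infinity (Inj.prod hN hFo hFo hN.infinity
      hN.infinity hFi hFi) (inj_omega_sq hN)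
  · exact hB.pair' (hN.fs' (DfnF.proj 0)) (hN.fs' (hN.sn' (DfnF.proj 0)))
  · intro p hp
    obtain ⟨E, s, F, rfl, hE, hs, hF⟩ := mem_Pd.1 hp
    unfold cd'
    rw [sn_pair, fs_pair, fs_pair]
    exact ZFSet.pair_mem_prod.2 ⟨hE, FS_sub hE hs⟩
  · intro p hp
    obtain ⟨E, s, F, rfl, hE, hs, hF⟩ := mem_Pd.1 hp
    refine Ld.refl ?_
    rwa [sn_pair, fs_pair, fs_pair]
  · intro p _ q _ r _ h2 h3
    exact h2.trans h3
  · intro p hp q hq h2
    obtain ⟨E, s, F, rfl, hE, hs, hF⟩ := mem_Pd.1 hp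
    obtain ⟨E', s', F', rfl, hE', hs', hF'⟩ := mem_Pd.1 hq
    unfold cd' at h2
    rw [sn_pair, fs_pair, fs_pair, sn_pair, fs_pair, fs_pair] at h2
    obtain ⟨rfl, rfl⟩ := ZFSet.pair_inj.1 h2
    refine ⟨pair E (pair s (F ∪ F')), mem_Pd.2 ⟨_, _, _, rfl, hE, hs, FS_union hF hF'⟩, ?_, ?_⟩
    · unfold Ld
      simp only [fs_pair, sn_pair]
      exact ⟨fun _ h => h, fun _ _ => trivial, fun v hv => ZFSet.mem_union.2 (Or.inl hv),
        fun x hx _ _ _ => hs hx⟩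
    · unfold Ld
      simp only [fs_pair, sn_pair]
      exact ⟨fun _ h => h, fun _ _ => trivial, fun v hv => ZFSet.mem_union.2 (Or.inr hv),
        fun x hx _ _ _ => hs hx⟩
  · intro p hp q hq z hz h2 h3
    obtain ⟨E, s, F, rfl, hE, hs, hF⟩ := mem_Pd.1 hp
    obtain ⟨E', s', F', rfl, hE', hs', hF'⟩ := mem_Pd.1 hq
    unfold Od at h2 h3
    simp only [fs_pair, sn_pair] at h2 h3
    refine ⟨pair (E ∪ E') (pair (z ∩ (E ∪ E')) (F ∪ F')), mem_Pd.2 ⟨_, _, _, rfl,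
      FS_union hE hE', fun x hx => (ZFSet.mem_inter.1 hx).2, FS_union hF hF'⟩, ?_, ?_⟩
    · unfold Ld
      simp only [fs_pair, sn_pair]
      refine ⟨fun x hx => ZFSet.mem_union.2 (Or.inl hx), fun x hx => ?_,
        fun v hv => ZFSet.mem_union.2 (Or.inl hv), fun x hx v hv hA => ?_⟩
      · rw [ZFSet.mem_inter, h2.1 x hx]
        exact ⟨fun h => h.1, fun h => ⟨h, ZFSet.mem_union.2 (Or.inl hx)⟩⟩
      · exact h2.2 v hv x (ZFSet.mem_inter.1 hx).1 hA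
    · unfold Ld
      simp only [fs_pair, sn_pair]
      refine ⟨fun x hx => ZFSet.mem_union.2 (Or.inr hx), fun x hx => ?_,
        fun v hv => ZFSet.mem_union.2 (Or.inr hv), fun x hx v hv hA => ?_⟩
      · rw [ZFSet.mem_inter, h3.1 x hx]
        exact ⟨fun h => h.1, fun h => ⟨h, ZFSet.mem_union.2 (Or.inr hx)⟩⟩
      · exact h3.2 v hv x (ZFSet.mem_inter.1 hx).1 hA
  · intro p _ q _ h2 z _ h3
    exact h2.down h3
  · intro p hp E hE h2
    exact baire hN hc hg hR hp hE h2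
  · intro q hq
    have hqN := hN.trans _ hoo _ hq
    refine ⟨ZFSet.sep (fun p => q ∈ fs (sn p)) (Pd R), hN.sep_mem (Q := fun p => q ∈ fs (sn p))
      (Dfn.mem (DfnF.const hqN) (hN.fs' (hN.sn' (DfnF.proj 0)))) hPM,
      fun x hx => (ZFSet.mem_sep.1 hx).1, fun z hz => ⟨fun h2 => ?_, ?_⟩⟩
    · have h3 : ({q} : ZFSet.{0}) ∈ FS oo := by
        rw [mem_FS]
        refine ⟨fun x hx => (ZFSet.mem_singleton.1 hx) ▸ hq, ?_⟩
        refine (Set.finite_singleton q).subset fun x hx => ?_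
        exact ZFSet.mem_singleton.1 hx
      refine ⟨pair {q} (pair {q} ∅), ZFSet.mem_sep.2 ⟨mem_Pd.2 ⟨_, _, _, rfl, h3, fun _ h => h,
        FS_empty⟩, ?_⟩, ?_⟩
      · rw [sn_pair, fs_pair]
        exact ZFSet.mem_singleton.2 rfl
      · unfold Od
        simp only [fs_pair, sn_pair]
        refine ⟨fun x hx => ?_, fun v hv => absurd hv (ZFSet.notMem_empty _)⟩
        obtain rfl := ZFSet.mem_singleton.1 hx
        exact ⟨fun _ => hx, fun _ => h2⟩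
    · rintro ⟨p, hp, hpz⟩
      obtain ⟨hpP, h3⟩ := ZFSet.mem_sep.1 hp
      obtain ⟨E, s, F, rfl, hE, hs, hF⟩ := mem_Pd.1 hpP
      rw [sn_pair, fs_pair] at h3
      unfold Od at hpz
      simp only [fs_pair, sn_pair] at hpz
      exact (hpz.1 q (hs h3)).2 h3
  · intro p hp z hz
    obtain ⟨E, s, F, rfl, hE, hs, hF⟩ := mem_Pd.1 hp
    -- a new point
    obtain ⟨k, hk⟩ : ∃ k : ℕ, pair (nat k) (nat 1) ∉ E := by
      by_contra hcon
      push Not at hcon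
      have hfin := (mem_FS.1 hE).2
      have h2 : (Set.univ : Set ℕ).Finite := by
        refine (hfin.preimage (f := fun k : ℕ => pair (nat k) (nat 1)) ?_).subset
          fun k _ => hcon k
        intro k _ k' _ h
        exact nat_injective (ZFSet.pair_inj.1 h).1
      exact Set.infinite_univ h2
    have hx : pair (nat k) (nat 1) ∈ oo := ZFSet.pair_mem_prod.2 ⟨nat_mem_omega k, h1⟩
    have hAx : ∀ v, ¬ Av g v (pair (nat k) (nat 1)) := by
      rintro v ⟨m, -, h2⟩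
      have h3 := (ZFSet.pair_inj.1 h2).2
      have h4 : nat 0 ∈ nat 1 := Pool.Agent.R597.nat_mem_nat.2 (by omega)
      rw [h3] at h4
      exact ZFSet.notMem_empty _ h4
    by_cases hxz : pair (nat k) (nat 1) ∈ z
    · refine ⟨pair (insert (pair (nat k) (nat 1)) E) (pair s F), mem_Pd.2 ⟨_, _, _, rfl,
        FS_insert hx hE, fun y hy => ZFSet.mem_insert_of_mem _ (hs hy), hF⟩, ?_, ?_⟩
      · unfold Ld
        simp only [fs_pair, sn_pair]
        exact ⟨fun y hy => ZFSet.mem_insert_of_mem _ hy, fun _ _ => trivial, fun _ h => h,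
          fun y hy _ _ _ => hs hy⟩
      · unfold Od
        simp only [fs_pair, sn_pair]
        rintro ⟨h2, -⟩
        exact hk (hs ((h2 _ (ZFSet.mem_insert _ _)).1 hxz))
    · refine ⟨pair (insert (pair (nat k) (nat 1)) E) (pair (insert (pair (nat k) (nat 1)) s) F),
        mem_Pd.2 ⟨_, _, _, rfl, FS_insert hx hE, ?_, hF⟩, ?_, ?_⟩
      · intro y hy
        rcases ZFSet.mem_insert_iff.1 hy with rfl | hy
        · exact ZFSet.mem_insert _ _
        · exact ZFSet.mem_insert_of_mem _ (hs hy)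
      · unfold Ld
        simp only [fs_pair, sn_pair]
        refine ⟨fun y hy => ZFSet.mem_insert_of_mem _ hy, fun y hy => ?_, fun _ h => h,
          fun y hy v _ hA => ?_⟩
        · rw [ZFSet.mem_insert_iff]
          refine ⟨?_, Or.inr⟩
          rintro (rfl | h)
          · exact absurd hy hk
          · exact h
        · rcases ZFSet.mem_insert_iff.1 hy with rfl | hy
          · exact absurd hA (hAx v)
          · exact hs hy
      · unfold Od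
        simp only [fs_pair, sn_pair]
        rintro ⟨h2, -⟩
        exact hxz ((h2 _ (ZFSet.mem_insert _ _)).2 (ZFSet.mem_insert _ _))
  · exact ⟨pair ∅ (pair ∅ ∅), mem_Pd.2 ⟨_, _, _, rfl, FS_empty, fun _ h => h, FS_empty⟩⟩

end

end Pool.Agent.H660.SU
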