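import Pool.Agent.H660.SU.Top2
import Pool.Graph.R_pool_sql_team_seeded_620a6dc7.H637_NO.C3a

/-!
# The forcing of the positive Borel sets is proper
-/

set_option autoImplicit false
set_option linter.unreachableTactic false
set_option linter.unusedTactic false
set_option linter.unusedSectionVars false

namespace Pool.Agent.H660.SU

open Pool.Agent.W868 Pool.Agent.W868.GM Pool.Agent.Y588 Pool.Agent.H637_NO
open ZFSet (pair)

theorem mem_PILe {N : Set ZFSet.{0}} {I B C : ZFSet.{0}} : pair B C ∈ PILe N I ↔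
    B ∈ PI N I ∧ C ∈ PI N I ∧ B ⊆ C := by
  unfold PILe
  rw [ZFSet.mem_sep, ZFSet.pair_mem_prod]
  constructor
  · rintro ⟨⟨h1, h2⟩, B', C', h3, h4⟩
    obtain ⟨rfl, rfl⟩ := ZFSet.pair_inj.1 h3
    exact ⟨h1, h2, h4⟩
  · rintro ⟨h1, h2, h3⟩
    exact ⟨⟨h1, h2⟩, B, C, rfl, h3⟩

section

variable {N : Set ZFSet.{0}} {e : ZFSet.{0} → ZFSet.{0}} {P : ZFSet.{0}}
    {Le Ob : ZFSet.{0} → ZFSet.{0} → Prop} {cl : ZFSet.{0} → ZFSet.{0}} {K : ZFSet.{0}}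
    (T : Tp N e P Le Ob cl K)

include T

theorem Tp.isForcing : IsForcing N (PI N (Id N P Le Ob)) (PILe N (Id N P Le Ob)) := by
  have hN := T.zf
  have hB := hN.base
  have hQ := T.PI_mem
  refine ⟨hQ, ?_, fun p hp => mem_PILe.2 ⟨hp, hp, fun _ h => h⟩, fun p _ q _ r _ h1 h2 => ?_,
    PW N, ?_, fun p hp => ?_⟩
  · have h1 : ZFSet.sep (fun u => fs u ⊆ sn u)
        (ZFSet.prod (PI N (Id N P Le Ob)) (PI N (Id N P Le Ob))) ∈ N :=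
      hN.sep_mem (Q := fun u => fs u ⊆ sn u) (hB.subset' (hN.fs' (DfnF.proj 0))
        (hN.sn' (DfnF.proj 0))) (hN.prod_mem hQ hQ)
    have h2 : ZFSet.sep (fun u => fs u ⊆ sn u)
        (ZFSet.prod (PI N (Id N P Le Ob)) (PI N (Id N P Le Ob))) = PILe N (Id N P Le Ob) := by
      ext u
      constructor
      · intro hu
        obtain ⟨h3, h4⟩ := ZFSet.mem_sep.1 hu
        obtain ⟨B, hB', C, hC, rfl⟩ := ZFSet.mem_prod.1 h3
        rw [fs_pair, sn_pair] at h4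
        exact mem_PILe.2 ⟨hB', hC, h4⟩
      · intro hu
        obtain ⟨h3, B, C, rfl, h4⟩ := ZFSet.mem_sep.1 hu
        refine ZFSet.mem_sep.2 ⟨h3, ?_⟩
        rwa [fs_pair, sn_pair]
    rwa [h2] at h1
  · obtain ⟨h3, h4, h5⟩ := mem_PILe.1 h1
    obtain ⟨h6, h7, h8⟩ := mem_PILe.1 h2
    exact mem_PILe.2 ⟨h3, h7, fun x hx => h8 (h5 hx)⟩
  · exact T.mem_PI.2 ⟨IsBorel.univ hN, fun h => T.univ_notMem (T.mem_Id.2 ⟨IsBorel.univ hN, h⟩)⟩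
  · refine mem_PILe.2 ⟨hp, ?_, (IsBorel.mem_sub hN (T.mem_PI.1 hp).1).2⟩
    exact T.mem_PI.2 ⟨IsBorel.univ hN, fun h => T.univ_notMem (T.mem_Id.2 ⟨IsBorel.univ hN, h⟩)⟩

theorem Tp.proper : Proper N (PI N (Id N P Le Ob)) (PILe N (Id N P Le Ob)) := by
  have hN := T.zf
  have hB := hN.base
  have hZ : IsZFC N := isZFC_of_gc hN T.gc
  have hQ := T.PI_mem
  set Q := PI N (Id N P Le Ob) with hQd
  set F : ZFSet.{0} → ZFSet.{0} := fun u => chs N e fun C => C ∈ fs u ∧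
    ∃ p ∈ P, cl p = sn u ∧ Sb N P Le Ob p C with hF
  have hFd : DfnF N N fun w : Fin 1 → ZFSet.{0} => F (w 0) := by
    refine hN.chs' T.gc (Q := fun C w => C ∈ fs (w 0) ∧
      ∃ p ∈ P, cl p = sn (w 0) ∧ Sb N P Le Ob p C) ?_
    refine (Dfn.mem (DfnF.proj 0) (hN.fs' (DfnF.proj 1))).and ?_
    apply hB.bex (DfnF.const T.P_mem)
    exact (Dfn.eq (T.dcl' (DfnF.proj 0)) (hN.sn' (DfnF.proj 2))).and
      (T.dSb (DfnF.proj 0) (DfnF.proj 1))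
  set h : ZFSet.{0} := gr F (ZFSet.prod (pwM N Q) K) with hh
  have hhN : h ∈ N := by
    refine hN.im_mem (hN.prod_mem (pwM_mem hN hQ) T.K_mem) (h := fun u => pair u (F u)) ?_
    exact hB.pair' (DfnF.proj 0) (DfnF.comp1 (f := F) hFd (DfnF.proj 0))
  obtain ⟨f, hf, hfi⟩ := T.K_inj
  have hxN : pair (pair ZFSet.omega f) h ∈ N := hN.pair_mem (hN.pair_mem hN.infinity hf) hhN
  obtain ⟨θ₀, hθ₀, hθ⟩ := exists_Hth hZ hxN
  refine ⟨θ₀, hθ₀, fun θ _ hlt H hH hHm => ⟨_, (hHm _).2 (hθ θ hlt), fun X hX _ hEl hxX p hp _ =>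
    ⟨p, hp, mem_PILe.2 ⟨hp, hp, fun _ h => h⟩, fun D hD hDs hDd r hr _ => ?_⟩⟩⟩
  have hTr : Tra H := Hth_tra hN hHm
  have h1 : pair ZFSet.omega f ∈ X := hEl.fst hTr hxX
  have hhX : h ∈ X := hEl.snd hTr hxX
  have hωX : ZFSet.omega ∈ X := hEl.fst hTr h1
  have hfX : f ∈ X := hEl.snd hTr h1
  have hDN : D ∈ N := hN.trans _ hH _ (hEl.1 hD)
  obtain ⟨k, hk, h2, h3⟩ := T.predense hDN hDs (fun B hB' => by
    obtain ⟨d, hd, h4⟩ := hDd B hB'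
    exact ⟨d, hd, (mem_PILe.1 h4).2.2⟩) r hr
  have hkX : k ∈ X := hEl.sub hTr hωX hfX hfi hk
  have hFk : F (pair D k) = chs N e fun C => C ∈ D ∧ ∃ p ∈ P, cl p = k ∧ Sb N P Le Ob p C := by
    rw [hF]
    simp only [fs_pair, sn_pair]
  rw [← hFk] at h2 h3
  have h4 : pair (pair D k) (F (pair D k)) ∈ h :=
    mem_gr.2 ⟨pair D k, ZFSet.pair_mem_prod.2 ⟨mem_pwM.2 ⟨hDN, hDs⟩, hk⟩, rfl⟩
  have h5 : F (pair D k) ∈ X := hEl.app2 hTr hhX hD hkX h4 fun y' hy' => by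
    obtain ⟨u, -, hu⟩ := mem_gr.1 hy'
    obtain ⟨rfl, rfl⟩ := ZFSet.pair_inj.1 hu
    rfl
  exact ⟨_, h2, h5, _, h3, mem_PILe.2 ⟨h3, hDs h2, fun z hz => (ZFSet.mem_inter.1 hz).2⟩,
    mem_PILe.2 ⟨h3, hr, fun z hz => (ZFSet.mem_inter.1 hz).1⟩⟩

end

end Pool.Agent.H660.SU
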