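import Pool.Agent.H660.SU.Col3
import Pool.Agent.H660.SU.Abs
import Pool.Agent.H660.SU.Prp

/-!
# The reshaped sequence in Solovay's model
-/

set_option autoImplicit false
set_option linter.unreachableTactic false
set_option linter.unusedTactic false
set_option linter.unusedSectionVars false

namespace Pool.Agent.H660.SU

open Pool.Agent.W868 Pool.Agent.W868.GM Pool.Agent.Y588 Pool.Agent.H637_NO
open ZFSet (pair)

/-- The closure points of the function `ν` below `κ` are singular. -/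
structure Nu (M : Set ZFSet.{0}) (κ : ZFSet.{0}) (ν : ZFSet.{0} → ZFSet.{0}) : Prop where
  d : DfnF M M fun w : Fin 1 → ZFSet.{0} => ν (w 0)
  mem : ∀ ξ ∈ κ, ν ξ ∈ κ
  sub : ∀ ξ ∈ κ, ξ ⊆ ν ξ
  sing : ∀ α ∈ κ, ZFSet.omega ∈ α → (∀ ξ ∈ α, ν ξ ∈ α) → ¬ Reg M α

/-- The reals of the sequence. -/
noncomputable def dd (N : Set ZFSet.{0}) (e : ZFSet.{0} → ZFSet.{0}) (κ G : ZFSet.{0})
    (ν : ZFSet.{0} → ZFSet.{0}) (ξ : ZFSet.{0}) : ZFSet.{0} :=
  chs N e fun r => r ∈ PW N ∧ Cod r (pair (ap (gr ν κ) ξ) (Cb G ξ))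

/-- The sequence. -/
noncomputable def DD (N : Set ZFSet.{0}) (e : ZFSet.{0} → ZFSet.{0}) (κ G : ZFSet.{0})
    (ν : ZFSet.{0} → ZFSet.{0}) : ZFSet.{0} :=
  ZFSet.sUnion (im (fun ξ => im (fun q => pair ξ q) (dd N e κ G ν ξ)) κ)

theorem mem_DD {N : Set ZFSet.{0}} {e : ZFSet.{0} → ZFSet.{0}} {κ G : ZFSet.{0}}
    {ν : ZFSet.{0} → ZFSet.{0}} {x : ZFSet.{0}} :
    x ∈ DD N e κ G ν ↔ ∃ ξ ∈ κ, ∃ q ∈ dd N e κ G ν ξ, x = pair ξ q := by
  unfold DD
  rw [ZFSet.mem_sUnion]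
  constructor
  · rintro ⟨y, hy, hx⟩
    obtain ⟨ξ, hξ, rfl⟩ := mem_im.1 hy
    obtain ⟨q, hq, rfl⟩ := mem_im.1 hx
    exact ⟨ξ, hξ, q, hq, rfl⟩
  · rintro ⟨ξ, hξ, q, hq, rfl⟩
    exact ⟨_, mem_im.2 ⟨ξ, hξ, rfl⟩, mem_im.2 ⟨q, hq, rfl⟩⟩

section

variable {M : Set ZFSet.{0}} (hL : IsLA ∅ M) {κ : ZFSet.{0}} (hK : Inaccessible M κ)
  {G : ZFSet.{0}} (hG : IsGeneric M (Col κ) (ColLe κ) G) {ν : ZFSet.{0} → ZFSet.{0}}
  (hν : Nu M κ ν) {e : ZFSet.{0} → ZFSet.{0}} (he : GC (ext M G) e)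

include hL hK hG

theorem LC_ground : LC (ext M G) ∅ = M :=
  LC_eq hL (ord_ext hL (isForcing_Col hL.zf hK.mem hK.ord) hG)

theorem Cb_mem_N {β : ZFSet.{0}} (hβ : β ∈ ext M G) : Cb G β ∈ ext M G := by
  have hN := zfN hL hK hG
  refine hN.sep_mem (Q := fun p => ∀ u ∈ p, fs (fs u) ∈ β) ?_ (genN hL hK hG)
  apply hN.base.ball (DfnF.proj 0)
  exact Dfn.mem (hN.fs' (hN.fs' (DfnF.proj 0))) (DfnF.const hβ)

/-- The bounded parts of the generic filter are hereditarily countable. -/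
theorem hct_Cb {β : ZFSet.{0}} (hβ : β ∈ κ) : HCt (ext M G) (Cb G β) := by
  have hM := hL.zf
  have hN := zfN hL hK hG
  have hsub := subN hL hK hG
  have hβM := hK.mem_M hM hβ
  have hβo := hK.ord.mem hβ
  have hZ : IsZFC (ext M G) := zfc_ext hL (isForcing_Col hM hK.mem hK.ord) hG
  have hGβ := gen_rst hM hK.mem hK.ord hβ hG
  have hCM := Col_mem hM hβM hβo
  have hmem := Cb_mem_N hL hK hG (hsub hβM)
  have hβh : HCt (ext M G) β := hct_ord hN (hsub hβM) hβo (ctbN hL hK hG hβ)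
  have hWh : HCt (ext M G) (Wk β) :=
    HCt.sub hN (HCg.HCt.prod hN (HCg.HCt.prod hN hβh (hCt_omega hN)) hβh)
      (hsub (Wk_mem hM hβM)) fun u hu => (ZFSet.mem_sep.1 hu).1
  refine HCt.of_ctb hZ hmem (fun p hp => ?_) ?_
  · have hpC := hGβ.sub hp
    exact HCt.sub hN hWh (hN.trans _ hmem _ hp) ((mem_Col hβo).1 hpC).2.1
  · obtain ⟨μ, hμ, h1⟩ := Sm.col hM hK hβ
    refine inj_omega_sub hN hmem (hsub hCM) (fun p hp => hGβ.sub hp) ?_
    exact Inj.trans hN (hsub hCM) hN.infinity (inj_up hsub h1) (ctbN hL hK hG hμ)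

include hν

theorem nu_ap {ξ : ZFSet.{0}} (hξ : ξ ∈ κ) : ap (gr ν κ) ξ = ν ξ := ap_gr hξ

theorem hct_pr {ξ : ZFSet.{0}} (hξ : ξ ∈ κ) :
    HCt (ext M G) (pair (ap (gr ν κ) ξ) (Cb G ξ)) := by
  have hM := hL.zf
  have hN := zfN hL hK hG
  have hsub := subN hL hK hG
  rw [ap_gr hξ]
  have h1 := hν.mem ξ hξ
  exact HCt.pair hN (hct_ord hN (hsub (hK.mem_M hM h1)) (hK.ord.mem h1) (ctbN hL hK hG h1))
    (hct_Cb hL hK hG hξ)

theorem dd_spec {ξ : ZFSet.{0}} (hξ : ξ ∈ κ) : dd (ext M G) e κ G ν ξ ∈ PW (ext M G) ∧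
    Cod (dd (ext M G) e κ G ν ξ) (pair (ν ξ) (Cb G ξ)) := by
  have hN := zfN hL hK hG
  obtain ⟨r, hr, h1⟩ := HCg.exists_code hN (hct_pr hL hK hG hν hξ)
  have h2 := (chs_spec (C := ext M G) (e := e) (P := fun r => r ∈ PW (ext M G) ∧
    Cod r (pair (ap (gr ν κ) ξ) (Cb G ξ))) ⟨r, (mem_PW.1 hr).1, hr, h1⟩).2
  rw [ap_gr hξ] at h2
  unfold dd
  rw [ap_gr hξ]
  exact h2

theorem gr_nu_mem : gr ν κ ∈ M :=
  hL.zf.im_mem hK.mem (h := fun u => pair u (ν u))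
    (hL.zf.base.pair' (DfnF.proj 0) (DfnF.comp1 (f := ν) hν.d (DfnF.proj 0)))

include he

theorem dfn_dd : DfnF (ext M G) (ext M G) fun w : Fin 1 → ZFSet.{0} =>
    dd (ext M G) e κ G ν (w 0) := by
  have hN := zfN hL hK hG
  have hsub := subN hL hK hG
  have hGN := genN hL hK hG
  refine hN.chs' he (Q := fun r w => r ∈ PW (ext M G) ∧
    Cod r (pair (ap (gr ν κ) (w 0)) (Cb G (w 0)))) ?_
  refine dfn_Cod hN hCg (DfnF.proj 0) (hN.base.pair' (hN.ap' (DfnF.const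
    (hsub (gr_nu_mem hL hK hG hν))) (DfnF.proj 1)) ?_)
  refine hN.sep' (Q := fun p w => ∀ u ∈ p, fs (fs u) ∈ w 1) (DfnF.const hGN) ?_
  apply hN.base.ball (DfnF.proj 0)
  exact Dfn.mem (hN.fs' (hN.fs' (DfnF.proj 0))) (DfnF.proj 3)

theorem DD_mem : DD (ext M G) e κ G ν ∈ ext M G := by
  have hN := zfN hL hK hG
  have hsub := subN hL hK hG
  refine hN.union _ (hN.im_mem (hsub hK.mem) ?_)
  exact hN.im' (h := fun q w => pair (w 0) q) (dfn_dd hL hK hG hν he)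
    (hN.base.pair' (DfnF.proj 1) (DfnF.proj 0))

/-- The sequence is reshaped and captures all reals. -/
theorem exists_RS : ∃ g, RS (ext M G) e κ (DD (ext M G) e κ G ν) g := by
  have hM := hL.zf
  have hMZ : IsZFC M := isZFC_of_gc hM hL.gc
  have hP := isForcing_Col hM hK.mem hK.ord
  have hN := zfN hL hK hG
  have hsub := subN hL hK hG
  have hGN := genN hL hK hG
  have hLC := LC_ground hL hK hG
  have hDN := DD_mem hL hK hG hν he
  set D := DD (ext M G) e κ G ν with hD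
  have hds : ∀ ξ ∈ κ, dd (ext M G) e κ G ν ξ ∈ PW (ext M G) ∧
    Cod (dd (ext M G) e κ G ν ξ) (pair (ν ξ) (Cb G ξ)) := fun ξ hξ => dd_spec hL hK hG hν hξ
  have hDs : D ⊆ ZFSet.prod κ oo := by
    intro x hx
    obtain ⟨ξ, hξ, q, hq, rfl⟩ := mem_DD.1 hx
    exact ZFSet.pair_mem_prod.2 ⟨hξ, (mem_PW.1 (hds ξ hξ).1).2 hq⟩
  have hκo : ZFSet.prod κ oo ∈ LC (ext M G) ∅ := by
    rw [hLC]
    exact hM.prod_mem hK.mem (oo_mem hM)
  have hcs : ∀ α ∈ ext M G, Lcf (ext M G) (rs D α) := fun α hα =>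
    (cs_of_sub hN (rs_mem_M hN hDN hα) hκo fun x hx => hDs (mem_rs.1 hx).1).lcf hN
  have hsubC : ∀ α ∈ ext M G, M ⊆ LC (ext M G) (rs D α) := fun α hα => by
    have h1 := LC_empty_sub hN (hcs α hα)
    rwa [hLC] at h1
  -- decoding one real
  have hone : ∀ α ∈ κ, ∀ ξ ∈ α, pair (ν ξ) (Cb G ξ) ∈ LC (ext M G) (rs D α) ∧
      Inj (LC (ext M G) (rs D α)) (ν ξ) ZFSet.omega := by
    intro α hα ξ hξ
    have hξκ := hK.ord.mem_trans hξ hα
    have hαN := hsub (hK.mem_M hM hα)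
    have hl := hcs α hαN
    have hC := hl.zf
    have hξC : ξ ∈ LC (ext M G) (rs D α) := hsubC α hαN (hK.mem_M hM hξκ)
    have h1 : dd (ext M G) e κ G ν ξ = im sn (ZFSet.sep (fun u => fs u = ξ) (rs D α)) := by
      ext q
      rw [mem_im]
      constructor
      · intro hq
        refine ⟨pair ξ q, ZFSet.mem_sep.2 ⟨mem_rs.2 ⟨mem_DD.2 ⟨ξ, hξκ, q, hq, rfl⟩, ?_⟩, ?_⟩, ?_⟩
        · rwa [fs_pair]
        · rw [fs_pair]
        · rw [sn_pair]
      · rintro ⟨u, hu, rfl⟩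
        obtain ⟨h2, h3⟩ := ZFSet.mem_sep.1 hu
        obtain ⟨ξ', hξ', q, hq, rfl⟩ := mem_DD.1 (mem_rs.1 h2).1
        rw [fs_pair] at h3
        subst h3
        rwa [sn_pair]
    have h2 : dd (ext M G) e κ G ν ξ ∈ LC (ext M G) (rs D α) := by
      rw [h1]
      refine hC.im_mem (hC.sep_mem (Q := fun u => fs u = ξ) ?_ hl.mem) (hC.sn' (DfnF.proj 0))
      exact Dfn.eq (hC.fs' (DfnF.proj 0)) (DfnF.const hξC)
    have h3 : HCt (LC (ext M G) (rs D α)) (pair (ν ξ) (Cb G ξ)) :=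
      HCg.cod_hct hC h2 (mem_PW.1 (hds ξ hξκ).1).2 (hds ξ hξκ).2
    have h4 := HCt.mem_M hC h3
    refine ⟨h4, ?_⟩
    have h5 : HCt (LC (ext M G) (rs D α)) ({ν ξ} : ZFSet.{0}) :=
      HCt.elem h3 (by simp [pair])
    exact HCt.inj hC (HCt.elem h5 (ZFSet.mem_singleton.2 rfl))
  -- countability
  have hctb : ∀ α ∈ κ, Inj (LC (ext M G) (rs D α)) α ZFSet.omega := by
    intro α hα
    have hαM := hK.mem_M hM hα
    have hαN := hsub hαM
    have hαo := hK.ord.mem hα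
    have hl := hcs α hαN
    have hC := hl.zf
    have hMC := hsubC α hαN
    have hαC := hMC hαM
    by_cases h1 : ∃ ξ ∈ α, ν ξ ∉ α
    · obtain ⟨ξ, hξ, h2⟩ := h1
      have hξκ := hK.ord.mem_trans hξ hα
      have h3 : α ⊆ ν ξ := ((hK.ord.mem (hν.mem ξ hξκ)).notMem_iff_subset hαo).1 h2
      exact inj_omega_sub hC hαC (hMC (hK.mem_M hM (hν.mem ξ hξκ))) h3 (hone α hα ξ hξ).2
    · push Not at h1
      by_cases h2 : ZFSet.omega ∈ α
      · have h3 := hν.sing α hα h2 h1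
        unfold Reg at h3
        push Not at h3
        obtain ⟨δ, hδ, f, hf, hfun, hunb⟩ := h3
        have hsm : ∀ ξ ∈ α, Inj (LC (ext M G) (rs D α)) ξ ZFSet.omega := by
          intro ξ hξ
          have hξκ := hK.ord.mem_trans hξ hα
          exact inj_omega_sub hC (hMC (hK.mem_M hM hξκ)) (hMC (hK.mem_M hM (hν.mem ξ hξκ)))
            (hν.sub ξ hξκ) (hone α hα ξ hξ).2
        have hd : DfnF (LC (ext M G) (rs D α)) (LC (ext M G) (rs D α))
            fun w : Fin 1 → ZFSet.{0} => sc (ap f (w 0)) := by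
          have h5 : DfnF (LC (ext M G) (rs D α)) (LC (ext M G) (rs D α))
            fun w : Fin 1 → ZFSet.{0} => ap f (w 0) := hC.ap' (DfnF.const (hMC hf)) (DfnF.proj 0)
          exact hC.base.insert' h5 h5
        have hδC := hMC (hK.mem_M hM (hK.ord.mem_trans hδ hα))
        have h4 := Inj.iUnion hC hl.la.gc hC.infinity isOrdinal_omega (fun _ h => h) hδC
          (hsm δ hδ) (F := fun x => sc (ap f x)) hd (by
            intro u hu
            obtain ⟨y, hy, huy⟩ := fun_exists hfun hu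
            show Inj (LC (ext M G) (rs D α)) (sc (ap f u)) ZFSet.omega
            rw [ap_func hfun huy]
            have hyC := hMC (hM.trans _ hαM _ hy)
            exact inj_omega_insert hC hyC hyC (hsm y hy))
        refine inj_omega_sub hC hαC (hC.union _ (hC.im_mem (h := fun x => sc (ap f x)) hδC hd))
          (fun β hβ => ?_) h4
        obtain ⟨x, y, hxy, hyβ⟩ := hunb β hβ
        obtain ⟨hx, hy⟩ := ZFSet.pair_mem_prod.1 (hfun.1 hxy)
        refine ZFSet.mem_sUnion.2 ⟨_, mem_im.2 ⟨x, hx, rfl⟩, ?_⟩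
        rw [ap_func hfun hxy]
        have h5 : β ⊆ y := ((hαo.mem hy).notMem_iff_subset (hαo.mem hβ)).1 hyβ
        rcases ((hαo.mem hβ).subset_iff_eq_or_mem (hαo.mem hy)).1 h5 with rfl | h6
        · exact ZFSet.mem_insert _ _
        · exact ZFSet.mem_insert_of_mem _ h6
      · have h3 : α ⊆ ZFSet.omega := (isOrdinal_omega.notMem_iff_subset hαo).1 h2
        exact Inj.of_subset hC hαC hC.infinity h3
  -- the parameter of the coding
  obtain ⟨Q, QF, hQ, -, hQm, -⟩ := q0 hC2 M hMZ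
  obtain ⟨g, hg, hgi⟩ := HCt.inj hM hQ
  refine ⟨g, ⟨hN, he, hsub hK.mem, hK.ord, fun α hα => ctbN hL hK hG hα, uncN hL hK hG, hDN,
    hDs, fun α hα => ?_, fun y hy => ?_, fun x hx => ?_, by rwa [hLC], Q, hQm, hgi⟩⟩
  · have hαN := hsub (hK.mem_M hM hα)
    have hl := hcs α hαN
    obtain ⟨r, hr, h1⟩ := HCg.exists_code hl.zf
      (hct_ord hl.zf (hsubC α hαN (hK.mem_M hM hα)) (hK.ord.mem hα) (hctb α hα))
    exact ⟨r, mem_PW.2 ⟨hl.sub (mem_PW.1 hr).1, (mem_PW.1 hr).2⟩, (mem_PW.1 hr).1, h1⟩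
  · obtain ⟨β, hβ, hyβ⟩ := realN hL hK hG hy
    have hs := hK.suc hM hβ
    have hsN := hsub (hK.mem_M hM hs)
    refine ⟨sc β, hs, ?_⟩
    have hl := hcs (sc β) hsN
    have h1 := (hone (sc β) hs β (ZFSet.mem_insert _ _)).1
    exact ext_sub hl.zf (hsubC (sc β) hsN) (hl.zf.of_pair_mem h1).2 hyβ
  · obtain ⟨r, hr, h1⟩ := HCg.exists_code hN hx
    obtain ⟨β, hβ, hrβ⟩ := realN hL hK hG hr
    have hGβ := gen_rst hM hK.mem hK.ord hβ hG
    have hPβ := isForcing_Col hM (hK.mem_M hM hβ) (hK.ord.mem hβ)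
    have hNβ := zf_ext hL hPβ hGβ
    have hxβ := HCt.mem_M hNβ (HCg.cod_hct hNβ hrβ (mem_PW.1 hr).2 h1)
    obtain ⟨S, hS, hSi, hSm⟩ := fewN hL hK hG hβ
    refine ⟨S, hS, hSi, fun y hy hyx => hSm y hy ?_⟩
    exact LC_sub_of hN hNβ (fun z hz hzo => sub_ext hM hPβ hGβ (ord_of_ext hM hz hzo)) hxβ hyx

omit he in
/-- The failure of projective uniformization in Solovay's model. -/
theorem fail_of_nu {φ : Fm 2 0} (hφ : IsCn φ) : ∃ I, IsSigmaIdeal (ext M G) I ∧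
    CCC (ext M G) I ∧ IsForcing (ext M G) (PI (ext M G) I) (PILe (ext M G) I) ∧
    Proper (ext M G) (PI (ext M G) I) (PILe (ext M G) I) ∧ ¬ ProjUnif (ext M G) I ∧
    NoUnif (ext M G) I φ := by
  have hP := isForcing_Col hL.zf hK.mem hK.ord
  obtain ⟨g, R⟩ := exists_RS hL hK hG hν (gc_ext hL hP hG hL.gc)
  have h := R.no_unif hφ
  have T := R.tp
  refine ⟨_, T.isSigmaIdeal, T.ccc, T.isForcing, T.proper,
    not_projUnif R.zf T.univ_notMem ?_ h, h⟩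
  have hI := T.isSigmaIdeal
  exact hI.down _ (hI.single ∅ (mem_PW.2 ⟨R.zf.empty_mem, ZFSet.empty_subset _⟩)) ∅
    (IsBorel.empty R.zf) (ZFSet.empty_subset _)

end

end Pool.Agent.H660.SU
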