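import Pool.Agent.H660.SU.Bor

/-!
# Topologies on the Cantor space of a model given by sigma-centered notions of forcing

`P` is a set of conditions, `Le q p` says that `q` is stronger than `p`, and `Ob p z` says that the
point `z` is in the basic open set given by `p`.
-/

set_option autoImplicit false
set_option linter.unreachableTactic false
set_option linter.unusedTactic false
set_option linter.unusedSectionVars false

namespace Pool.Agent.H660.SU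

open Pool.Agent.W868 Pool.Agent.W868.GM Pool.Agent.Y588 Pool.Agent.H637_NO
open ZFSet (pair)

/-- `D` is a dense set of conditions. -/
def Dns (P : ZFSet.{0}) (Le : ZFSet.{0} → ZFSet.{0} → Prop) (D : ZFSet.{0}) : Prop :=
  D ⊆ P ∧ ∀ p ∈ P, ∃ d ∈ D, Le d p

/-- `E` is a countable family of dense sets. -/
def Cf (N : Set ZFSet.{0}) (P : ZFSet.{0}) (Le : ZFSet.{0} → ZFSet.{0} → Prop)
    (E : ZFSet.{0}) : Prop := Inj N E ZFSet.omega ∧ ∀ D ∈ E, Dns P Le D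

/-- `z` is in the intersection of the open sets given by the elements of `E`. -/
def Gn (Ob : ZFSet.{0} → ZFSet.{0} → Prop) (E z : ZFSet.{0}) : Prop := ∀ D ∈ E, ∃ d ∈ D, Ob d z

/-- `B` agrees with the open set given by `W` on the comeager set given by `E`. -/
def BPW (N : Set ZFSet.{0}) (P : ZFSet.{0}) (Le Ob : ZFSet.{0} → ZFSet.{0} → Prop)
    (B W E : ZFSet.{0}) : Prop :=
  W ⊆ P ∧ Cf N P Le E ∧ ∀ z ∈ PW N, Gn Ob E z → (z ∈ B ↔ ∃ p ∈ W, Ob p z)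

/-- `B` is meager. -/
def Mgr (N : Set ZFSet.{0}) (P : ZFSet.{0}) (Le Ob : ZFSet.{0} → ZFSet.{0} → Prop)
    (B : ZFSet.{0}) : Prop := ∃ E ∈ N, Cf N P Le E ∧ ∀ z ∈ B, ¬ Gn Ob E z

/-- The assumptions. -/
structure Tp (N : Set ZFSet.{0}) (e : ZFSet.{0} → ZFSet.{0}) (P : ZFSet.{0})
    (Le Ob : ZFSet.{0} → ZFSet.{0} → Prop) (cl : ZFSet.{0} → ZFSet.{0}) (K : ZFSet.{0}) :
    Prop where
  zf : IsZF N
  gc : GC N e
  P_mem : P ∈ N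
  K_mem : K ∈ N
  K_inj : Inj N K ZFSet.omega
  dLe : Dfn N N fun w : Fin 2 → ZFSet.{0} => Le (w 0) (w 1)
  dOb : Dfn N N fun w : Fin 2 → ZFSet.{0} => Ob (w 0) (w 1)
  dcl : DfnF N N fun w : Fin 1 → ZFSet.{0} => cl (w 0)
  clK : ∀ p ∈ P, cl p ∈ K
  refl : ∀ p ∈ P, Le p p
  trans : ∀ p ∈ P, ∀ q ∈ P, ∀ r ∈ P, Le r q → Le q p → Le r p
  cen : ∀ p ∈ P, ∀ q ∈ P, cl p = cl q → ∃ r ∈ P, Le r p ∧ Le r q
  basis : ∀ p ∈ P, ∀ q ∈ P, ∀ z ∈ PW N, Ob p z → Ob q z → ∃ r ∈ P, Le r p ∧ Le r q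
  down : ∀ p ∈ P, ∀ q ∈ P, Le q p → ∀ z ∈ PW N, Ob q z → Ob p z
  baire : ∀ p ∈ P, ∀ E ∈ N, Cf N P Le E → ∃ z ∈ PW N, Ob p z ∧ Gn Ob E z
  basic : ∀ q ∈ oo, ∃ W ∈ N, W ⊆ P ∧ ∀ z ∈ PW N, (q ∈ z ↔ ∃ p ∈ W, Ob p z)
  noiso : ∀ p ∈ P, ∀ z ∈ PW N, ∃ q ∈ P, Le q p ∧ ¬ Ob q z
  ne : ∃ p, p ∈ P

section

variable {N : Set ZFSet.{0}} {e : ZFSet.{0} → ZFSet.{0}} {P : ZFSet.{0}}
    {Le Ob : ZFSet.{0} → ZFSet.{0} → Prop} {cl : ZFSet.{0} → ZFSet.{0}} {K : ZFSet.{0}}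
    (T : Tp N e P Le Ob cl K)

include T

section dfns

variable {n : ℕ} {F G H : (Fin n → ZFSet.{0}) → ZFSet.{0}}

theorem Tp.dLe' (hF : DfnF N N F) (hG : DfnF N N G) : Dfn N N fun v => Le (F v) (G v) :=
  Dfn.comp2 (Q := Le) T.dLe hF hG

theorem Tp.dOb' (hF : DfnF N N F) (hG : DfnF N N G) : Dfn N N fun v => Ob (F v) (G v) :=
  Dfn.comp2 (Q := Ob) T.dOb hF hG

theorem Tp.dDns (hF : DfnF N N F) : Dfn N N fun v => Dns P Le (F v) := by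
  have hB := T.zf.base
  unfold Dns
  refine (hB.subset' hF (DfnF.const T.P_mem)).and ?_
  apply hB.ball (DfnF.const T.P_mem)
  apply hB.bex hF.tail
  exact T.dLe' (DfnF.proj 0) (DfnF.proj 1)

theorem Tp.dCf (hF : DfnF N N F) : Dfn N N fun v => Cf N P Le (F v) := by
  have hB := T.zf.base
  unfold Cf
  refine (dfn_Inj T.zf hF (DfnF.const T.zf.infinity)).and ?_
  apply hB.ball hF
  exact T.dDns (DfnF.proj 0)

theorem Tp.dGn (hF : DfnF N N F) (hG : DfnF N N G) : Dfn N N fun v => Gn Ob (F v) (G v) := by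
  have hB := T.zf.base
  unfold Gn
  apply hB.ball hF
  apply hB.bex (DfnF.proj 0)
  exact T.dOb' (DfnF.proj 0) hG.tail.tail

theorem Tp.dBPW (hF : DfnF N N F) (hG : DfnF N N G) (hH : DfnF N N H) :
    Dfn N N fun v => BPW N P Le Ob (F v) (G v) (H v) := by
  have hB := T.zf.base
  unfold BPW
  refine (hB.subset' hG (DfnF.const T.P_mem)).and ((T.dCf hH).and ?_)
  apply hB.ball (DfnF.const (PW_mem T.zf))
  apply Dfn.imp (T.dGn hH.tail (DfnF.proj 0))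
  apply Dfn.iff (Dfn.mem (DfnF.proj 0) hF.tail)
  apply hB.bex hG.tail
  exact T.dOb' (DfnF.proj 0) (DfnF.proj 1)

theorem Tp.dMgr (hF : DfnF N N F) : Dfn N N fun v => Mgr N P Le Ob (F v) := by
  have hB := T.zf.base
  unfold Mgr
  apply Dfn.ex
  apply Dfn.and (T.dCf (DfnF.proj 0))
  apply hB.ball hF.tail
  exact (T.dGn (DfnF.proj 1) (DfnF.proj 0)).not

end dfns

/-- Countable unions of countable sets. -/
theorem Tp.iUnion {x : ZFSet.{0}} (hx : x ∈ N) (h : Inj N x ZFSet.omega)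
    {F : ZFSet.{0} → ZFSet.{0}} (hF : DfnF N N fun w : Fin 1 → ZFSet.{0} => F (w 0))
    (hF' : ∀ u ∈ x, Inj N (F u) ZFSet.omega) : Inj N (ZFSet.sUnion (im F x)) ZFSet.omega :=
  Inj.iUnion T.zf T.gc T.zf.infinity isOrdinal_omega (fun _ h => h) hx h hF hF'

theorem Tp.cf_insert {E D : ZFSet.{0}} (hE : E ∈ N) (hD : D ∈ N) (h : Cf N P Le E)
    (h' : Dns P Le D) : Cf N P Le (insert D E) := by
  refine ⟨inj_omega_insert T.zf hD hE h.1, fun D' hD' => ?_⟩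
  rcases ZFSet.mem_insert_iff.1 hD' with rfl | h1
  · exact h'
  · exact h.2 _ h1

theorem Tp.cf_union {E E' : ZFSet.{0}} (hE : E ∈ N) (hE' : E' ∈ N) (h : Cf N P Le E)
    (h' : Cf N P Le E') : Cf N P Le (E ∪ E') := by
  refine ⟨inj_omega_union T.zf hE hE' h.1 h'.1, fun D hD => ?_⟩
  rcases ZFSet.mem_union.1 hD with h1 | h1
  · exact h.2 _ h1
  · exact h'.2 _ h1

theorem Tp.cf_iUnion {x : ZFSet.{0}} (hx : x ∈ N) (h : Inj N x ZFSet.omega)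
    {F : ZFSet.{0} → ZFSet.{0}} (hF : DfnF N N fun w : Fin 1 → ZFSet.{0} => F (w 0))
    (hF' : ∀ u ∈ x, Cf N P Le (F u)) : Cf N P Le (ZFSet.sUnion (im F x)) := by
  refine ⟨T.iUnion hx h hF fun u hu => (hF' u hu).1, fun D hD => ?_⟩
  obtain ⟨y, hy, hD⟩ := ZFSet.mem_sUnion.1 hD
  obtain ⟨u, hu, rfl⟩ := mem_im.1 hy
  exact (hF' u hu).2 _ hD

omit T in
theorem gn_iUnion {x z : ZFSet.{0}} {F : ZFSet.{0} → ZFSet.{0}}
    (h : Gn Ob (ZFSet.sUnion (im F x)) z) : ∀ u ∈ x, Gn Ob (F u) z := fun u hu D hD =>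
  h D (ZFSet.mem_sUnion.2 ⟨_, mem_im.2 ⟨u, hu, rfl⟩, hD⟩)

theorem Tp.cf_empty : Cf N P Le ∅ :=
  ⟨Inj.of_subset T.zf T.zf.empty_mem T.zf.infinity (ZFSet.empty_subset _),
    fun D hD => absurd hD (ZFSet.notMem_empty _)⟩

/-- Complements have the Baire property. -/
theorem Tp.bp_compl {B : ZFSet.{0}} (h : ∃ W ∈ N, ∃ E ∈ N, BPW N P Le Ob B W E) :
    ∃ W ∈ N, ∃ E ∈ N, BPW N P Le Ob (PW N \ B) W E := by
  obtain ⟨W, hW, E, hE, h1, h2, h3⟩ := h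
  have hN := T.zf
  have hB := hN.base
  have hPM := T.P_mem
  set W' := ZFSet.sep (fun p => ∀ w ∈ W, ¬ ∃ r ∈ P, Le r p ∧ Le r w) P with hW'
  have hW'M : W' ∈ N := by
    refine hN.sep_mem (Q := fun p => ∀ w ∈ W, ¬ ∃ r ∈ P, Le r p ∧ Le r w) ?_ hPM
    apply hB.ball (DfnF.const hW)
    apply Dfn.not
    apply hB.bex (DfnF.const hPM)
    exact (T.dLe' (DfnF.proj 0) (DfnF.proj 2)).and (T.dLe' (DfnF.proj 0) (DfnF.proj 1))
  set D := ZFSet.sep (fun d => (∃ w ∈ W, Le d w) ∨ d ∈ W') P with hD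
  have hDM : D ∈ N := by
    refine hN.sep_mem (Q := fun d => (∃ w ∈ W, Le d w) ∨ d ∈ W') ?_ hPM
    apply Dfn.or
    · apply hB.bex (DfnF.const hW)
      exact T.dLe' (DfnF.proj 1) (DfnF.proj 0)
    · exact Dfn.mem (DfnF.proj 0) (DfnF.const hW'M)
  have hDd : Dns P Le D := by
    refine ⟨fun x hx => (ZFSet.mem_sep.1 hx).1, fun p hp => ?_⟩
    by_cases hc : ∃ w ∈ W, ∃ r ∈ P, Le r p ∧ Le r w
    · obtain ⟨w, hw, r, hr, h4, h5⟩ := hc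
      exact ⟨r, ZFSet.mem_sep.2 ⟨hr, Or.inl ⟨w, hw, h5⟩⟩, h4⟩
    · refine ⟨p, ZFSet.mem_sep.2 ⟨hp, Or.inr (ZFSet.mem_sep.2 ⟨hp, fun w hw h4 => ?_⟩)⟩,
        T.refl p hp⟩
      exact hc ⟨w, hw, h4⟩
  refine ⟨W', hW'M, insert D E, hN.insert_mem hDM hE, fun x hx => (ZFSet.mem_sep.1 hx).1,
    T.cf_insert hE hDM h2 hDd, fun z hz hg => ?_⟩
  have hgE : Gn Ob E z := fun D' hD' => hg D' (ZFSet.mem_insert_of_mem _ hD')
  have h4 := h3 z hz hgE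
  rw [ZFSet.mem_sdiff]
  constructor
  · rintro ⟨-, hzB⟩
    obtain ⟨d, hd, hdz⟩ := hg D (ZFSet.mem_insert _ _)
    obtain ⟨hdP, h5 | h5⟩ := ZFSet.mem_sep.1 hd
    · obtain ⟨w, hw, h6⟩ := h5
      exact absurd (h4.2 ⟨w, hw, T.down w (h1 hw) d hdP h6 z hz hdz⟩) hzB
    · exact ⟨d, h5, hdz⟩
  · rintro ⟨p, hp, hpz⟩
    refine ⟨hz, fun hzB => ?_⟩
    obtain ⟨w, hw, hwz⟩ := h4.1 hzB
    obtain ⟨hpP, h5⟩ := ZFSet.mem_sep.1 hp
    obtain ⟨r, hr, h6, h7⟩ := T.basis p hpP w (h1 hw) z hz hpz hwz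
    exact h5 w hw ⟨r, hr, h6, h7⟩

/-- The choice of the witnesses for the Baire property. -/
noncomputable def bw (N : Set ZFSet.{0}) (e : ZFSet.{0} → ZFSet.{0}) (P : ZFSet.{0})
    (Le Ob : ZFSet.{0} → ZFSet.{0} → Prop) (B : ZFSet.{0}) : ZFSet.{0} :=
  chs N e fun t => BPW N P Le Ob B (fs t) (sn t)

theorem Tp.dbw {n : ℕ} {F : (Fin n → ZFSet.{0}) → ZFSet.{0}} (hF : DfnF N N F) :
    DfnF N N fun v => bw N e P Le Ob (F v) := by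
  have h : DfnF N N fun w : Fin 1 → ZFSet.{0} => bw N e P Le Ob (w 0) := by
    refine T.zf.chs' T.gc (Q := fun t w => BPW N P Le Ob (w 0) (fs t) (sn t)) ?_
    exact T.dBPW (DfnF.proj 1) (T.zf.fs' (DfnF.proj 0)) (T.zf.sn' (DfnF.proj 0))
  exact DfnF.comp1 (f := bw N e P Le Ob) h hF

theorem Tp.bw_spec {B : ZFSet.{0}} (h : ∃ W ∈ N, ∃ E ∈ N, BPW N P Le Ob B W E) :
    bw N e P Le Ob B ∈ N ∧
      BPW N P Le Ob B (fs (bw N e P Le Ob B)) (sn (bw N e P Le Ob B)) := by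
  obtain ⟨W, hW, E, hE, h1⟩ := h
  refine chs_spec (C := N) (e := e) (P := fun t => BPW N P Le Ob B (fs t) (sn t))
    ⟨pair W E, T.zf.pair_mem hW hE, ?_⟩
  rwa [fs_pair, sn_pair]

/-- Borel sets have the Baire property. -/
theorem Tp.bp {B : ZFSet.{0}} (h : IsBorel N B) : ∃ W ∈ N, ∃ E ∈ N, BPW N P Le Ob B W E := by
  have hN := T.zf
  have hB := hN.base
  have hPW := PW_mem hN
  have hd : Dfn N N fun w : Fin 1 → ZFSet.{0} =>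
      ∃ W ∈ N, ∃ E ∈ N, BPW N P Le Ob (w 0) W E := by
    apply Dfn.ex
    apply Dfn.ex
    exact T.dBPW (DfnF.proj 2) (DfnF.proj 1) (DfnF.proj 0)
  set S := ZFSet.sep (fun B => ∃ W ∈ N, ∃ E ∈ N, BPW N P Le Ob B W E) (pwM N (PW N)) with hS
  have hSM : S ∈ N := hN.sep_mem hd (pwM_mem hN hPW)
  have key : IsSigmaAlg N S := by
    have hpw := isSigmaAlg_pw hN
    refine ⟨fun B hB' => (mem_pwM.1 (ZFSet.mem_sep.1 hB').1).2, fun q hq => ?_, fun B hB' => ?_,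
      fun W hW hs hc => ?_⟩
    · obtain ⟨W, hW, h1, h2⟩ := T.basic q hq
      refine ZFSet.mem_sep.2 ⟨hpw.2.1 q hq, W, hW, ∅, hN.empty_mem, h1, T.cf_empty,
        fun z hz _ => ?_⟩
      rw [ZFSet.mem_sep]
      exact ⟨fun h3 => (h2 z hz).1 h3.2, fun h3 => ⟨hz, (h2 z hz).2 h3⟩⟩
    · obtain ⟨h1, h2⟩ := ZFSet.mem_sep.1 hB'
      exact ZFSet.mem_sep.2 ⟨hpw.2.2.1 _ h1, T.bp_compl h2⟩
    · refine ZFSet.mem_sep.2 ⟨hpw.2.2.2 W hW (fun B hB' => (ZFSet.mem_sep.1 (hs hB')).1) hc, ?_⟩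
      have hb : ∀ B ∈ W, BPW N P Le Ob B (fs (bw N e P Le Ob B)) (sn (bw N e P Le Ob B)) :=
        fun B hB' => (T.bw_spec (ZFSet.mem_sep.1 (hs hB')).2).2
      have hd1 : DfnF N N fun w : Fin 1 → ZFSet.{0} => fs (bw N e P Le Ob (w 0)) :=
        hN.fs' (T.dbw (DfnF.proj 0))
      have hd2 : DfnF N N fun w : Fin 1 → ZFSet.{0} => sn (bw N e P Le Ob (w 0)) :=
        hN.sn' (T.dbw (DfnF.proj 0))
      refine ⟨ZFSet.sUnion (im (fun B => fs (bw N e P Le Ob B)) W),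
        hN.union _ (hN.im_mem hW hd1), ZFSet.sUnion (im (fun B => sn (bw N e P Le Ob B)) W),
        hN.union _ (hN.im_mem hW hd2), ?_, T.cf_iUnion hW hc hd2 fun B hB' => (hb B hB').2.1,
        fun z hz hg => ?_⟩
      · intro p hp
        obtain ⟨y, hy, hp⟩ := ZFSet.mem_sUnion.1 hp
        obtain ⟨B, hB', rfl⟩ := mem_im.1 hy
        exact (hb B hB').1 hp
      · rw [ZFSet.mem_sUnion]
        constructor
        · rintro ⟨B, hB', hzB⟩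
          obtain ⟨p, hp, hpz⟩ := ((hb B hB').2.2 z hz (gn_iUnion hg B hB')).1 hzB
          exact ⟨p, ZFSet.mem_sUnion.2 ⟨_, mem_im.2 ⟨B, hB', rfl⟩, hp⟩, hpz⟩
        · rintro ⟨p, hp, hpz⟩
          obtain ⟨y, hy, hp⟩ := ZFSet.mem_sUnion.1 hp
          obtain ⟨B, hB', rfl⟩ := mem_im.1 hy
          exact ⟨B, hB', ((hb B hB').2.2 z hz (gn_iUnion hg B hB')).2 ⟨p, hp, hpz⟩⟩
  exact (ZFSet.mem_sep.1 (h S hSM key)).2

/-! ### The ideal -/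

/-- A Borel set is not meager iff it contains a basic open set up to a meager set. -/
theorem Tp.not_mgr_iff {B : ZFSet.{0}} (h : IsBorel N B) : ¬ Mgr N P Le Ob B ↔
    ∃ p ∈ P, ∃ E ∈ N, Cf N P Le E ∧ ∀ z ∈ PW N, Gn Ob E z → Ob p z → z ∈ B := by
  constructor
  · intro h1
    obtain ⟨W, hW, E, hE, h2, h3, h4⟩ := T.bp h
    by_cases hne : ∃ p, p ∈ W
    · obtain ⟨p, hp⟩ := hne
      exact ⟨p, h2 hp, E, hE, h3, fun z hz hg hpz => (h4 z hz hg).2 ⟨p, hp, hpz⟩⟩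
    · refine absurd ⟨E, hE, h3, fun z hz hg => ?_⟩ h1
      obtain ⟨p, hp, -⟩ := (h4 z ((IsBorel.mem_sub T.zf h).2 hz) hg).1 hz
      exact hne ⟨p, hp⟩
  · rintro ⟨p, hp, E, hE, h1, h2⟩ ⟨E', hE', h3, h4⟩
    obtain ⟨z, hz, hpz, hg⟩ := T.baire p hp (E ∪ E') (T.zf.union_mem hE hE')
      (T.cf_union hE hE' h1 h3)
    have hg1 : Gn Ob E z := fun D hD => hg D (ZFSet.mem_union.2 (Or.inl hD))
    have hg2 : Gn Ob E' z := fun D hD => hg D (ZFSet.mem_union.2 (Or.inr hD))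
    exact h4 z (h2 z hz hg1 hpz) hg2

omit T in
theorem Mgr.mono {B C : ZFSet.{0}} (h : Mgr N P Le Ob B) (hC : C ⊆ B) : Mgr N P Le Ob C := by
  obtain ⟨E, hE, h1, h2⟩ := h
  exact ⟨E, hE, h1, fun z hz => h2 z (hC hz)⟩

theorem Tp.mgr_sUnion {W : ZFSet.{0}} (hW : W ∈ N) (hc : Inj N W ZFSet.omega)
    (h : ∀ B ∈ W, Mgr N P Le Ob B) : Mgr N P Le Ob (ZFSet.sUnion W : ZFSet.{0}) := by
  have hN := T.zf
  have hB := hN.base
  have hd : DfnF N N fun w : Fin 1 → ZFSet.{0} => chs N e fun E =>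
      Cf N P Le E ∧ ∀ z ∈ w 0, ¬ Gn Ob E z := by
    refine hN.chs' T.gc (Q := fun E w => Cf N P Le E ∧ ∀ z ∈ w 0, ¬ Gn Ob E z) ?_
    refine (T.dCf (DfnF.proj 0)).and ?_
    apply hB.ball (DfnF.proj 1)
    exact (T.dGn (DfnF.proj 1) (DfnF.proj 0)).not
  have hs : ∀ B ∈ W, _ := fun B hB' => chs_spec (C := N) (e := e)
    (P := fun E => Cf N P Le E ∧ ∀ z ∈ B, ¬ Gn Ob E z) (h B hB')
  refine ⟨ZFSet.sUnion (im (fun B => chs N e fun E => Cf N P Le E ∧ ∀ z ∈ B, ¬ Gn Ob E z) W),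
    hN.union _ (hN.im_mem hW hd), T.cf_iUnion hW hc hd fun B hB' => (hs B hB').2.1,
    fun z hz hg => ?_⟩
  obtain ⟨B, hB', hzB⟩ := ZFSet.mem_sUnion.1 hz
  exact (hs B hB').2.2 z hzB (gn_iUnion hg B hB')

theorem Tp.mgr_single {z : ZFSet.{0}} (hz : z ∈ PW N) : Mgr N P Le Ob {z} := by
  have hN := T.zf
  have hzN := (mem_PW.1 hz).1
  set D := ZFSet.sep (fun p => ¬ Ob p z) P with hD
  have hDM : D ∈ N := hN.sep_mem (Q := fun p => ¬ Ob p z)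
    (T.dOb' (DfnF.proj 0) (DfnF.const hzN)).not T.P_mem
  refine ⟨insert D ∅, hN.insert_mem hDM hN.empty_mem, T.cf_insert hN.empty_mem hDM T.cf_empty
    ⟨fun x hx => (ZFSet.mem_sep.1 hx).1, fun p hp => ?_⟩, fun y hy hg => ?_⟩
  · obtain ⟨q, hq, h1, h2⟩ := T.noiso p hp z hz
    exact ⟨q, ZFSet.mem_sep.2 ⟨hq, h2⟩, h1⟩
  · rw [ZFSet.mem_singleton] at hy
    subst hy
    obtain ⟨d, hd, h1⟩ := hg D (ZFSet.mem_insert _ _)
    exact (ZFSet.mem_sep.1 hd).2 h1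

/-- The ideal of the meager Borel sets. -/
noncomputable def Id (N : Set ZFSet.{0}) (P : ZFSet.{0})
    (Le Ob : ZFSet.{0} → ZFSet.{0} → Prop) : ZFSet.{0} :=
  ZFSet.sep (fun B => IsBorel N B ∧ Mgr N P Le Ob B) (ZFSet.powerset (PW N))

theorem Tp.mem_Id {B : ZFSet.{0}} : B ∈ Id N P Le Ob ↔ IsBorel N B ∧ Mgr N P Le Ob B := by
  unfold Id
  rw [ZFSet.mem_sep, ZFSet.mem_powerset]
  exact ⟨fun h => h.2, fun h => ⟨(IsBorel.mem_sub T.zf h.1).2, h⟩⟩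

theorem Tp.isSigmaIdeal : IsSigmaIdeal N (Id N P Le Ob) := by
  have hN := T.zf
  refine ⟨?_, fun B hB => (T.mem_Id.1 hB).1, fun B hB C hC hs => ?_, fun W hW hs hc => ?_,
    fun z hz => T.mem_Id.2 ⟨IsBorel.single hN hz, T.mgr_single hz⟩⟩
  · have h1 : ZFSet.sep (fun B => IsBorel N B ∧ Mgr N P Le Ob B) (pwM N (PW N)) ∈ N :=
      hN.sep_mem ((dfn_isBorel hN (DfnF.proj (0 : Fin 1))).and (T.dMgr (DfnF.proj 0)))
        (pwM_mem hN (PW_mem hN))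
    have h2 : ZFSet.sep (fun B => IsBorel N B ∧ Mgr N P Le Ob B) (pwM N (PW N)) =
        Id N P Le Ob := by
      ext B
      rw [ZFSet.mem_sep, T.mem_Id, mem_pwM]
      exact ⟨fun h => h.2, fun h => ⟨IsBorel.mem_sub hN h.1, h⟩⟩
    rwa [h2] at h1
  · exact T.mem_Id.2 ⟨hC, (T.mem_Id.1 hB).2.mono hs⟩
  · exact T.mem_Id.2 ⟨IsBorel.sUnion hN hW hc fun B hB => (T.mem_Id.1 (hs hB)).1,
      T.mgr_sUnion hW hc fun B hB => (T.mem_Id.1 (hs hB)).2⟩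

theorem Tp.univ_notMem : PW N ∉ Id N P Le Ob := by
  intro h
  obtain ⟨p, hp⟩ := T.ne
  refine (T.not_mgr_iff (IsBorel.univ T.zf)).2 ⟨p, hp, ∅, T.zf.empty_mem, T.cf_empty,
    fun z hz _ _ => hz⟩ (T.mem_Id.1 h).2

theorem Tp.mem_PI {B : ZFSet.{0}} : B ∈ PI N (Id N P Le Ob) ↔
    IsBorel N B ∧ ¬ Mgr N P Le Ob B := by
  unfold PI
  rw [ZFSet.mem_sep, ZFSet.mem_powerset, T.mem_Id]
  constructor
  · rintro ⟨-, h1, h2⟩
    exact ⟨h1, fun h3 => h2 ⟨h1, h3⟩⟩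
  · rintro ⟨h1, h2⟩
    exact ⟨(IsBorel.mem_sub T.zf h1).2, h1, fun h3 => h2 h3.2⟩

theorem Tp.PI_mem : PI N (Id N P Le Ob) ∈ N := by
  have hN := T.zf
  have h1 : ZFSet.sep (fun B => IsBorel N B ∧ ¬ Mgr N P Le Ob B) (pwM N (PW N)) ∈ N :=
    hN.sep_mem ((dfn_isBorel hN (DfnF.proj (0 : Fin 1))).and (T.dMgr (DfnF.proj 0)).not)
      (pwM_mem hN (PW_mem hN))
  have h2 : ZFSet.sep (fun B => IsBorel N B ∧ ¬ Mgr N P Le Ob B) (pwM N (PW N)) =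
      PI N (Id N P Le Ob) := by
    ext B
    rw [ZFSet.mem_sep, T.mem_PI, mem_pwM]
    exact ⟨fun h => h.2, fun h => ⟨IsBorel.mem_sub hN h.1, h⟩⟩
  rwa [h2] at h1

/-- `p` is up to a meager set contained in `B`. -/
def Sb (N : Set ZFSet.{0}) (P : ZFSet.{0}) (Le Ob : ZFSet.{0} → ZFSet.{0} → Prop)
    (p B : ZFSet.{0}) : Prop :=
  ∃ E ∈ N, Cf N P Le E ∧ ∀ z ∈ PW N, Gn Ob E z → Ob p z → z ∈ B

theorem Tp.dSb {n : ℕ} {F G : (Fin n → ZFSet.{0}) → ZFSet.{0}} (hF : DfnF N N F)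
    (hG : DfnF N N G) : Dfn N N fun v => Sb N P Le Ob (F v) (G v) := by
  have hB := T.zf.base
  unfold Sb
  apply Dfn.ex
  refine (T.dCf (DfnF.proj 0)).and ?_
  apply hB.ball (DfnF.const (PW_mem T.zf))
  apply Dfn.imp (T.dGn (DfnF.proj 1) (DfnF.proj 0))
  apply Dfn.imp (T.dOb' hF.tail.tail (DfnF.proj 0))
  exact Dfn.mem (DfnF.proj 0) hG.tail.tail

/-- Two Borel sets for which the centered pieces coincide have a positive intersection. -/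
theorem Tp.inter_pos {p q B C : ZFSet.{0}} (hp : p ∈ P) (hq : q ∈ P) (hcl : cl p = cl q)
    (hB : IsBorel N B) (hC : IsBorel N C) (h1 : Sb N P Le Ob p B) (h2 : Sb N P Le Ob q C) :
    B ∩ C ∈ PI N (Id N P Le Ob) := by
  obtain ⟨r, hr, h3, h4⟩ := T.cen p hp q hq hcl
  obtain ⟨E, hE, h5, h6⟩ := h1
  obtain ⟨E', hE', h7, h8⟩ := h2
  have hBC := IsBorel.inter T.zf hB hC
  refine T.mem_PI.2 ⟨hBC, (T.not_mgr_iff hBC).2 ⟨r, hr, E ∪ E', T.zf.union_mem hE hE',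
    T.cf_union hE hE' h5 h7, fun z hz hg hrz => ZFSet.mem_inter.2 ⟨h6 z hz
      (fun D hD => hg D (ZFSet.mem_union.2 (Or.inl hD))) (T.down p hp r hr h3 z hz hrz),
      h8 z hz (fun D hD => hg D (ZFSet.mem_union.2 (Or.inr hD)))
        (T.down q hq r hr h4 z hz hrz)⟩⟩⟩

end

end Pool.Agent.H660.SU
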