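import Pool.Agent.H660.SU.Top

/-!
# Countable chain condition and the approximation of Borel functions
-/

set_option autoImplicit false
set_option linter.unreachableTactic false
set_option linter.unusedTactic false
set_option linter.unusedSectionVars false

namespace Pool.Agent.H660.SU

open Pool.Agent.W868 Pool.Agent.W868.GM Pool.Agent.Y588 Pool.Agent.H637_NO
open ZFSet (pair)

section

variable {N : Set ZFSet.{0}} {e : ZFSet.{0} → ZFSet.{0}} {P : ZFSet.{0}}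
    {Le Ob : ZFSet.{0} → ZFSet.{0} → Prop} {cl : ZFSet.{0} → ZFSet.{0}} {K : ZFSet.{0}}
    (T : Tp N e P Le Ob cl K)

include T

theorem Tp.dcl' {n : ℕ} {F : (Fin n → ZFSet.{0}) → ZFSet.{0}} (hF : DfnF N N F) :
    DfnF N N fun v => cl (F v) := DfnF.comp1 (f := cl) T.dcl hF

theorem Tp.exists_sb {B : ZFSet.{0}} (hB : B ∈ PI N (Id N P Le Ob)) :
    ∃ p ∈ P, Sb N P Le Ob p B :=
  (T.not_mgr_iff (T.mem_PI.1 hB).1).1 (T.mem_PI.1 hB).2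

omit T in
theorem Sb.mono {p B C : ZFSet.{0}} (h : Sb N P Le Ob p B) (hBC : B ⊆ C) : Sb N P Le Ob p C := by
  obtain ⟨E, hE, h1, h2⟩ := h
  exact ⟨E, hE, h1, fun z hz hg hp => hBC (h2 z hz hg hp)⟩

/-- Every dense set has a countable predense subset; in fact there is a definable enumeration. -/
theorem Tp.predense {D : ZFSet.{0}} (_hD : D ∈ N) (hDs : D ⊆ PI N (Id N P Le Ob))
    (hDd : ∀ B ∈ PI N (Id N P Le Ob), ∃ C ∈ D, C ⊆ B) :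
    ∀ B ∈ PI N (Id N P Le Ob), ∃ k ∈ K,
      (chs N e fun C => C ∈ D ∧ ∃ p ∈ P, cl p = k ∧ Sb N P Le Ob p C) ∈ D ∧
      B ∩ (chs N e fun C => C ∈ D ∧ ∃ p ∈ P, cl p = k ∧ Sb N P Le Ob p C) ∈
        PI N (Id N P Le Ob) := by
  intro B hB
  obtain ⟨C, hC, hCB⟩ := hDd B hB
  obtain ⟨p, hp, h1⟩ := T.exists_sb (hDs hC)
  refine ⟨cl p, T.clK p hp, ?_⟩
  obtain ⟨h2, h3, q, hq, h4, h5⟩ := chs_spec (C := N) (e := e)
    (P := fun C => C ∈ D ∧ ∃ q ∈ P, cl q = cl p ∧ Sb N P Le Ob q C)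
    ⟨C, T.zf.trans _ (T.PI_mem) _ (hDs hC), hC, p, hp, rfl, h1⟩
  refine ⟨h3, ?_⟩
  exact T.inter_pos hp hq h4.symm (T.mem_PI.1 hB).1 (T.mem_PI.1 (hDs h3)).1 (h1.mono hCB) h5

/-- The countable chain condition. -/
theorem Tp.ccc : CCC N (Id N P Le Ob) := by
  intro A hA hAP h
  have hN := T.zf
  have hB := hN.base
  have hd : DfnF N N fun w : Fin 1 → ZFSet.{0} => chs N e fun k =>
      k ∈ K ∧ ∃ p ∈ P, cl p = k ∧ Sb N P Le Ob p (w 0) := by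
    refine hN.chs' T.gc (Q := fun k w => k ∈ K ∧ ∃ p ∈ P, cl p = k ∧ Sb N P Le Ob p (w 0)) ?_
    refine (Dfn.mem (DfnF.proj 0) (DfnF.const T.K_mem)).and ?_
    apply hB.bex (DfnF.const T.P_mem)
    exact (Dfn.eq (T.dcl' (DfnF.proj 0)) (DfnF.proj 1)).and (T.dSb (DfnF.proj 0) (DfnF.proj 2))
  set g : ZFSet.{0} → ZFSet.{0} := fun B => chs N e fun k =>
    k ∈ K ∧ ∃ p ∈ P, cl p = k ∧ Sb N P Le Ob p B with hg
  have hs : ∀ B ∈ A, g B ∈ N ∧ g B ∈ K ∧ ∃ p ∈ P, cl p = g B ∧ Sb N P Le Ob p B := by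
    intro B hB'
    obtain ⟨p, hp, h1⟩ := T.exists_sb (hAP hB')
    exact chs_spec (C := N) (e := e)
      (P := fun k => k ∈ K ∧ ∃ p ∈ P, cl p = k ∧ Sb N P Le Ob p B)
      ⟨cl p, hN.trans _ T.K_mem _ (T.clK p hp), T.clK p hp, p, hp, rfl, h1⟩
  refine Inj.trans hN hA hN.infinity (Inj.of_fun hN hA T.K_mem
    (h := g) hd
    (fun B hB' => (hs B hB').2.1) ?_) T.K_inj
  intro B hB' C hC' heq
  by_contra hne
  obtain ⟨-, -, p, hp, h1, h2⟩ := hs B hB'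
  obtain ⟨-, -, q, hq, h3, h4⟩ := hs C hC'
  have h5 := T.inter_pos hp hq (h1.trans (heq.trans h3.symm)) (T.mem_PI.1 (hAP hB')).1
    (T.mem_PI.1 (hAP hC')).1 h2 h4
  exact h B hB' C hC' hne ⟨_, h5, fun z hz => (ZFSet.mem_inter.1 hz).1,
    fun z hz => (ZFSet.mem_inter.1 hz).2⟩

/-- Borel functions are given on a comeager set by countably many conditions. -/
theorem Tp.borel_fun {B f : ZFSet.{0}} (hBB : IsBorel N B) (hf : IsBorelFun N B f) :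
    ∃ c ∈ N, c ⊆ ZFSet.prod oo P ∧ Inj N c ZFSet.omega ∧ ∃ E ∈ N, Cf N P Le E ∧
      ∀ z y, pair z y ∈ f → Gn Ob E z → ∀ q ∈ oo, (q ∈ y ↔ ∃ p, pair q p ∈ c ∧ Ob p z) := by
  have hN := T.zf
  have hB := hN.base
  have hPM := T.P_mem
  have hKM := T.K_mem
  have hPW := PW_mem hN
  have hoo := oo_mem hN
  obtain ⟨hfN, hfun, hbor⟩ := hf
  have hBN := (IsBorel.mem_sub hN hBB).1
  set S : ZFSet.{0} → ZFSet.{0} := fun q => ZFSet.sep (fun z => ∃ y, pair z y ∈ f ∧ q ∈ y) B with hS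
  have hSd : DfnF N N fun w : Fin 1 → ZFSet.{0} => S (w 0) := by
    refine (hN.sep' (F := fun _ : Fin 1 → ZFSet.{0} => B)
      (Q := fun z w => ∃ y ∈ PW N, pair z y ∈ f ∧ w 0 ∈ y)
      (DfnF.const hBN) ?_).congr fun v _ => ?_
    · apply hB.bex (DfnF.const hPW)
      exact (Dfn.mem (hB.pair' (DfnF.proj 1) (DfnF.proj 0)) (DfnF.const hfN)).and
        (Dfn.mem (DfnF.proj 2) (DfnF.proj 0))
    · ext z
      rw [hS, ZFSet.mem_sep, ZFSet.mem_sep]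
      refine and_congr_right fun _ => ⟨fun ⟨y, _, h⟩ => ⟨y, h⟩, fun ⟨y, h⟩ => ⟨y, ?_, h⟩⟩
      exact (ZFSet.pair_mem_prod.1 (hfun.1 h.1)).2
  -- the witnesses of the Baire property
  set t : ZFSet.{0} → ZFSet.{0} := fun q => bw N e P Le Ob (S q) with ht
  have htd : ∀ {n : ℕ} {F : (Fin n → ZFSet.{0}) → ZFSet.{0}}, DfnF N N F →
      DfnF N N fun v => t (F v) := fun {n F} hF => T.dbw (DfnF.comp1 (f := S) hSd hF)
  have hts : ∀ q ∈ oo, t q ∈ N ∧ BPW N P Le Ob (S q) (fs (t q)) (sn (t q)) := fun q hq =>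
    T.bw_spec (T.bp (hbor q hq))
  -- the choice in the centered pieces
  set w : ZFSet.{0} → ZFSet.{0} → ZFSet.{0} := fun q k => chs N e fun p =>
    p ∈ P ∧ cl p = k ∧ ∃ x ∈ fs (t q), Le p x with hw
  have hwd : DfnF N N fun v : Fin 2 → ZFSet.{0} => w (v 0) (v 1) := by
    refine hN.chs' T.gc (Q := fun p v => p ∈ P ∧ cl p = v 1 ∧ ∃ x ∈ fs (t (v 0)), Le p x) ?_
    refine (Dfn.mem (DfnF.proj 0) (DfnF.const hPM)).and
      ((Dfn.eq (T.dcl' (DfnF.proj 0)) (DfnF.proj 2)).and ?_)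
    apply hB.bex (hN.fs' (htd (DfnF.proj 1)))
    exact T.dLe' (DfnF.proj 1) (DfnF.proj 0)
  set h : ZFSet.{0} → ZFSet.{0} := fun u => pair (fs u) (w (fs u) (sn u)) with hh
  have hhd : DfnF N N fun v : Fin 1 → ZFSet.{0} => h (v 0) :=
    hB.pair' (hN.fs' (DfnF.proj 0)) (DfnF.comp2 (f := w) hwd (hN.fs' (DfnF.proj 0))
      (hN.sn' (DfnF.proj 0)))
  have hKK : ZFSet.prod oo K ∈ N := hN.prod_mem hoo hKM
  have hKi : Inj N (ZFSet.prod oo K) ZFSet.omega := by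
    refine Inj.trans hN hKK hN.infinity (Inj.prod hN hoo hKM hN.infinity hN.infinity
      (oo_countable hN) T.K_inj) (inj_omega_sq hN)
  have him : im h (ZFSet.prod oo K) ∈ N := hN.im_mem hKK hhd
  have himi : Inj N (im h (ZFSet.prod oo K)) ZFSet.omega :=
    Inj.image hN hKK hN.infinity isOrdinal_omega hKi hhd
  have hgood : Dfn N N fun v : Fin 1 → ZFSet.{0} => sn (v 0) ∈ P ∧
      ∃ x ∈ fs (t (fs (v 0))), Le (sn (v 0)) x := by
    refine (Dfn.mem (hN.sn' (DfnF.proj 0)) (DfnF.const hPM)).and ?_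
    apply hB.bex (hN.fs' (htd (hN.fs' (DfnF.proj 0))))
    exact T.dLe' (hN.sn' (DfnF.proj 1)) (DfnF.proj 0)
  set c := ZFSet.sep (fun u => sn u ∈ P ∧ ∃ x ∈ fs (t (fs u)), Le (sn u) x)
    (im h (ZFSet.prod oo K)) with hc
  have hcM : c ∈ N := hN.sep_mem hgood him
  have hcm : ∀ q p, pair q p ∈ c ↔ (∃ k ∈ K, q ∈ oo ∧ p = w q k) ∧ p ∈ P ∧
      ∃ x ∈ fs (t q), Le p x := by
    intro q p
    rw [hc, ZFSet.mem_sep, fs_pair, sn_pair, mem_im]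
    refine and_congr_left fun _ => ?_
    constructor
    · rintro ⟨u, hu, hu'⟩
      obtain ⟨q', hq', k, hk, rfl⟩ := ZFSet.mem_prod.1 hu
      rw [hh] at hu'
      simp only [fs_pair, sn_pair] at hu'
      obtain ⟨rfl, rfl⟩ := ZFSet.pair_inj.1 hu'
      exact ⟨k, hk, hq', rfl⟩
    · rintro ⟨k, hk, hq, rfl⟩
      refine ⟨pair q k, ZFSet.pair_mem_prod.2 ⟨hq, hk⟩, ?_⟩
      rw [hh]
      simp only [fs_pair, sn_pair]
  -- the dense sets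
  set D : ZFSet.{0} → ZFSet.{0} := fun q => ZFSet.sep (fun d =>
    (∃ k ∈ K, pair q (w q k) ∈ c ∧ Le d (w q k)) ∨
      ∀ x ∈ fs (t q), ¬ ∃ r ∈ P, Le r d ∧ Le r x) P with hD
  have hDd : DfnF N N fun v : Fin 1 → ZFSet.{0} => D (v 0) := by
    refine hN.sep' (Q := fun d v => (∃ k ∈ K, pair (v 0) (w (v 0) k) ∈ c ∧ Le d (w (v 0) k)) ∨
      ∀ x ∈ fs (t (v 0)), ¬ ∃ r ∈ P, Le r d ∧ Le r x) (DfnF.const hPM) ?_
    apply Dfn.or
    · apply hB.bex (DfnF.const hKM)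
      have h1 : DfnF N N fun v : Fin 3 → ZFSet.{0} => w (v 2) (v 0) :=
        DfnF.comp2 (f := w) hwd (DfnF.proj 2) (DfnF.proj 0)
      exact (Dfn.mem (hB.pair' (DfnF.proj 2) h1) (DfnF.const hcM)).and (T.dLe' (DfnF.proj 1) h1)
    · apply hB.ball (hN.fs' (htd (DfnF.proj 1)))
      apply Dfn.not
      apply hB.bex (DfnF.const hPM)
      exact (T.dLe' (DfnF.proj 0) (DfnF.proj 2)).and (T.dLe' (DfnF.proj 0) (DfnF.proj 1))
  have hDdns : ∀ q ∈ oo, Dns P Le (D q) := by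
    intro q hq
    refine ⟨fun x hx => (ZFSet.mem_sep.1 hx).1, fun p hp => ?_⟩
    by_cases hcp : ∃ x ∈ fs (t q), ∃ r ∈ P, Le r p ∧ Le r x
    · obtain ⟨x, hx, r, hr, h1, h2⟩ := hcp
      obtain ⟨h3, h4, h5, y, hy, h6⟩ := chs_spec (C := N) (e := e)
        (P := fun p => p ∈ P ∧ cl p = cl r ∧ ∃ x ∈ fs (t q), Le p x)
        ⟨r, hN.trans _ hPM _ hr, hr, rfl, x, hx, h2⟩
      have h7 : w q (cl r) = chs N e fun p => p ∈ P ∧ cl p = cl r ∧ ∃ x ∈ fs (t q), Le p x := rfl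
      obtain ⟨s, hs, h8, h9⟩ := T.cen r hr _ h4 h5.symm
      refine ⟨s, ZFSet.mem_sep.2 ⟨hs, Or.inl ⟨cl r, T.clK r hr, (hcm _ _).2 ⟨⟨cl r, T.clK r hr,
        hq, rfl⟩, h7 ▸ h4, y, hy, h7 ▸ h6⟩, h7 ▸ h9⟩⟩, T.trans p hp r hr s hs h8 h1⟩
    · refine ⟨p, ZFSet.mem_sep.2 ⟨hp, Or.inr fun x hx h1 => hcp ⟨x, hx, h1⟩⟩, T.refl p hp⟩
  -- the family
  have hDi : im D oo ∈ N := hN.im_mem hoo hDd
  have hsd : DfnF N N fun v : Fin 1 → ZFSet.{0} => sn (t (v 0)) := hN.sn' (htd (DfnF.proj 0))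
  have hcf1 : Cf N P Le (im D oo) := by
    refine ⟨Inj.image hN hoo hN.infinity isOrdinal_omega (oo_countable hN) hDd, fun X hX => ?_⟩
    obtain ⟨q, hq, rfl⟩ := mem_im.1 hX
    exact hDdns q hq
  have hcf2 : Cf N P Le (ZFSet.sUnion (im (fun q => sn (t q)) oo)) :=
    T.cf_iUnion hoo (oo_countable hN) hsd fun q hq => (hts q hq).2.2.1
  have hE2 : (ZFSet.sUnion (im (fun q => sn (t q)) oo) : ZFSet.{0}) ∈ N :=
    hN.union _ (hN.im_mem hoo hsd)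
  refine ⟨c, hcM, ?_, inj_omega_sub hN hcM him (fun x hx => (ZFSet.mem_sep.1 hx).1) himi,
    im D oo ∪ ZFSet.sUnion (im (fun q => sn (t q)) oo), hN.union_mem hDi hE2,
    T.cf_union hDi hE2 hcf1 hcf2, ?_⟩
  · intro u hu
    obtain ⟨h1, h2, -⟩ := ZFSet.mem_sep.1 hu
    obtain ⟨v, hv, rfl⟩ := mem_im.1 h1
    obtain ⟨q, hq, k, hk, rfl⟩ := ZFSet.mem_prod.1 hv
    rw [hh] at h2 ⊢
    simp only [fs_pair, sn_pair] at h2 ⊢
    exact ZFSet.pair_mem_prod.2 ⟨hq, h2⟩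
  · intro z y hzy hg q hq
    have hzB := (ZFSet.pair_mem_prod.1 (hfun.1 hzy)).1
    have hz : z ∈ PW N := (IsBorel.mem_sub hN hBB).2 hzB
    have hg1 : Gn Ob (sn (t q)) z := gn_iUnion
      (fun D hD => hg D (ZFSet.mem_union.2 (Or.inr hD))) q hq
    have h1 : q ∈ y ↔ z ∈ S q := by
      rw [hS, ZFSet.mem_sep]
      constructor
      · exact fun h2 => ⟨hzB, y, hzy, h2⟩
      · rintro ⟨-, y', h2, h3⟩
        rwa [fun_unique hfun hzy h2]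
    rw [h1, (hts q hq).2.2.2 z hz hg1]
    constructor
    · rintro ⟨x, hx, hxz⟩
      obtain ⟨d, hd, hdz⟩ := hg (D q) (ZFSet.mem_union.2 (Or.inl (mem_im.2 ⟨q, hq, rfl⟩)))
      obtain ⟨hdP, h2 | h2⟩ := ZFSet.mem_sep.1 hd
      · obtain ⟨k, hk, h3, h4⟩ := h2
        exact ⟨_, h3, T.down _ ((hcm _ _).1 h3).2.1 d hdP h4 z hz hdz⟩
      · obtain ⟨r, hr, h3, h4⟩ := T.basis d hdP x ((hts q hq).2.1 hx) z hz hdz hxz
        exact absurd ⟨r, hr, h3, h4⟩ (h2 x hx)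
    · rintro ⟨p, hp, hpz⟩
      obtain ⟨-, h2, x, hx, h3⟩ := (hcm _ _).1 hp
      exact ⟨x, hx, T.down x ((hts q hq).2.1 hx) p h2 h3 z hz hpz⟩

end

end Pool.Agent.H660.SU
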